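import Mathlib

/-!
Riemann domains over `ℂ^n`, holomorphic functions on them, extensions and the envelope of
holomorphy of a set in `ℂ^n`; smooth boundary.
-/

set_option autoImplicit false
namespace Pool.Agent.Helper401.ENV
open Set Metric Filter Topology
open scoped ContDiff

/-- A (connected, Hausdorff) Riemann domain over `ℂ^n`: a local homeomorphism into `ℂ^n`. -/
structure RDom (n : ℕ) where
  X : Type
  [top : TopologicalSpace X]
  [t2 : T2Space X]
  [conn : ConnectedSpace X]
  π : X → (Fin n → ℂ)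
  lh : IsLocalHomeomorph π

attribute [instance] RDom.top RDom.t2 RDom.conn

/-- Holomorphic functions on a Riemann domain: near every point the function is a holomorphic
function of the coordinates. -/
def Hol {n : ℕ} (Y : RDom n) (F : Y.X → ℂ) : Prop :=
  ∀ x : Y.X, ∃ (U : Set (Fin n → ℂ)) (g : (Fin n → ℂ) → ℂ), IsOpen U ∧ Y.π x ∈ U ∧
    DifferentiableOn ℂ g U ∧ ∀ᶠ y in 𝓝 x, F y = g (Y.π y)

/-- `Y` (with `ι`) is an extension of `D`: `D` embeds in `Y` over `ℂ^n` and every holomorphic
function on `D` extends to a holomorphic function on `Y`. -/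
structure IsExtension {n : ℕ} (D : Set (Fin n → ℂ)) (Y : RDom n) (ι : D → Y.X) : Prop where
  cont : Continuous ι
  sec : ∀ z : D, Y.π (ι z) = z
  ext : ∀ f : (Fin n → ℂ) → ℂ, DifferentiableOn ℂ f D →
    ∃ F : Y.X → ℂ, Hol Y F ∧ ∀ z : D, F (ι z) = f z

/-- The envelope of holomorphy of `D`: the largest extension, that is the extension to which every
other extension maps. -/
structure IsEnvelope {n : ℕ} (D : Set (Fin n → ℂ)) (Y : RDom n) (ι : D → Y.X) : Prop where
  ext : IsExtension D Y ι
  max : ∀ (Z : RDom n) (κ : D → Z.X), IsExtension D Z κ →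
    ∃ φ : Z.X → Y.X, Continuous φ ∧ (∀ x, Y.π (φ x) = Z.π x) ∧ ∀ z, φ (κ z) = ι z

/-- `D` has smooth (`C^∞`) boundary: near every boundary point it is the negative side of a smooth
function with nonvanishing differential. -/
def SmoothBoundary {E : Type*} [NormedAddCommGroup E] [NormedSpace ℝ E] (D : Set E) : Prop :=
  ∀ p ∈ frontier D, ∃ U ∈ 𝓝 p, ∃ ρ : E → ℝ, ContDiff ℝ ∞ ρ ∧ ρ p = 0 ∧ fderiv ℝ ρ p ≠ 0 ∧
    D ∩ U = {q | q ∈ U ∧ ρ q < 0}

end Pool.Agent.Helper401.ENV
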