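import Mathlib
import Pool.Agent.Helper401.ENV.Defs

set_option autoImplicit false
namespace Pool.Agent.Helper401.ENV.A1
open Complex

theorem sqrt_facts (b : ℂ) (hb : 0 < b.re) :
    (b ^ (1 / 2 : ℂ)) ^ 2 = b ∧ 0 < (b ^ (1 / 2 : ℂ)).re ∧ b.re ≤ (b ^ (1 / 2 : ℂ)).re ^ 2 := by
  have hb0 : b ≠ 0 := by
    intro h
    rw [h, Complex.zero_re] at hb
    exact lt_irrefl _ hb
  have h1 : (b ^ (1 / 2 : ℂ)) ^ 2 = b := by
    have h := Complex.cpow_nat_inv_pow b (n := 2) two_ne_zero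
    have e : (1 / 2 : ℂ) = ((2 : ℕ) : ℂ)⁻¹ := by norm_num
    rw [e]
    exact h
  have h2 : 0 < (b ^ (1 / 2 : ℂ)).re := by
    rw [Complex.cpow_def_of_ne_zero hb0, Complex.exp_re]
    apply mul_pos (Real.exp_pos _)
    have him : (Complex.log b * (1 / 2)).im = b.arg / 2 := by
      have e : (1 / 2 : ℂ) = ((1 / 2 : ℝ) : ℂ) := by push_cast; rfl
      rw [e, mul_comm, Complex.im_ofReal_mul, Complex.log_im]
      ring
    rw [him]
    have harg : |b.arg| < Real.pi / 2 := Complex.abs_arg_lt_pi_div_two_iff.2 (Or.inl hb)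
    rw [abs_lt] at harg
    have hpi := Real.pi_pos
    apply Real.cos_pos_of_mem_Ioo
    constructor <;> linarith [harg.1, harg.2]
  refine ⟨h1, h2, ?_⟩
  set R := b ^ (1 / 2 : ℂ) with hR
  have h3 : b.re = R.re ^ 2 - R.im ^ 2 := by
    rw [← h1, pow_two, Complex.mul_re]
    ring
  rw [h3]
  nlinarith [sq_nonneg R.im]

/-- positivity of the real part of the radicand -/
theorem rad_pos (c ε e : ℝ) (l G : ℂ) (hε : 0 < ε)
    (h1 : G.re + 200 * ‖G‖ ^ 2 + 400 * l.im ^ 2 < e)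
    (h2 : e ≤ (ε + (max (l.re - c) 0) ^ 2) / 4) :
    3 / 4 * ((l.re - c) ^ 2 + ε) + 399 * l.im ^ 2 + 200 * ‖G‖ ^ 2
      < ((l - c) ^ 2 + ε - G).re := by
  have e1 : ((l - c) ^ 2 + ε - G : ℂ).re = (l.re - c) ^ 2 - l.im ^ 2 + ε - G.re := by
    simp [pow_two, Complex.mul_re]
  have h3 : (max (l.re - c) 0) ^ 2 ≤ (l.re - c) ^ 2 := by
    rcases le_total (l.re - c) 0 with h | h
    · rw [max_eq_right h]
      nlinarith [sq_nonneg (l.re - c)]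
    · rw [max_eq_left h]
  rw [e1]
  nlinarith

/-- crude bound for the function y = -G / (2 d (R + l - c)) -/
theorem crude (c d ε e : ℝ) (l G : ℂ) (hd : 0 < d) (hε : 0 < ε) (hε1 : ε ≤ 1 / 1000)
    (hc0 : 0 ≤ c) (hc1 : c ≤ 1 / 2)
    (hl : ‖l‖ ≤ 21 / 10) (hG : ‖G‖ ≤ 1 / 100)
    (h1 : G.re + 200 * ‖G‖ ^ 2 + 400 * l.im ^ 2 < e)
    (h2 : e ≤ (ε + (max (l.re - c) 0) ^ 2) / 4) :
    (((l - c) ^ 2 + ε - G) ^ (1 / 2 : ℂ) + l - c) ≠ 0 ∧
    ‖-G / (2 * d * (((l - c) ^ 2 + ε - G) ^ (1 / 2 : ℂ) + l - c))‖ ≤ 3 / d ∧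
    (1 / 40 ≤ l.re - c → d / 20 ≤ ‖2 * d * (((l - c) ^ 2 + ε - G) ^ (1 / 2 : ℂ) + l - c)‖) := by
  have hrad := rad_pos c ε e l G hε h1 h2
  have hG0 : 0 ≤ ‖G‖ := norm_nonneg _
  have hbpos : 0 < ((l - c) ^ 2 + ε - G : ℂ).re := by
    nlinarith [sq_nonneg (l.re - c), sq_nonneg l.im, sq_nonneg ‖G‖]
  obtain ⟨hR2, hRre, hRb⟩ := sqrt_facts _ hbpos
  set R : ℂ := ((l - c) ^ 2 + ε - G) ^ (1 / 2 : ℂ) with hRdef
  have hS : R + l - c = R + (l - c) := by ring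
  rw [hS]
  set ζ : ℂ := l - c with hζ
  have hζre : ζ.re = l.re - c := by simp [hζ]
  have hd2 : ‖(2 * d : ℂ)‖ = 2 * d := by
    rw [norm_mul, Complex.norm_real, Real.norm_of_nonneg hd.le]
    simp
  have hn1 : ‖-G / (2 * d * (R + ζ))‖ = ‖G‖ / (2 * d * ‖R + ζ‖) := by
    rw [norm_div, norm_neg, norm_mul, hd2]
  have hprod : (R + ζ) * (R - ζ) = ε - G := by
    have : (R + ζ) * (R - ζ) = R ^ 2 - ζ ^ 2 := by ring
    rw [this, hR2]
    ring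
  rw [hn1]
  rcases le_or_gt (l.re - c) 0 with hx | hx
  · -- case x ≤ 0
    rw [max_eq_right hx] at h2
    have hGre : G.re < ε / 4 := by nlinarith [sq_nonneg l.im, sq_nonneg ‖G‖]
    have hWre : (ε - G : ℂ).re = ε - G.re := by simp
    have hW0 : (ε - G : ℂ) ≠ 0 := by
      intro h
      rw [h, Complex.zero_re] at hWre
      linarith
    have hS0 : R + ζ ≠ 0 := by
      intro h
      rw [h, zero_mul] at hprod
      exact hW0 hprod.symm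
    have hGW : ‖G‖ ≤ ‖(ε - G : ℂ)‖ := by
      apply le_of_sq_le_sq _ (norm_nonneg _)
      rw [← Complex.normSq_eq_norm_sq, ← Complex.normSq_eq_norm_sq, Complex.normSq_apply,
        Complex.normSq_apply]
      have hWim : (ε - G : ℂ).im = - G.im := by simp
      rw [hWre, hWim]
      nlinarith
    have hSpos : 0 < ‖R + ζ‖ := norm_pos_iff.2 hS0
    have hWpos : 0 < ‖(ε - G : ℂ)‖ := norm_pos_iff.2 hW0
    have hζn : ‖ζ‖ ≤ 26 / 10 := by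
      have h3 : ‖ζ‖ ≤ ‖l‖ + ‖(c : ℂ)‖ := norm_sub_le _ _
      rw [Complex.norm_real, Real.norm_of_nonneg hc0] at h3
      linarith
    have hRn : ‖R‖ ≤ 261 / 100 := by
      have h3 : ‖R‖ ^ 2 = ‖ζ ^ 2 + ε - G‖ := by rw [← norm_pow, hR2]
      have h4 : ‖ζ ^ 2 + ε - G‖ ≤ ‖ζ‖ ^ 2 + ε + ‖G‖ := by
        have h5 : ‖ζ ^ 2 + ε - G‖ ≤ ‖ζ ^ 2 + ε‖ + ‖G‖ := norm_sub_le _ _
        have h6 : ‖ζ ^ 2 + ε‖ ≤ ‖ζ ^ 2‖ + ‖(ε : ℂ)‖ := norm_add_le _ _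
        rw [norm_pow, Complex.norm_real, Real.norm_of_nonneg hε.le] at h6
        linarith
      by_contra hcon
      push Not at hcon
      nlinarith [norm_nonneg ζ, norm_nonneg R]
    have hRm : ‖R - ζ‖ ≤ 521 / 100 := by
      have h3 : ‖R - ζ‖ ≤ ‖R‖ + ‖ζ‖ := norm_sub_le _ _
      linarith
    have hmul : ‖R + ζ‖ * ‖R - ζ‖ = ‖(ε - G : ℂ)‖ := by rw [← norm_mul, hprod]
    refine ⟨hS0, ?_, fun h => by linarith⟩
    rw [div_le_div_iff₀ (by positivity) hd]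
    have h5 : ‖G‖ ≤ ‖R + ζ‖ * (521 / 100) := by
      calc ‖G‖ ≤ ‖(ε - G : ℂ)‖ := hGW
        _ = ‖R + ζ‖ * ‖R - ζ‖ := hmul.symm
        _ ≤ ‖R + ζ‖ * (521 / 100) := mul_le_mul_of_nonneg_left hRm hSpos.le
    nlinarith [mul_le_mul_of_nonneg_left h5 hd.le, mul_pos hd hSpos]
  · -- case x > 0
    have hSre : (R + ζ).re = R.re + (l.re - c) := by rw [Complex.add_re, hζre]
    have hSn : R.re + (l.re - c) ≤ ‖R + ζ‖ := by
      rw [← hSre]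
      exact Complex.re_le_norm _
    have hSpos : 0 < ‖R + ζ‖ := by linarith
    have hG14 : ‖G‖ ≤ R.re := by
      apply le_of_sq_le_sq _ hRre.le
      nlinarith [sq_nonneg (l.re - c), sq_nonneg l.im, sq_nonneg ‖G‖]
    refine ⟨norm_pos_iff.1 hSpos, ?_, fun h => ?_⟩
    · rw [div_le_div_iff₀ (by positivity) hd]
      have h5 : ‖G‖ ≤ ‖R + ζ‖ := by linarith
      nlinarith [mul_le_mul_of_nonneg_left h5 hd.le, mul_pos hd hSpos]
    · rw [norm_mul, hd2]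
      have h5 : 1 / 40 ≤ ‖R + ζ‖ := by linarith
      nlinarith [mul_le_mul_of_nonneg_left h5 hd.le]


end Pool.Agent.Helper401.ENV.A1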