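import Mathlib
import Pool.Agent.Helper401.ENV.Defs

set_option autoImplicit false
namespace Pool.Agent.Helper401.ENV.A2
open Complex

theorem sqrt_facts (b : ℂ) (hb : b ≠ 0) :
    (b ^ (1 / 2 : ℂ)) ^ 2 = b ∧ 0 ≤ (b ^ (1 / 2 : ℂ)).re := by
  constructor
  · have h1 := Complex.cpow_nat_inv_pow b (n := 2) two_ne_zero
    have h2 : (((2 : ℕ) : ℂ)⁻¹) = (1 / 2 : ℂ) := by norm_num
    rwa [h2] at h1
  · rw [Complex.cpow_def_of_ne_zero hb, Complex.exp_re]
    apply mul_nonneg (Real.exp_pos _).le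
    have h1 : (Complex.log b * (1 / 2 : ℂ)).im = Complex.arg b / 2 := by
      have h2 : (1 / 2 : ℂ) = ((1 / 2 : ℝ) : ℂ) := by norm_num
      rw [h2, Complex.im_mul_ofReal, Complex.log_im]
      ring
    rw [h1]
    apply Real.cos_nonneg_of_mem_Icc
    constructor
    · linarith [Complex.neg_pi_lt_arg b]
    · linarith [Complex.arg_le_pi b]

/-- precise form of y near the place l = c - d -/
theorem near (c d ε : ℝ) (l G : ℂ) (hd : 0 < d)
    (hb : 0 < ((l - c) ^ 2 + ε - G).re) (hW : (ε : ℂ) - G ≠ 0)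
    (hl : ‖l - (c - d)‖ ≤ d / 2) :
    ∃ e1 : ℂ, -G / (2 * d * (((l - c) ^ 2 + ε - G) ^ (1 / 2 : ℂ) + l - c))
        = (-G / ((ε : ℂ) - G)) * (1 + e1) ∧
      ‖e1‖ ≤ ‖l - (c - d)‖ / d + ‖(ε : ℂ) - G‖ / d ^ 2 := by
  set b : ℂ := (l - c) ^ 2 + ε - G with hbdef
  have hb0 : b ≠ 0 := by
    intro h0
    rw [h0] at hb
    simp at hb
  obtain ⟨hR2, hRre⟩ := sqrt_facts b hb0
  set R : ℂ := b ^ (1 / 2 : ℂ) with hR
  set W : ℂ := (ε : ℂ) - G with hWdef
  have hprod : (R + (l - c)) * (R - (l - c)) = W := by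
    have : (R + (l - c)) * (R - (l - c)) = R ^ 2 - (l - c) ^ 2 := by ring
    rw [this, hR2, hbdef, hWdef]
    ring
  have hdC : (d : ℂ) ≠ 0 := by exact_mod_cast hd.ne'
  have hp : R + (l - c) ≠ 0 := by
    intro h0
    rw [h0, zero_mul] at hprod
    exact hW hprod.symm
  have hm : R - (l - c) ≠ 0 := by
    intro h0
    rw [h0, mul_zero] at hprod
    exact hW hprod.symm
  have hre : d / 2 ≤ (R - (l - c)).re := by
    have h1 : (R - (l - c)).re = R.re + d - (l - (c - d)).re := by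
      simp
      ring
    have h2 := (Complex.re_le_norm (l - (c - d))).trans hl
    rw [h1]
    linarith
  have hnm : d / 2 ≤ ‖R - (l - c)‖ := hre.trans (Complex.re_le_norm _)
  have hnp : ‖R + (l - c)‖ * (d / 2) ≤ ‖W‖ := by
    rw [← hprod, norm_mul]
    exact mul_le_mul_of_nonneg_left hnm (norm_nonneg _)
  refine ⟨(R + (l - c)) / (2 * d) - (l - (c - d)) / d, ?_, ?_⟩
  · have e1 : (1 : ℂ) + ((R + (l - c)) / (2 * d) - (l - (c - d)) / d) =
        (R - (l - c)) / (2 * d) := by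
      field_simp
      ring
    have e2 : R + l - c = R + (l - c) := by ring
    rw [e1, e2, ← hprod]
    field_simp
  · refine (norm_sub_le _ _).trans ?_
    rw [norm_div, norm_div, norm_mul, Complex.norm_real, Real.norm_eq_abs, abs_of_pos hd]
    have h2 : ‖(2 : ℂ)‖ = 2 := by norm_num
    rw [h2]
    have h3 : ‖R + (l - c)‖ / (2 * d) ≤ ‖W‖ / d ^ 2 := by
      rw [div_le_div_iff₀ (by positivity) (by positivity)]
      nlinarith [mul_le_mul_of_nonneg_right hnp hd.le]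
    linarith


end Pool.Agent.Helper401.ENV.A2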