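import Mathlib
import Pool.Agent.Helper401.ENV.Defs

set_option autoImplicit false
namespace Pool.Agent.Helper401.ENV.B1
open Complex Set Metric Filter Topology
open scoped ContDiff

/-- the helix -/
noncomputable def h399e (om : ℝ) (M : ℕ) (t : ℝ) : ℂ :=
  Complex.exp (I * (M * Real.arctan (om * t / M)))

lemma h399e_contDiff (om : ℝ) (M : ℕ) : ContDiff ℝ ∞ (h399e om M) := by
  unfold h399e
  have h1 : ContDiff ℝ ∞ (fun t : ℝ => Real.arctan (om * t / M)) :=
    ContDiff.arctan ((contDiff_const.mul contDiff_id).div_const _)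
  have h2 : ContDiff ℝ ∞ (fun t : ℝ => ((Real.arctan (om * t / M) : ℝ) : ℂ)) :=
    Complex.ofRealCLM.contDiff.comp h1
  exact (contDiff_const.mul (contDiff_const.mul h2)).cexp

/-- the first factor -/
noncomputable def h399P1 (q : ℂ × ℂ × ℝ) : ℝ := ‖q.1‖ ^ 2 + ‖q.2.1 - 1‖ ^ 2

/-- the second factor -/
noncomputable def h399P2 (lam0 om : ℝ) (M : ℕ) (q : ℂ × ℂ × ℝ) : ℝ :=
  (q.2.2 - lam0) ^ 2 + (q.1.im) ^ 2 + ‖q.2.1 - h399e om M q.1.re‖ ^ 2

lemma h399P1_contDiff : ContDiff ℝ ∞ h399P1 := by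
  unfold h399P1
  refine (ContDiff.norm_sq ℝ contDiff_fst).add (ContDiff.norm_sq ℝ ?_)
  exact (contDiff_fst.comp contDiff_snd).sub contDiff_const

lemma h399P2_contDiff (lam0 om : ℝ) (M : ℕ) : ContDiff ℝ ∞ (h399P2 lam0 om M) := by
  unfold h399P2
  refine ContDiff.add (ContDiff.add ?_ ?_) (ContDiff.norm_sq ℝ ?_)
  · exact ((contDiff_snd.comp contDiff_snd).sub contDiff_const).pow 2
  · exact (Complex.imCLM.contDiff.comp contDiff_fst).pow 2
  · refine (contDiff_fst.comp contDiff_snd).sub ?_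
    exact (h399e_contDiff om M).comp (Complex.reCLM.contDiff.comp contDiff_fst)

lemma h399sq {a b : ℝ} (ha : 0 < a) (h : a < b) : a ^ 2 ≤ b ^ 2 :=
  pow_le_pow_left₀ ha.le h.le 2

lemma h399P1_lower (c1 : ℝ) (hc1 : 0 < c1) (v s : ℂ) (x : ℝ)
    (h : ¬ (‖v‖ ≤ c1 ∧ ‖s - 1‖ ≤ 1 / 10)) :
    min (c1 ^ 2) (1 / 100) ≤ h399P1 (v, s, x) := by
  unfold h399P1
  simp only
  by_cases hv : ‖v‖ ≤ c1
  · have hs : 1 / 10 < ‖s - 1‖ := by
      by_contra hcon
      push Not at hcon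
      exact h ⟨hv, hcon⟩
    refine (min_le_right _ _).trans ?_
    have h1 := h399sq (by norm_num) hs
    have h2 : 0 ≤ ‖v‖ ^ 2 := by positivity
    norm_num at h1 ⊢
    linarith
  · push Not at hv
    refine (min_le_left _ _).trans ?_
    have h1 := h399sq hc1 hv
    have h2 : 0 ≤ ‖s - 1‖ ^ 2 := by positivity
    linarith

lemma h399P2_lower (lam0 om : ℝ) (M : ℕ) (c1 r' : ℝ) (hc1 : 0 < c1) (hr : 0 < r') (v s : ℂ)
    (x : ℝ) (hv : ‖v‖ ≤ 3)
    (h : ¬ (|x - lam0| ≤ r' ∧ ∃ t : ℝ, |t| ≤ 3 ∧ ‖v - t‖ ≤ c1 ∧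
          ‖s - h399e om M t‖ ≤ 1 / 10)) :
    min (r' ^ 2) (min (c1 ^ 2) (1 / 100)) ≤ h399P2 lam0 om M (v, s, x) := by
  unfold h399P2
  simp only
  have p1 : 0 ≤ (x - lam0) ^ 2 := sq_nonneg _
  have p2 : 0 ≤ v.im ^ 2 := sq_nonneg _
  have p3 : 0 ≤ ‖s - h399e om M v.re‖ ^ 2 := by positivity
  by_cases hx : |x - lam0| ≤ r'
  · have h2 : ¬ (‖v - (v.re : ℂ)‖ ≤ c1 ∧ ‖s - h399e om M v.re‖ ≤ 1 / 10) := by
      intro h3
      exact h ⟨hx, v.re, (Complex.abs_re_le_norm v).trans hv, h3.1, h3.2⟩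
    have h4 : ‖v - (v.re : ℂ)‖ = |v.im| := by
      have : v - (v.re : ℂ) = v.im * I := by
        apply Complex.ext <;> simp
      rw [this, norm_mul, Complex.norm_I, mul_one, Complex.norm_real, Real.norm_eq_abs]
    rw [h4] at h2
    refine (min_le_right _ _).trans ?_
    by_cases hi : |v.im| ≤ c1
    · have hs : 1 / 10 < ‖s - h399e om M v.re‖ := by
        by_contra hcon
        push Not at hcon
        exact h2 ⟨hi, hcon⟩
      refine (min_le_right _ _).trans ?_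
      have h5 := h399sq (by norm_num) hs
      norm_num at h5 ⊢
      linarith
    · push Not at hi
      refine (min_le_left _ _).trans ?_
      have h5 := h399sq hc1 hi
      rw [sq_abs] at h5
      linarith
  · push Not at hx
    refine (min_le_left _ _).trans ?_
    have h5 := h399sq hr hx
    rw [sq_abs] at h5
    linarith

theorem exists_bump (lam0 ρ r' om A : ℝ) (M : ℕ) (h0 : 0 < lam0) (hρ : 0 < ρ) (hr : 0 < r')
    (hom : 1 ≤ om) (hA : 0 < A) (hM : 0 < M) :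
    ∃ b : ℂ × ℂ × ℝ → ℝ, ContDiff ℝ ∞ b ∧ HasCompactSupport b ∧ (∀ q, 0 ≤ b q) ∧
      (∀ v s x, 2 * ρ ≤ |x - lam0| → b (v, s, x) = 0) ∧
      (∀ x, b (0, 1, x) = 0) ∧
      (∀ t : ℝ, b ((t : ℂ), Complex.exp (I * (M * Real.arctan (om * t / M))), lam0) = 0) ∧
      ∀ v s x, |x - lam0| ≤ ρ → ‖v‖ ≤ 3 → ‖s‖ ≤ 3 → b (v, s, x) < A + 1 →
        (‖v‖ ≤ 1 / (50 * om) ∧ ‖s - 1‖ ≤ 1 / 10) ∨
        (|x - lam0| ≤ r' ∧ ∃ t : ℝ, |t| ≤ 3 ∧ ‖v - t‖ ≤ 1 / (50 * om) ∧
          ‖s - Complex.exp (I * (M * Real.arctan (om * t / M)))‖ ≤ 1 / 10) := by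
  have hc1 : 0 < 1 / (50 * om) := by positivity
  let χ : ContDiffBump lam0 := ⟨ρ, 2 * ρ, hρ, by linarith⟩
  let ψ : ContDiffBump (0 : ℂ × ℂ) := ⟨3, 4, by norm_num, by norm_num⟩
  set a1 : ℝ := min ((1 / (50 * om)) ^ 2) (1 / 100) with ha1
  set a2 : ℝ := min (r' ^ 2) (min ((1 / (50 * om)) ^ 2) (1 / 100)) with ha2
  have ha1p : 0 < a1 := lt_min (by positivity) (by norm_num)
  have ha2p : 0 < a2 := lt_min (by positivity) ha1p
  set K : ℝ := (A + 1) / (a1 * a2) with hK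
  have hKp : 0 < K := by positivity
  have hP1n : ∀ q, 0 ≤ h399P1 q := fun q => by unfold h399P1; positivity
  have hP2n : ∀ q, 0 ≤ h399P2 lam0 om M q := fun q => by unfold h399P2; positivity
  refine ⟨fun q => ψ (q.1, q.2.1) * χ q.2.2 * K * h399P1 q * h399P2 lam0 om M q,
    ?_, ?_, ?_, ?_, ?_, ?_, ?_⟩
  · refine ContDiff.mul (ContDiff.mul (ContDiff.mul (ContDiff.mul ?_ ?_) contDiff_const)
      h399P1_contDiff) (h399P2_contDiff lam0 om M)
    · exact ψ.contDiff.comp (contDiff_fst.prodMk (contDiff_fst.comp contDiff_snd))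
    · exact χ.contDiff.comp (contDiff_snd.comp contDiff_snd)
  · refine HasCompactSupport.intro (K := closedBall (0:ℂ) 4 ×ˢ (closedBall (0:ℂ) 4 ×ˢ
      closedBall lam0 (2 * ρ))) ?_ ?_
    · exact (isCompact_closedBall _ _).prod
        ((isCompact_closedBall _ _).prod (isCompact_closedBall _ _))
    · rintro ⟨v, s, x⟩ hq
      show ψ (v, s) * χ x * K * h399P1 (v, s, x) * h399P2 lam0 om M (v, s, x) = 0
      by_cases hx : x ∈ closedBall lam0 (2 * ρ)
      · have hψ : ψ (v, s) = 0 := by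
          apply ψ.zero_of_le_dist
          show (4 : ℝ) ≤ dist (v, s) 0
          rw [dist_zero_right]
          by_contra hcon
          push Not at hcon
          apply hq
          have h1 : ‖v‖ ≤ ‖((v, s) : ℂ × ℂ)‖ := norm_fst_le (v, s)
          have h2 : ‖s‖ ≤ ‖((v, s) : ℂ × ℂ)‖ := norm_snd_le (v, s)
          refine ⟨?_, ?_, hx⟩
          · rw [mem_closedBall, dist_zero_right]
            exact h1.trans hcon.le
          · show s ∈ closedBall (0:ℂ) 4
            rw [mem_closedBall, dist_zero_right]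
            exact h2.trans hcon.le
        rw [hψ]; ring
      · have hχ : χ x = 0 := by
          apply χ.zero_of_le_dist
          rw [mem_closedBall] at hx
          push Not at hx
          exact hx.le
        rw [hχ]; ring
  · intro q
    have k1 : 0 ≤ ψ (q.1, q.2.1) := ψ.nonneg
    have k2 : 0 ≤ χ q.2.2 := χ.nonneg
    exact mul_nonneg (mul_nonneg (mul_nonneg (mul_nonneg k1 k2) hKp.le) (hP1n q)) (hP2n q)
  · intro v s x hx
    have hχ : χ x = 0 := by
      apply χ.zero_of_le_dist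
      rw [Real.dist_eq]
      exact hx
    show ψ (v, s) * χ x * K * h399P1 (v, s, x) * h399P2 lam0 om M (v, s, x) = 0
    rw [hχ]; ring
  · intro x
    have hz : h399P1 (0, 1, x) = 0 := by
      unfold h399P1
      simp
    show ψ (0, 1) * χ x * K * h399P1 (0, 1, x) * h399P2 lam0 om M (0, 1, x) = 0
    rw [hz]; ring
  · intro t
    have hz : h399P2 lam0 om M ((t : ℂ), h399e om M t, lam0) = 0 := by
      unfold h399P2
      simp
    show ψ ((t : ℂ), h399e om M t) * χ lam0 * K * h399P1 ((t : ℂ), h399e om M t, lam0) *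
      h399P2 lam0 om M ((t : ℂ), h399e om M t, lam0) = 0
    rw [hz]; ring
  · intro v s x hx hv hs hb
    by_contra hcon
    rw [not_or] at hcon
    have q1 := h399P1_lower _ hc1 v s x hcon.1
    have q2 := h399P2_lower lam0 om M _ r' hc1 hr v s x hv hcon.2
    have hψ : ψ (v, s) = 1 := by
      apply ψ.one_of_mem_closedBall
      rw [mem_closedBall, dist_zero_right]
      exact max_le hv hs
    have hχ : χ x = 1 := by
      apply χ.one_of_mem_closedBall
      rw [mem_closedBall, Real.dist_eq]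
      exact hx
    have hb' : ψ (v, s) * χ x * K * h399P1 (v, s, x) * h399P2 lam0 om M (v, s, x) < A + 1 := hb
    rw [hψ, hχ, one_mul, one_mul] at hb'
    have h5 : K * (a1 * a2) = A + 1 := by
      rw [hK]
      field_simp
    have h6 : a1 * a2 ≤ h399P1 (v, s, x) * h399P2 lam0 om M (v, s, x) :=
      mul_le_mul q1 q2 ha2p.le (hP1n _)
    have h7 : K * (a1 * a2) ≤ K * (h399P1 (v, s, x) * h399P2 lam0 om M (v, s, x)) :=
      mul_le_mul_of_nonneg_left h6 hKp.le
    rw [h5, ← mul_assoc] at h7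
    exact absurd hb' (not_lt.2 h7)

end Pool.Agent.Helper401.ENV.B1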