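import Mathlib
import Pool.Agent.Helper401.ENV.Defs

set_option autoImplicit false
namespace Pool.Agent.Helper401.ENV.B2
open Set Metric Filter Topology
open scoped ContDiff

theorem b2_geo (K : ℝ) : Summable (fun j : ℕ => K * (1 / 2 : ℝ) ^ j) :=
  (summable_geometric_of_lt_one (by norm_num) (by norm_num)).mul_left K

theorem b2_geo_sum (K : ℝ) : ∑' j : ℕ, K * (1 / 2 : ℝ) ^ j = K * 2 := by
  rw [tsum_mul_left, tsum_geometric_of_lt_one (by norm_num) (by norm_num)]
  norm_num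

theorem exists_sum {W : Type} [NormedAddCommGroup W] [NormedSpace ℝ W] [FiniteDimensional ℝ W]
    (b : ℕ → W → ℝ) (hb : ∀ j, ContDiff ℝ ∞ (b j)) (hc : ∀ j, HasCompactSupport (b j))
    (hb0 : ∀ j q, 0 ≤ b j q)
    (th : ℕ → ℝ) (hth : ∀ j, 0 < th j) (κ : ℝ) (hκ : 0 < κ) :
    ∃ ε : ℕ → ℝ, (∀ j, 0 < ε j ∧ ε j ≤ th j) ∧
      (∀ q, Summable fun j => ε j * b j q) ∧
      ContDiff ℝ ∞ (fun q => ∑' j, ε j * b j q) ∧
      (∀ q, ‖fderiv ℝ (fun q => ∑' j, ε j * b j q) q‖ ≤ κ) ∧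
      (∀ q, ∑' j, ε j * b j q ≤ κ) := by
  -- bounds of the derivatives
  have hbd : ∀ j k : ℕ, ∃ C : ℝ, 0 ≤ C ∧ ∀ x, ‖iteratedFDeriv ℝ k (b j) x‖ ≤ C := by
    intro j k
    obtain ⟨C, hC⟩ := ((hc j).iteratedFDeriv (𝕜 := ℝ) k).exists_bound_of_continuous
      ((hb j).continuous_iteratedFDeriv (by exact_mod_cast le_top))
    exact ⟨C, (norm_nonneg _).trans (hC 0), hC⟩
  choose C0 hC00 hC0 using hbd
  set C : ℕ → ℝ := fun j => 1 + ∑ k ∈ Finset.range (j + 2), C0 j k with hCdef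
  have hC1 : ∀ j, 1 ≤ C j := by
    intro j
    have : 0 ≤ ∑ k ∈ Finset.range (j + 2), C0 j k := Finset.sum_nonneg (fun k _ => hC00 j k)
    show 1 ≤ 1 + ∑ k ∈ Finset.range (j + 2), C0 j k
    linarith
  have hCle : ∀ j k, k < j + 2 → ∀ x, ‖iteratedFDeriv ℝ k (b j) x‖ ≤ C j := by
    intro j k hk x
    refine (hC0 j k x).trans ?_
    have h1 : C0 j k ≤ ∑ k ∈ Finset.range (j + 2), C0 j k :=
      Finset.single_le_sum (fun k _ => hC00 j k) (Finset.mem_range.mpr hk)
    show C0 j k ≤ 1 + ∑ k ∈ Finset.range (j + 2), C0 j k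
    linarith
  set m := min κ 1 with hm
  have hm0 : 0 < m := lt_min hκ one_pos
  have hmκ : m ≤ κ := min_le_left _ _
  set ε : ℕ → ℝ := fun j => min (th j) (m / 4 * (1 / 2 : ℝ) ^ j / C j) with hε
  have hεp : ∀ j, 0 < ε j := by
    intro j
    have := hC1 j
    apply lt_min (hth j)
    positivity
  have hεC : ∀ j, ε j * C j ≤ m / 4 * (1 / 2 : ℝ) ^ j := by
    intro j
    have h1 : 0 < C j := by linarith [hC1 j]
    have h2 : ε j ≤ m / 4 * (1 / 2 : ℝ) ^ j / C j := min_le_right _ _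
    rw [le_div_iff₀ h1] at h2
    exact h2
  have hf : ∀ j, ContDiff ℝ ∞ (fun q => ε j * b j q) := fun j => contDiff_const.mul (hb j)
  have hfd : ∀ j k, k < j + 2 → ∀ x, ‖iteratedFDeriv ℝ k (fun q => ε j * b j q) x‖
      ≤ m / 4 * (1 / 2 : ℝ) ^ j := by
    intro j k hk x
    have h1 : iteratedFDeriv ℝ k (fun q => ε j * b j q) x = ε j • iteratedFDeriv ℝ k (b j) x := by
      have h2 : (fun q => ε j * b j q) = ε j • b j := by
        funext q; rfl
      rw [h2]
      exact iteratedFDeriv_const_smul_apply (((hb j).of_le (by exact_mod_cast le_top)).contDiffAt)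
    rw [h1, norm_smul, Real.norm_eq_abs, abs_of_pos (hεp j)]
    exact (mul_le_mul_of_nonneg_left (hCle j k hk x) (hεp j).le).trans (hεC j)
  have hval : ∀ j q, ε j * b j q ≤ m / 4 * (1 / 2 : ℝ) ^ j := by
    intro j q
    have h1 := hfd j 0 (by omega) q
    rw [norm_iteratedFDeriv_zero, Real.norm_eq_abs] at h1
    exact (le_abs_self _).trans h1
  have hsum : ∀ q, Summable fun j => ε j * b j q := by
    intro q
    exact Summable.of_nonneg_of_le (fun j => mul_nonneg (hεp j).le (hb0 j q)) (fun j => hval j q)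
      (b2_geo (m / 4))
  refine ⟨ε, fun j => ⟨hεp j, min_le_left _ _⟩, hsum, ?_, ?_, ?_⟩
  · apply contDiff_tsum_of_eventually (v := fun _ j => m / 4 * (1 / 2 : ℝ) ^ j) (N := ⊤) hf
    · intro k _
      exact b2_geo (m / 4)
    · intro k _
      have h1 : {j : ℕ | ¬ k < j + 2}.Finite :=
        (Set.finite_lt_nat (k + 1)).subset (fun j hj => by
          simp only [Set.mem_ofPred_eq, not_lt] at hj ⊢
          omega)
      have h2 : {j : ℕ | k < j + 2} ∈ (cofinite : Filter ℕ) := by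
        rw [mem_cofinite]; exact h1
      filter_upwards [h2] with j hj
      exact fun x => hfd j k hj x
  · intro q
    have h1 := fderiv_tsum_apply (𝕜 := ℝ) (f := fun j q => ε j * b j q) (x₀ := q)
      (b2_geo (m / 4)) (fun j => (hf j).differentiable (by norm_num))
      (fun j x => by
        have h2 := hfd j 1 (by omega) x
        rw [norm_iteratedFDeriv_one] at h2
        exact h2) (hsum q) q
    rw [h1]
    have h3 : ‖∑' j, fderiv ℝ (fun q => ε j * b j q) q‖ ≤ m / 4 * 2 := by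
      apply tsum_of_norm_bounded (g := fun j : ℕ => m / 4 * (1 / 2 : ℝ) ^ j)
      · have := (b2_geo (m / 4)).hasSum
        rwa [b2_geo_sum] at this
      · intro j
        have h2 := hfd j 1 (by omega) q
        rw [norm_iteratedFDeriv_one] at h2
        exact h2
    linarith
  · intro q
    have h1 := (hsum q).tsum_le_tsum (fun j => hval j q) (b2_geo (m / 4))
    rw [b2_geo_sum] at h1
    linarith

/-! ### the trunk -/

theorem b2_iter (n : ℕ) : ∃ p : Polynomial ℝ,
    iteratedDeriv n expNegInvGlue = fun x => p.eval x⁻¹ * expNegInvGlue x := by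
  induction n with
  | zero => exact ⟨1, by funext x; simp⟩
  | succ n ih =>
    obtain ⟨p, hp⟩ := ih
    refine ⟨Polynomial.X ^ 2 * (p - Polynomial.derivative p), ?_⟩
    rw [iteratedDeriv_succ, hp]
    funext x
    exact (expNegInvGlue.hasDerivAt_polynomial_eval_inv_mul p x).deriv

theorem b2_poly (p : Polynomial ℝ) : ∃ D : ℝ, ∀ x : ℝ, |p.eval x⁻¹ * expNegInvGlue x| ≤ D := by
  induction p using Polynomial.induction_on' with
  | add p q hp hq =>
    obtain ⟨D1, h1⟩ := hp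
    obtain ⟨D2, h2⟩ := hq
    refine ⟨D1 + D2, fun x => ?_⟩
    rw [Polynomial.eval_add, add_mul]
    exact (abs_add_le _ _).trans (add_le_add (h1 x) (h2 x))
  | monomial n a =>
    refine ⟨|a| * n.factorial, fun x => ?_⟩
    rcases le_or_gt x 0 with hx | hx
    · rw [expNegInvGlue.zero_of_nonpos hx, mul_zero, abs_zero]
      positivity
    · have hE : expNegInvGlue x = Real.exp (-x⁻¹) := by
        unfold expNegInvGlue
        rw [if_neg (not_le.mpr hx)]
      have hy : 0 ≤ x⁻¹ := (inv_pos.mpr hx).le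
      rw [Polynomial.eval_monomial, hE, mul_assoc, abs_mul]
      apply mul_le_mul_of_nonneg_left _ (abs_nonneg a)
      rw [abs_of_nonneg (by positivity), Real.exp_neg, ← div_eq_mul_inv,
        div_le_iff₀ (Real.exp_pos _)]
      have h1 := Real.pow_div_factorial_le_exp x⁻¹ hy n
      rw [div_le_iff₀ (by positivity)] at h1
      linarith

theorem b2_fbd (n : ℕ) : ∃ D : ℝ, ∀ x : ℝ, ‖iteratedFDeriv ℝ n expNegInvGlue x‖ ≤ D := by
  obtain ⟨p, hp⟩ := b2_iter n
  obtain ⟨D, hD⟩ := b2_poly p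
  refine ⟨D, fun x => ?_⟩
  rw [norm_iteratedFDeriv_eq_norm_iteratedDeriv, hp]
  exact hD x

theorem b2_E_pos {x : ℝ} (hx : 0 < x) : expNegInvGlue x = Real.exp (-x⁻¹) := by
  unfold expNegInvGlue
  rw [if_neg (not_le.mpr hx)]

theorem b2_exp_sq {y : ℝ} (hy : 0 ≤ y) : y ^ 2 * Real.exp (-y) ≤ 2 := by
  rw [Real.exp_neg, ← div_eq_mul_inv, div_le_iff₀ (Real.exp_pos _)]
  have h1 := Real.pow_div_factorial_le_exp y hy 2
  rw [div_le_iff₀ (by positivity)] at h1
  norm_num at h1
  linarith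

theorem b2_E_nonneg (x : ℝ) : 0 ≤ expNegInvGlue x := expNegInvGlue.nonneg x

theorem b2_E_le_one (x : ℝ) : expNegInvGlue x ≤ 1 := by
  rcases le_or_gt x 0 with hx | hx
  · rw [expNegInvGlue.zero_of_nonpos hx]; exact zero_le_one
  · rw [b2_E_pos hx, Real.exp_le_one_iff]
    have := inv_pos.mpr hx
    linarith

theorem b2_E_sq (x : ℝ) : expNegInvGlue x ≤ 2 * (max x 0) ^ 2 := by
  rcases le_or_gt x 0 with hx | hx
  · rw [expNegInvGlue.zero_of_nonpos hx]; positivity
  · rw [max_eq_left hx.le, b2_E_pos hx]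
    have h1 := b2_exp_sq (inv_pos.mpr hx).le
    rw [inv_pow, inv_mul_le_iff₀ (by positivity)] at h1
    linarith

/-- derivative of the profile -/
noncomputable def b2_D (x : ℝ) : ℝ := x⁻¹ ^ 2 * expNegInvGlue x

theorem b2_hasDeriv (x : ℝ) : HasDerivAt expNegInvGlue (b2_D x) x := by
  have h := expNegInvGlue.hasDerivAt_polynomial_eval_inv_mul 1 x
  simp only [Polynomial.eval_one, one_mul, Polynomial.derivative_one, sub_zero, mul_one,
    Polynomial.eval_pow, Polynomial.eval_X] at h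
  exact h

theorem b2_D_nonneg (x : ℝ) : 0 ≤ b2_D x := mul_nonneg (by positivity) (b2_E_nonneg x)

theorem b2_D_le (x : ℝ) : b2_D x ≤ 2 := by
  unfold b2_D
  rcases le_or_gt x 0 with hx | hx
  · rw [expNegInvGlue.zero_of_nonpos hx]; norm_num
  · rw [b2_E_pos hx]
    exact b2_exp_sq (inv_pos.mpr hx).le

theorem b2_D_pos {x : ℝ} (hx : 0 < x) : 0 < b2_D x := by
  unfold b2_D
  have := expNegInvGlue.pos_of_pos hx
  positivity

theorem b2_D_le_E {x : ℝ} (hx : 1 ≤ x) : b2_D x ≤ expNegInvGlue x := by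
  unfold b2_D
  have h1 : x⁻¹ ^ 2 ≤ 1 := by
    apply pow_le_one₀ (by positivity)
    exact inv_le_one_of_one_le₀ hx
  exact mul_le_of_le_one_left (b2_E_nonneg x) h1

/-- the trunk profile -/
theorem exists_trunk (ε : ℕ → ℝ) (hε : ∀ j, 0 < ε j) :
    ∃ eT : ℝ → ℝ, ContDiff ℝ ∞ eT ∧ (∀ x, x ≤ 0 → eT x = 0) ∧ (∀ x, 0 < x → 0 < eT x) ∧
      (∀ x, 0 ≤ eT x ∧ eT x ≤ 1 / 2000) ∧
      (∀ (j : ℕ) (x : ℝ), eT x ≤ (ε j + (max (x - 3 / 8 * (1 / 2) ^ j) 0) ^ 2) / 4) ∧
      (∀ x, 0 ≤ deriv eT x ∧ deriv eT x ≤ 1 / 1000) ∧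
      (∀ x, 1 / 2 ≤ x → 0 < deriv eT x) ∧
      (∀ x, 19 / 10 ≤ x → deriv eT x ≤ eT x) := by
  have hne : ∀ k : ℕ, (Finset.range (k + 1)).Nonempty := fun k => ⟨0, by simp⟩
  set m : ℕ → ℝ := fun k => (Finset.range (k + 1)).inf' (hne k) (fun i => min 1 (ε i)) with hm
  have hm0 : ∀ k, 0 < m k := by
    intro k
    show 0 < (Finset.range (k + 1)).inf' (hne k) (fun i => min 1 (ε i))
    rw [Finset.lt_inf'_iff]
    intro i _
    exact lt_min one_pos (hε i)
  have hm1 : ∀ k, m k ≤ 1 := by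
    intro k
    exact (Finset.inf'_le (s := Finset.range (k + 1)) (fun i => min 1 (ε i))
      (Finset.mem_range.mpr (Nat.succ_pos k))).trans (min_le_left _ _)
  have hmε : ∀ j k, j ≤ k → m k ≤ ε j := by
    intro j k hjk
    exact (Finset.inf'_le (s := Finset.range (k + 1)) (fun i => min 1 (ε i))
      (Finset.mem_range.mpr (Nat.lt_succ_of_le hjk))).trans (min_le_right _ _)
  set η : ℕ → ℝ := fun k => (1 / 4096) * (1 / 2 : ℝ) ^ k * m k with hη
  have hη0 : ∀ k, 0 < η k := by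
    intro k
    have := hm0 k
    show 0 < (1 / 4096) * (1 / 2 : ℝ) ^ k * m k
    positivity
  have hη1 : ∀ k, η k ≤ (1 / 4096) * (1 / 2 : ℝ) ^ k := by
    intro k
    exact mul_le_of_le_one_right (by positivity) (hm1 k)
  set c : ℕ → ℝ := fun k => 3 / 8 * (1 / 2 : ℝ) ^ k with hc
  have hc0 : ∀ k, 0 < c k := by
    intro k
    show 0 < 3 / 8 * (1 / 2 : ℝ) ^ k
    positivity
  have hcanti : ∀ j k, j ≤ k → c k ≤ c j := by
    intro j k hjk
    show 3 / 8 * (1 / 2 : ℝ) ^ k ≤ 3 / 8 * (1 / 2 : ℝ) ^ j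
    have : (1 / 2 : ℝ) ^ k ≤ (1 / 2 : ℝ) ^ j :=
      pow_le_pow_of_le_one (by norm_num) (by norm_num) hjk
    linarith
  have hc1 : ∀ k, c (k + 1) ≤ 3 / 16 := by
    intro k
    have h1 := hcanti 1 (k + 1) (by omega)
    have h2 : c 1 = 3 / 16 := by
      show 3 / 8 * (1 / 2 : ℝ) ^ 1 = 3 / 16
      norm_num
    exact h1.trans h2.le
  set f : ℕ → ℝ → ℝ := fun k x => η k * expNegInvGlue (x - c (k + 1)) with hf
  have hf0 : ∀ k x, 0 ≤ f k x := fun k x => mul_nonneg (hη0 k).le (b2_E_nonneg _)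
  have hfle : ∀ k x, f k x ≤ (1 / 4096) * (1 / 2 : ℝ) ^ k := by
    intro k x
    exact (mul_le_of_le_one_right (hη0 k).le (b2_E_le_one _)).trans (hη1 k)
  have hfs : ∀ x, Summable (fun k => f k x) := fun x =>
    Summable.of_nonneg_of_le (fun k => hf0 k x) (fun k => hfle k x) (b2_geo (1 / 4096))
  have hηs : Summable η :=
    Summable.of_nonneg_of_le (fun k => (hη0 k).le) hη1 (b2_geo (1 / 4096))
  have hfd : ∀ k x, HasDerivAt (f k) (η k * b2_D (x - c (k + 1))) x := by
    intro k x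
    have h1 := (b2_hasDeriv (x - c (k + 1))).comp_sub_const x (c (k + 1))
    exact h1.const_mul (η k)
  have hder : ∀ x, HasDerivAt (fun x => ∑' k, f k x) (∑' k, η k * b2_D (x - c (k + 1))) x := by
    intro x
    apply hasDerivAt_tsum (u := fun k : ℕ => (1 / 2048) * (1 / 2 : ℝ) ^ k) (b2_geo (1 / 2048))
      (fun k y => hfd k y) _ (hfs x)
    intro k y
    rw [Real.norm_eq_abs, abs_of_nonneg (mul_nonneg (hη0 k).le (b2_D_nonneg _))]
    have h1 := mul_le_mul (hη1 k) (b2_D_le (y - c (k + 1))) (b2_D_nonneg _) (by positivity)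
    refine h1.trans (le_of_eq ?_)
    ring
  have hds : ∀ x, Summable (fun k => η k * b2_D (x - c (k + 1))) := by
    intro x
    refine Summable.of_nonneg_of_le (fun k => mul_nonneg (hη0 k).le (b2_D_nonneg _))
      (fun k => ?_) (b2_geo (1 / 2048))
    have h1 := mul_le_mul (hη1 k) (b2_D_le (x - c (k + 1))) (b2_D_nonneg _) (by positivity)
    refine h1.trans (le_of_eq ?_)
    ring
  refine ⟨fun x => ∑' k, f k x, ?_, ?_, ?_, ?_, ?_, ?_, ?_, ?_⟩
  · choose D hD using b2_fbd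
    apply contDiff_tsum (v := fun n k => η k * D n) (N := ⊤)
    · intro k
      exact contDiff_const.mul (expNegInvGlue.contDiff.comp (contDiff_id.sub contDiff_const))
    · intro n _
      exact hηs.mul_right (D n)
    · intro n k x _
      have h1 : iteratedFDeriv ℝ n (f k) x = η k • iteratedFDeriv ℝ n
          (fun z => expNegInvGlue (z - c (k + 1))) x := by
        have h2 : f k = η k • (fun z => expNegInvGlue (z - c (k + 1))) := by
          funext q; rfl
        rw [h2]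
        apply iteratedFDeriv_const_smul_apply
        have h3 : ContDiff ℝ n (fun z : ℝ => expNegInvGlue (z - c (k + 1))) :=
          expNegInvGlue.contDiff.comp (contDiff_id.sub contDiff_const)
        exact h3.contDiffAt
      rw [h1, iteratedFDeriv_comp_sub, norm_smul, Real.norm_eq_abs, abs_of_pos (hη0 k)]
      exact mul_le_mul_of_nonneg_left (hD n _) (hη0 k).le
  · intro x hx
    have h1 : ∀ k, f k x = 0 := by
      intro k
      show η k * expNegInvGlue (x - c (k + 1)) = 0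
      rw [expNegInvGlue.zero_of_nonpos (by have := hc0 (k + 1); linarith), mul_zero]
    show ∑' k, f k x = 0
    simp only [h1, tsum_zero]
  · intro x hx
    obtain ⟨k, hk⟩ := exists_pow_lt_of_lt_one hx (by norm_num : (1 / 2 : ℝ) < 1)
    have h1 : c (k + 1) < x := by
      have h2 : c (k + 1) ≤ (1 / 2 : ℝ) ^ k := by
        show 3 / 8 * (1 / 2 : ℝ) ^ (k + 1) ≤ (1 / 2 : ℝ) ^ k
        rw [pow_succ]
        have : 0 < (1 / 2 : ℝ) ^ k := by positivity
        linarith
      linarith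
    exact (hfs x).tsum_pos (fun k => hf0 k x) k
      (mul_pos (hη0 k) (expNegInvGlue.pos_of_pos (by linarith)))
  · intro x
    refine ⟨tsum_nonneg (fun k => hf0 k x), ?_⟩
    have h1 := (hfs x).tsum_le_tsum (fun k => hfle k x) (b2_geo (1 / 4096))
    rw [b2_geo_sum] at h1
    linarith
  · intro j x
    set M := max (x - 3 / 8 * (1 / 2) ^ j) 0 with hM
    have hM0 : 0 ≤ M := le_max_right _ _
    have hterm : ∀ k, f k x ≤ ((1 / 4096) * (ε j + 2 * M ^ 2)) * (1 / 2 : ℝ) ^ k := by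
      intro k
      have hεj := hε j
      have hp : 0 < (1 / 2 : ℝ) ^ k := by positivity
      rcases le_or_gt j k with hjk | hjk
      · have h1 : f k x ≤ η k := mul_le_of_le_one_right (hη0 k).le (b2_E_le_one _)
        have h2 : η k ≤ (1 / 4096) * (1 / 2 : ℝ) ^ k * ε j :=
          mul_le_mul_of_nonneg_left (hmε j k hjk) (by positivity)
        have h3 : 0 ≤ (1 / 4096) * (2 * M ^ 2) * (1 / 2 : ℝ) ^ k := by positivity
        calc f k x ≤ (1 / 4096) * (1 / 2 : ℝ) ^ k * ε j := h1.trans h2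
          _ ≤ (1 / 4096) * (1 / 2 : ℝ) ^ k * ε j + (1 / 4096) * (2 * M ^ 2) * (1 / 2 : ℝ) ^ k := by
              linarith
          _ = _ := by ring
      · have h1 : expNegInvGlue (x - c (k + 1)) ≤ 2 * M ^ 2 := by
          refine (b2_E_sq _).trans ?_
          have h2 : max (x - c (k + 1)) 0 ≤ M := by
            apply max_le_max _ le_rfl
            have h3 := hcanti (k + 1) j hjk
            have h4 : c j = 3 / 8 * (1 / 2 : ℝ) ^ j := rfl
            linarith
          have h5 : (max (x - c (k + 1)) 0) ^ 2 ≤ M ^ 2 :=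
            pow_le_pow_left₀ (le_max_right _ _) h2 2
          linarith
        have h2 : f k x ≤ (1 / 4096) * (1 / 2 : ℝ) ^ k * (2 * M ^ 2) :=
          mul_le_mul (hη1 k) h1 (b2_E_nonneg _) (by positivity)
        have h3 : 0 ≤ (1 / 4096) * ε j * (1 / 2 : ℝ) ^ k := by positivity
        calc f k x ≤ (1 / 4096) * (1 / 2 : ℝ) ^ k * (2 * M ^ 2) := h2
          _ ≤ (1 / 4096) * (1 / 2 : ℝ) ^ k * (2 * M ^ 2) + (1 / 4096) * ε j * (1 / 2 : ℝ) ^ k := by
              linarith
          _ = _ := by ring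
    have h1 := (hfs x).tsum_le_tsum hterm (b2_geo _)
    rw [b2_geo_sum] at h1
    have h2 := hε j
    have h3 : 0 ≤ M ^ 2 := by positivity
    show ∑' k, f k x ≤ (ε j + M ^ 2) / 4
    linarith
  · intro x
    rw [(hder x).deriv]
    refine ⟨tsum_nonneg (fun k => mul_nonneg (hη0 k).le (b2_D_nonneg _)), ?_⟩
    have h1 := (hds x).tsum_le_tsum (fun k => by
      have h1 := mul_le_mul (hη1 k) (b2_D_le (x - c (k + 1))) (b2_D_nonneg _) (by positivity)
      refine h1.trans (le_of_eq (b := (1 / 2048) * (1 / 2 : ℝ) ^ k) ?_)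
      ring) (b2_geo (1 / 2048))
    rw [b2_geo_sum] at h1
    linarith
  · intro x hx
    rw [(hder x).deriv]
    refine (hds x).tsum_pos (fun k => mul_nonneg (hη0 k).le (b2_D_nonneg _)) 0 ?_
    exact mul_pos (hη0 0) (b2_D_pos (sub_pos.mpr (lt_of_le_of_lt (hc1 0) (by linarith))))
  · intro x hx
    rw [(hder x).deriv]
    apply (hds x).tsum_le_tsum _ (hfs x)
    intro k
    exact mul_le_mul_of_nonneg_left (b2_D_le_E (by have := hc1 k; linarith)) (hη0 k).le

end Pool.Agent.Helper401.ENV.B2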