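import Mathlib
import Pool.Agent.Helper401.ENV.Defs

set_option autoImplicit false
namespace Pool.Agent.Helper401.ENV.B4
open Complex Set Metric Filter Topology
open scoped ContDiff

theorem core_gle (g E H eT B : ℝ) (hr : -g + 200 * g ^ 2 + E + H - eT + B = 0) (hE0 : 0 ≤ E)
    (hH : 0 ≤ H) (heT : eT ≤ 1 / 2000) (hB : 0 ≤ B) : g ≤ 55 / 10000 ∧ E + H ≤ 7 / 4000 := by
  constructor
  · by_contra h
    push Not at h
    nlinarith
  · nlinarith [sq_nonneg (1 - 400 * g)]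

theorem core_A1 (a b g κ e1 : ℝ) (ha : 0 < a) (hepos : 0 < e1) (hg : 0 ≤ g)
    (hab : a * b = g ^ 2) (hgle : g ≤ 55 / 10000)
    (hκ : 2 * e1 * b = (2 * e1 + κ) * a) (hlt : a < b) (hκ1 : 0 < κ → 1 < a) : False := by
  have h5 : 0 < κ * a := by
    have : 2 * e1 * a < 2 * e1 * b := by
      apply mul_lt_mul_of_pos_left hlt; linarith
    linarith
  have h6 : 0 < κ := by
    by_contra h
    push Not at h
    have : κ * a ≤ 0 := mul_nonpos_of_nonpos_of_nonneg h ha.le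
    linarith
  have h7 := hκ1 h6
  have h8 : 1 < a * b := by nlinarith
  have h9 : g ^ 2 ≤ (55 / 10000) ^ 2 := pow_le_pow_left₀ hg hgle 2
  norm_num at h9
  linarith

theorem core_A2 (a b g κ e1 : ℝ) (ha : 0 < a) (hb : 0 ≤ b) (hepos : 0 < e1) (hg : 0 ≤ g)
    (hab : a * b = g ^ 2) (hgle : g ≤ 55 / 10000)
    (hκ : 2 * e1 * b = (2 * e1 + κ) * a) (hle : b ≤ a) (hsum : 7 / 4 < a + b)
    (hκ1 : 1 < a → 0 ≤ κ) : False := by
  have h9 : g ^ 2 ≤ (55 / 10000) ^ 2 := pow_le_pow_left₀ hg hgle 2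
  norm_num at h9
  have h6 : 1 < a := by
    by_contra h
    push Not at h
    have h1 : 3 / 4 < b := by linarith
    have h2 : 3 / 4 < a := by linarith
    have h3 : (3 / 4 : ℝ) * (3 / 4) < a * b := mul_lt_mul'' h2 h1 (by norm_num) (by norm_num)
    linarith
  have h7 : 0 ≤ κ * a := mul_nonneg (hκ1 h6) ha.le
  have h8 : a ≤ b := by
    by_contra h
    push Not at h
    have : 2 * e1 * b < 2 * e1 * a := by
      apply mul_lt_mul_of_pos_left h; linarith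
    linarith
  have h10 : 1 * 1 < a * b := mul_lt_mul'' h6 (by linarith) (by norm_num) (by norm_num)
  linarith

theorem core_A3 (a g E e1 ρ x eT eT' : ℝ) (ha : 0 < a) (hepos : 0 < e1)
    (hga : g = a) (hg : g = (400 * a + 2 * e1) * a) (hx3 : 3 / 2 < x)
    (heE : e1 * ρ ^ 2 = E) (hρ2 : ρ ^ 2 < 1) (hr : -g + 200 * g ^ 2 + E - eT = 0)
    (x1 : 2 * x * e1 = eT') (heT : 0 ≤ eT) (heT' : eT' ≤ 1 / 1000) : False := by
  subst hga
  have h7 : 400 * g + 2 * e1 = 1 := by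
    have : (400 * g + 2 * e1 - 1) * g = 0 := by linarith
    rcases mul_eq_zero.mp this with h | h
    · linarith
    · linarith
  have h9 : 3 * e1 ≤ 1 / 1000 := by
    have : 3 * e1 ≤ 2 * x * e1 := mul_le_mul_of_nonneg_right (by linarith) hepos.le
    linarith
  have h10 : e1 * ρ ^ 2 < e1 * 1 := mul_lt_mul_of_pos_left hρ2 hepos
  have h11 : g = (1 - 2 * e1) / 400 := by linarith
  have h12 : E = g - 200 * g ^ 2 + eT := by linarith
  have h13 : g - 200 * g ^ 2 = (1 - 4 * e1 ^ 2) / 800 := by rw [h11]; ring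
  have h14 : e1 ^ 2 ≤ 1 / 1000 := by
    have h15 : e1 ^ 2 ≤ (1 / 1000) ^ 2 := pow_le_pow_left₀ hepos.le (by linarith) 2
    norm_num at h15
    linarith
  linarith

theorem core_A (a b g U V x ρ E e1 Et Et' eT eT' : ℝ)
    (ha : 0 ≤ a) (hb : 0 ≤ b)
    (hρ : ρ = a + b + U + V + x ^ 2 - 4)
    (hg : g = (400 * a + 2 * e1) * b)
    (hag : a = (400 * a + 2 * e1) * g)
    (hab : a * b = g ^ 2)
    (hg0 : 0 ≤ g)
    (hgle : g ≤ 55 / 10000)
    (hr : -g + 200 * g ^ 2 + E + 1000 * Et * (a - 1) ^ 2 - eT = 0)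
    (z1 : -g + (400 * b + 2 * e1 + 4000 * Et * (a - 1)) * a = 0)
    (u1 : 2 * e1 * U = 0)
    (s1 : 2 * e1 * V = 0)
    (x1 : 2 * x * e1 - 1000 * Et' * (a - 1) ^ 2 - eT' = 0)
    (he0 : 0 ≤ e1) (hEr : ρ ≤ 0 → E = 0 ∧ e1 = 0)
    (hEr' : 0 < ρ → 0 < e1 ∧ 0 < E ∧ e1 * ρ ^ 2 = E)
    (hρ1 : ρ < 1)
    (hEt0 : 0 ≤ Et) (hEt1 : 3 / 4 ≤ x → Et = 0 ∧ Et' = 0)
    (hEt' : 0 ≤ Et')
    (heT : 0 ≤ eT) (heT' : eT' ≤ 1 / 1000)
    (h3 : 0 < eT') (h4 : 19 / 10 ≤ x → eT' ≤ eT) (hx : 1 / 2 ≤ x) : False := by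
  rcases le_or_gt ρ 0 with hρ0 | hρ0
  · obtain ⟨_, he⟩ := hEr hρ0
    rw [he] at x1
    have h5 : 0 ≤ 1000 * Et' * (a - 1) ^ 2 := by positivity
    linarith
  · obtain ⟨hepos, hEpos, heE⟩ := hEr' hρ0
    have hU0 : U = 0 := by
      rcases mul_eq_zero.mp u1 with h | h
      · linarith
      · exact h
    have hV0 : V = 0 := by
      rcases mul_eq_zero.mp s1 with h | h
      · linarith
      · exact h
    subst hU0 hV0
    have hρ2 : ρ ^ 2 < 1 := by
      have := mul_lt_mul'' hρ1 hρ1 hρ0.le hρ0.le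
      rw [sq]; linarith
    rcases eq_or_lt_of_le ha with ha0 | ha0
    · -- a = 0
      have ha0' : a = 0 := ha0.symm
      subst ha0'
      have hg00 : g = 0 := by
        have : 2 * e1 * g = 0 := by linarith
        rcases mul_eq_zero.mp this with h | h
        · linarith
        · exact h
      have hb00 : b = 0 := by
        have : 2 * e1 * b = 0 := by rw [hg00] at hg; linarith
        rcases mul_eq_zero.mp this with h | h
        · linarith
        · exact h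
      subst hb00 hg00
      have hx2 : 2 < x := by
        by_contra h
        push Not at h
        have : x * x ≤ 2 * 2 := mul_le_mul h h (by linarith) (by norm_num)
        rw [sq] at hρ
        linarith
      obtain ⟨hEt00, hEt00'⟩ := hEt1 (by linarith)
      subst hEt00 hEt00'
      have h5 := h4 (by linarith)
      have h6 : E = eT := by linarith
      have h7 : 2 * x * e1 = eT' := by linarith
      have h8 : e1 * ρ ^ 2 < e1 * 1 := mul_lt_mul_of_pos_left hρ2 hepos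
      have h9 : 4 * e1 < 2 * x * e1 := mul_lt_mul_of_pos_right (by linarith) hepos
      linarith
    · have hκ : 2 * e1 * b = (2 * e1 + 4000 * Et * (a - 1)) * a := by linarith
      rcases lt_or_ge a b with hab1 | hab1
      · refine core_A1 a b g _ e1 ha0 hepos hg0 hab hgle hκ hab1 ?_
        intro h5
        by_contra h
        push Not at h
        have : 4000 * Et * (a - 1) ≤ 0 :=
          mul_nonpos_of_nonneg_of_nonpos (by positivity) (by linarith)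
        linarith
      · rcases le_or_gt x (3 / 2) with hx3 | hx3
        · refine core_A2 a b g _ e1 ha0 hb hepos hg0 hab hgle hκ hab1 ?_ ?_
          · have : x * x ≤ 3 / 2 * (3 / 2) := mul_le_mul hx3 hx3 (by linarith) (by norm_num)
            rw [sq] at hρ
            linarith
          · intro h
            exact mul_nonneg (by positivity) (by linarith)
        · obtain ⟨hEt00, hEt00'⟩ := hEt1 (by linarith)
          subst hEt00 hEt00'
          have h5 : b = a := by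
            have : 2 * e1 * (b - a) = 0 := by linarith
            rcases mul_eq_zero.mp this with h | h
            · linarith
            · linarith
          subst h5
          have h6 : g = b := by
            have h7 : (g - b) * (g + b) = 0 := by linarith
            rcases mul_eq_zero.mp h7 with h | h
            · linarith
            · linarith
          exact core_A3 b g E e1 ρ x eT eT' ha0 hepos h6 hg hx3 heE hρ2 (by linarith)
            (by linarith) heT heT'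

theorem core_small (e1 W c D : ℝ) (he : 62 / 100000 ≤ e1) (hc2 : c ≤ 2)
    (hD : D ^ 2 ≤ (1 / 10 ^ 8) ^ 2 * (W * c)) (h : 2 * e1 * W + D = 0) : W ≤ 1 / 1000 := by
  by_contra hW
  push Not at hW
  have h7 : D ^ 2 = 4 * e1 ^ 2 * W * W := by
    have : D = -(2 * e1 * W) := by linarith
    rw [this]; ring
  have h8 : 4 * e1 ^ 2 * W * W ≤ (1 / 10 ^ 8) ^ 2 * c * W := by rw [← h7]; linarith
  have h9 : 4 * e1 ^ 2 * W ≤ (1 / 10 ^ 8) ^ 2 * c := le_of_mul_le_mul_right h8 (by linarith)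
  have h10 : (62 / 100000) ^ 2 ≤ e1 ^ 2 := pow_le_pow_left₀ (by norm_num) he 2
  have h11 : 4 * (62 / 100000) ^ 2 * (1 / 1000) ≤ 4 * e1 ^ 2 * W := by
    apply mul_le_mul _ hW.le (by norm_num) (by positivity)
    linarith
  norm_num at h9 h11
  linarith

theorem core_B1 (a b g U V x ρ E e1 Et' eT' D1 D3 D4 : ℝ)
    (hb : 0 ≤ b) (ha1 : 99 / 100 ≤ a) (ha2 : a ≤ 101 / 100)
    (hρ : ρ = a + b + U + V + x ^ 2 - 4)
    (hab : a * b = g ^ 2) (hg0 : 0 ≤ g) (hgle : g ≤ 55 / 10000)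
    (u1 : 2 * e1 * U + D1 = 0)
    (s1 : 2 * e1 * V + D3 = 0)
    (x1 : 2 * x * e1 - 1000 * Et' * (a - 1) ^ 2 - eT' + D4 = 0)
    (he0 : 0 ≤ e1) (hρ0 : 0 < ρ) (hρ1 : ρ < 1) (heE : e1 * ρ ^ 2 = E)
    (hEt' : 0 ≤ Et') (heT' : 0 ≤ eT')
    (hD1 : D1 ^ 2 ≤ (1 / 10 ^ 8) ^ 2 * (U * a))
    (hD3 : D3 ^ 2 ≤ (1 / 10 ^ 8) ^ 2 * V) (hD4 : |D4| ≤ 1 / 10 ^ 8)
    (hx : x < 1 / 2) (hE6 : 62 / 100000 ≤ E) : False := by
  have hρ2 : ρ ^ 2 < 1 := by
    have := mul_lt_mul'' hρ1 hρ1 hρ0.le hρ0.le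
    rw [sq]; linarith
  have he6 : 62 / 100000 ≤ e1 := by
    have : e1 * ρ ^ 2 ≤ e1 * 1 := mul_le_mul_of_nonneg_left hρ2.le he0
    linarith
  have hUle : U ≤ 1 / 1000 := core_small e1 U a D1 he6 (by linarith) hD1 u1
  have hVle : V ≤ 1 / 1000 := core_small e1 V 1 D3 he6 (by linarith) (by rwa [mul_one]) s1
  have hble : b ≤ 1 / 1000 := by
    by_contra h
    push Not at h
    have h9 : g ^ 2 ≤ (55 / 10000) ^ 2 := pow_le_pow_left₀ hg0 hgle 2
    have h10 : (99 / 100) * (1 / 1000) ≤ a * b := mul_le_mul ha1 h.le (by norm_num) (by linarith)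
    norm_num at h9 h10
    linarith
  have hx2 : 29 / 10 < x ^ 2 := by linarith
  have hx3 : x < -(17 / 10) := by
    by_contra h
    push Not at h
    have : x ^ 2 ≤ (17 / 10) ^ 2 := sq_le_sq' (by linarith) (by linarith)
    norm_num at this
    linarith
  have h12 : 0 ≤ 1000 * Et' * (a - 1) ^ 2 := by positivity
  have h13 := (abs_le.mp hD4).2
  have h14 : (17 / 10) * (62 / 100000) ≤ (-x) * e1 :=
    mul_le_mul (by linarith) he6 (by norm_num) (by linarith)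
  norm_num at h13 h14
  linarith

theorem core_B2 (a b g U V x ρ e1 Et D1 : ℝ)
    (hU : 0 ≤ U) (hV : 0 ≤ V) (hb : 0 ≤ b)
    (ha1 : 1 - 98 / 10000 ≤ a) (ha2 : a ≤ 1 + 98 / 10000)
    (hρ : ρ = a + b + U + V + x ^ 2 - 4) (hρ1 : ρ < 1)
    (hab : a * b = g ^ 2) (hg0 : 0 ≤ g) (hgub : g ≤ 1 / 400)
    (z1 : -g + (400 * b + 2 * e1 + 4000 * Et * (a - 1)) * a + D1 = 0)
    (he0 : 0 ≤ e1) (he1 : e1 ≤ 91 / 1000) (hEt0 : 0 ≤ Et)
    (hD1 : D1 ^ 2 ≤ (1 / 10 ^ 8) ^ 2 * (U * a))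
    (hHz6 : 62 / 100000 ≤ 1000 * Et * (a - 1) ^ 2) : False := by
  have ha : 0 ≤ a := by linarith
  have hU5 : U ≤ 5 := by linarith [sq_nonneg x]
  have hD1s : D1 ^ 2 ≤ (1 / 10 ^ 4) ^ 2 := by
    refine hD1.trans ?_
    have : U * a ≤ 5 * 2 := mul_le_mul hU5 (by linarith) ha (by norm_num)
    norm_num
    linarith
  have hD1' := abs_le_of_sq_le_sq' hD1s (by norm_num)
  have hz : (2 * e1 + 4000 * Et * (a - 1)) * a = g - 400 * g ^ 2 - D1 := by
    rw [← hab]; linarith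
  have hg2 : g ^ 2 ≤ (1 / 400) ^ 2 := pow_le_pow_left₀ hg0 hgub 2
  have hz1 : g - 400 * g ^ 2 - D1 ≤ 26 / 10000 := by
    have := hD1'.1
    norm_num at this
    linarith [sq_nonneg g]
  have hz2 : -(26 / 10000) ≤ g - 400 * g ^ 2 - D1 := by
    have := hD1'.2
    norm_num at this hg2
    linarith
  rcases le_or_gt 1 a with ha1' | ha1'
  · have h8 : 0 ≤ 1000 * Et * (a - 1) := mul_nonneg (by positivity) (by linarith)
    have h7 : 1000 * Et * (a - 1) ^ 2 ≤ 1000 * Et * (a - 1) * (98 / 10000) := by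
      rw [sq, ← mul_assoc]
      exact mul_le_mul_of_nonneg_left (by linarith) h8
    have h9 : (2 * e1 + 4000 * Et * (a - 1)) * 1 ≤ (2 * e1 + 4000 * Et * (a - 1)) * a :=
      mul_le_mul_of_nonneg_left ha1' (by linarith)
    linarith
  · have h8 : 0 ≤ 1000 * Et * (1 - a) := mul_nonneg (by positivity) (by linarith)
    have h7 : 1000 * Et * (a - 1) ^ 2 ≤ 1000 * Et * (1 - a) * (98 / 10000) := by
      have : 1000 * Et * (a - 1) ^ 2 = 1000 * Et * (1 - a) * (1 - a) := by ring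
      rw [this]
      exact mul_le_mul_of_nonneg_left (by linarith) h8
    have h9 : 7 / 100 ≤ -(2 * e1 + 4000 * Et * (a - 1)) := by linarith
    have h10 : (7 / 100) * (99 / 100) ≤ -(2 * e1 + 4000 * Et * (a - 1)) * a :=
      mul_le_mul h9 (by linarith) (by norm_num) (by linarith)
    linarith

theorem core_B (a b g U V x ρ E e1 Et Et' eT eT' B D1 D3 D4 : ℝ)
    (ha : 0 ≤ a) (hb : 0 ≤ b) (hU : 0 ≤ U) (hV : 0 ≤ V)
    (hρ : ρ = a + b + U + V + x ^ 2 - 4)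
    (hag : a = (400 * a + 2 * e1) * g)
    (hab : a * b = g ^ 2) (hg0 : 0 ≤ g) (hgle : g ≤ 55 / 10000)
    (hr : -g + 200 * g ^ 2 + E + 1000 * Et * (a - 1) ^ 2 - eT + B = 0)
    (hEH : E + 1000 * Et * (a - 1) ^ 2 ≤ 7 / 4000)
    (z1 : -g + (400 * b + 2 * e1 + 4000 * Et * (a - 1)) * a + D1 = 0)
    (u1 : 2 * e1 * U + D1 = 0)
    (s1 : 2 * e1 * V + D3 = 0)
    (x1 : 2 * x * e1 - 1000 * Et' * (a - 1) ^ 2 - eT' + D4 = 0)
    (hE0 : 0 ≤ E) (he0 : 0 ≤ e1) (hEr : ρ ≤ 0 → E = 0 ∧ e1 = 0)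
    (hEr' : 0 < ρ → 0 < e1 ∧ 0 < E ∧ e1 * ρ ^ 2 = E)
    (hρ1 : ρ < 1) (he1 : e1 ≤ 91 / 1000)
    (hEt3 : 183 / 10000 ≤ Et)
    (hEt' : 0 ≤ Et')
    (heT : 0 ≤ eT) (heT' : 0 ≤ eT')
    (hB : B ≤ 1 / 10 ^ 6) (hD1 : D1 ^ 2 ≤ (1 / 10 ^ 8) ^ 2 * (U * a))
    (hD3 : D3 ^ 2 ≤ (1 / 10 ^ 8) ^ 2 * V) (hD4 : |D4| ≤ 1 / 10 ^ 8)
    (hx : x < 1 / 2) : False := by
  have h5 : (a - 1) ^ 2 ≤ (98 / 10000) ^ 2 := by
    have : 1000 * (183 / 10000) * (a - 1) ^ 2 ≤ 1000 * Et * (a - 1) ^ 2 := by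
      apply mul_le_mul_of_nonneg_right _ (sq_nonneg _)
      linarith
    norm_num
    linarith
  obtain ⟨h6a, h6b⟩ := abs_le_of_sq_le_sq' h5 (by norm_num)
  have hgub : g ≤ 1 / 400 := by
    by_contra h
    push Not at h
    have : (400 * a + 2 * e1) * (1 / 400) < (400 * a + 2 * e1) * g :=
      mul_lt_mul_of_pos_left h (by linarith)
    linarith
  have hglb : 24988 / 10000000 ≤ g := by
    by_contra h
    push Not at h
    have h9 : (400 * a + 2 * e1) * g ≤ (400 * a + 182 / 1000) * g :=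
      mul_le_mul_of_nonneg_right (by linarith) hg0
    have h10 : (400 * a + 182 / 1000) * g < (400 * a + 182 / 1000) * (24988 / 10000000) :=
      mul_lt_mul_of_pos_left h (by linarith)
    linarith
  have hgg : 1 / 800 - 1 / 10 ^ 8 ≤ g - 200 * g ^ 2 := by
    have h1 : (1 / 400 - g) ^ 2 ≤ (1 / 400 - 24988 / 10000000) ^ 2 :=
      pow_le_pow_left₀ (by linarith) (by linarith) 2
    have h2 : g - 200 * g ^ 2 = 1 / 800 - 200 * (1 / 400 - g) ^ 2 := by ring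
    rw [h2]
    norm_num at h1 ⊢
    linarith
  have hsum : 124 / 100000 ≤ E + 1000 * Et * (a - 1) ^ 2 := by
    norm_num at hgg hB
    linarith
  rcases le_or_gt (62 / 100000) E with hE6 | hE6
  · have hρ0 : 0 < ρ := by
      by_contra h
      push Not at h
      have := (hEr h).1
      linarith
    obtain ⟨hepos, hEpos, heE⟩ := hEr' hρ0
    exact core_B1 a b g U V x ρ E e1 Et' eT' D1 D3 D4 hb (by linarith) (by linarith) hρ hab hg0 hgle
      u1 s1 x1 he0 hρ0 hρ1 heE hEt' heT' hD1 hD3 hD4 hx hE6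
  · exact core_B2 a b g U V x ρ e1 Et D1 hU hV hb (by linarith) (by linarith) hρ hρ1 hab hg0 hgub
      z1 he0 he1 (by linarith) hD1 (by linarith)

theorem rr_core (a b g U V x y ρ E e1 Et Et' eT eT' B D1 D3 D4 : ℝ)
    (ha : 0 ≤ a) (hb : 0 ≤ b) (hU : 0 ≤ U) (hV : 0 ≤ V)
    (hρ : ρ = a + b + U + V + x ^ 2 - 4)
    (hr : -g + 200 * (a * b) + 400 * y ^ 2 + E + 1000 * Et * (a - 1) ^ 2 - eT + B = 0)
    (w1 : -g + (400 * a + 2 * e1) * b = 0)
    (w2 : a - (400 * a + 2 * e1) * g = 0)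
    (z1 : -g + (400 * b + 2 * e1 + 4000 * Et * (a - 1)) * a + D1 = 0)
    (u1 : 2 * e1 * U + D1 = 0)
    (s1 : 2 * e1 * V + D3 = 0)
    (y1 : 800 * y = 0)
    (x1 : 2 * x * e1 - 1000 * Et' * (a - 1) ^ 2 - eT' + D4 = 0)
    (hE0 : 0 ≤ E) (he0 : 0 ≤ e1) (hEr : ρ ≤ 0 → E = 0 ∧ e1 = 0)
    (hEr' : 0 < ρ → 0 < e1 ∧ 0 < E ∧ e1 * ρ ^ 2 = E)
    (hE1 : E ≤ 7 / 4000 → ρ < 1 ∧ e1 ≤ 91 / 1000)
    (hEt0 : 0 ≤ Et) (hEt1 : 3 / 4 ≤ x → Et = 0 ∧ Et' = 0) (hEt2 : x ≤ 1 / 2 → 183 / 10000 ≤ Et)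
    (hEt' : 0 ≤ Et')
    (heT : 0 ≤ eT ∧ eT ≤ 1 / 2000) (heT' : 0 ≤ eT' ∧ eT' ≤ 1 / 1000)
    (h3 : 1 / 2 ≤ x → 0 < eT') (h4 : 19 / 10 ≤ x → eT' ≤ eT)
    (hB : 0 ≤ B ∧ B ≤ 1 / 10 ^ 6) (hD1 : D1 ^ 2 ≤ (1 / 10 ^ 8) ^ 2 * (U * a))
    (hD3 : D3 ^ 2 ≤ (1 / 10 ^ 8) ^ 2 * V) (hD4 : |D4| ≤ 1 / 10 ^ 8)
    (hA : 1 / 2 ≤ x → B = 0 ∧ D1 = 0 ∧ D3 = 0 ∧ D4 = 0) : False := by
  have hy : y = 0 := by linarith
  subst hy
  have hg : g = (400 * a + 2 * e1) * b := by linarith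
  have hc0 : 0 ≤ 400 * a + 2 * e1 := by positivity
  have hg0 : 0 ≤ g := by rw [hg]; positivity
  have hag : a = (400 * a + 2 * e1) * g := by linarith
  have hab : a * b = g ^ 2 := by
    calc a * b = ((400 * a + 2 * e1) * g) * b := by rw [← hag]
      _ = g * ((400 * a + 2 * e1) * b) := by ring
      _ = g ^ 2 := by rw [← hg]; ring
  rw [hab] at hr
  have hHz : 0 ≤ 1000 * Et * (a - 1) ^ 2 := by positivity
  obtain ⟨hgle, hEH⟩ := core_gle g E (1000 * Et * (a - 1) ^ 2) eT B (by linarith) hE0 hHz heT.2 hB.1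
  obtain ⟨hρ1, he1⟩ := hE1 (by linarith)
  rcases le_or_gt (1 / 2) x with hx | hx
  · obtain ⟨hB0, hD10, hD30, hD40⟩ := hA hx
    subst hB0 hD10 hD30 hD40
    exact core_A a b g U V x ρ E e1 Et Et' eT eT' ha hb hρ hg hag hab hg0 hgle (by linarith)
      (by linarith) (by linarith) (by linarith) (by linarith) he0 hEr hEr' hρ1 hEt0 hEt1 hEt'
      heT.1 heT'.2 (h3 hx) h4 hx
  · exact core_B a b g U V x ρ E e1 Et Et' eT eT' B D1 D3 D4 ha hb hU hV hρ hag hab hg0 hgle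
      (by linarith) hEH z1 u1 s1 x1 hE0 he0 hEr hEr' hρ1 he1 (hEt2 hx.le) hEt' heT.1 heT'.1 hB.2
      hD1 hD3 hD4 hx

theorem glue_deriv (t : ℝ) :
    HasDerivAt expNegInvGlue ((t⁻¹) ^ 2 * expNegInvGlue t) t := by
  have h := expNegInvGlue.hasDerivAt_polynomial_eval_inv_mul 1 t
  simpa using h

theorem glue_facts (ρ : ℝ) :
    0 ≤ expNegInvGlue ρ ∧ 0 ≤ (ρ⁻¹) ^ 2 * expNegInvGlue ρ ∧
    (ρ ≤ 0 → expNegInvGlue ρ = 0 ∧ (ρ⁻¹) ^ 2 * expNegInvGlue ρ = 0) ∧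
    (0 < ρ → 0 < (ρ⁻¹) ^ 2 * expNegInvGlue ρ ∧ 0 < expNegInvGlue ρ ∧
      (ρ⁻¹) ^ 2 * expNegInvGlue ρ * ρ ^ 2 = expNegInvGlue ρ) ∧
    (expNegInvGlue ρ ≤ 7 / 4000 → ρ < 1 ∧ (ρ⁻¹) ^ 2 * expNegInvGlue ρ ≤ 91 / 1000) := by
  have h0 : 0 ≤ expNegInvGlue ρ := expNegInvGlue.nonneg ρ
  refine ⟨h0, by positivity, ?_, ?_, ?_⟩
  · intro h
    rw [expNegInvGlue.zero_of_nonpos h]
    simp
  · intro h
    have h1 := expNegInvGlue.pos_of_pos h
    refine ⟨by positivity, h1, ?_⟩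
    field_simp
  · intro h
    rcases le_or_gt ρ 0 with hρ | hρ
    · rw [expNegInvGlue.zero_of_nonpos hρ]
      constructor
      · linarith
      · simp
        norm_num
    · have hE : expNegInvGlue ρ = Real.exp (-ρ⁻¹) := by
        unfold expNegInvGlue
        rw [if_neg (not_le.mpr hρ)]
      rw [hE] at h ⊢
      have he1 := Real.exp_neg_one_lt_d9
      have he2 := Real.exp_neg_one_gt_d9
      constructor
      · by_contra h1
        push Not at h1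
        have h2 : Real.exp (-1) ≤ Real.exp (-ρ⁻¹) := by
          apply Real.exp_le_exp.mpr
          have : ρ⁻¹ ≤ 1 := inv_le_one_of_one_le₀ h1
          linarith
        linarith
      · set y := ρ⁻¹ with hy
        have hy0 : 0 < y := inv_pos.mpr hρ
        have h3 : y * Real.exp (-(y / 4)) ≤ 4 * Real.exp (-1) := by
          have h4 := Real.add_one_le_exp (y / 4 - 1)
          have h5 : Real.exp (y / 4 - 1) = Real.exp (-1) * Real.exp (y / 4) := by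
            rw [← Real.exp_add]; congr 1; ring
          have h6 : Real.exp (y / 4) * Real.exp (-(y / 4)) = 1 := by
            rw [← Real.exp_add]; simp
          have h7 : y ≤ 4 * (Real.exp (-1) * Real.exp (y / 4)) := by rw [← h5]; linarith
          calc y * Real.exp (-(y / 4)) ≤ 4 * (Real.exp (-1) * Real.exp (y / 4)) *
                Real.exp (-(y / 4)) := mul_le_mul_of_nonneg_right h7 (Real.exp_nonneg _)
            _ = 4 * Real.exp (-1) * (Real.exp (y / 4) * Real.exp (-(y / 4))) := by ring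
            _ = 4 * Real.exp (-1) := by rw [h6, mul_one]
        have h8 : Real.exp (-(y / 2)) ≤ 419 / 10000 := by
          apply le_of_sq_le_sq _ (by norm_num)
          have : Real.exp (-(y / 2)) ^ 2 = Real.exp (-y) := by
            rw [sq, ← Real.exp_add]; congr 1; ring
          rw [this]
          norm_num
          linarith
        have h9 : (y * Real.exp (-(y / 4))) ^ 2 ≤ (4 * (3679 / 10000)) ^ 2 := by
          apply pow_le_pow_left₀ (by positivity)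
          linarith
        have h10 : y ^ 2 * Real.exp (-y) = (y * Real.exp (-(y / 4))) ^ 2 * Real.exp (-(y / 2)) := by
          rw [mul_pow, mul_assoc]
          congr 1
          rw [sq, ← Real.exp_add, ← Real.exp_add]; congr 1; ring
        rw [h10]
        calc _ ≤ (4 * (3679 / 10000)) ^ 2 * (419 / 10000 : ℝ) :=
              mul_le_mul h9 h8 (Real.exp_nonneg _) (by positivity)
          _ ≤ _ := by norm_num

theorem glue_lower {x : ℝ} (hx : x ≤ 1 / 2) : 183 / 10000 ≤ expNegInvGlue (3 / 4 - x) := by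
  have hpos : 0 < 3 / 4 - x := by linarith
  unfold expNegInvGlue
  rw [if_neg (not_le.mpr hpos)]
  have h1 : (3 / 4 - x)⁻¹ ≤ 4 := by
    rw [inv_le_comm₀ hpos (by norm_num)]
    linarith
  have h2 : Real.exp (-4) ≤ Real.exp (-(3 / 4 - x)⁻¹) := by
    apply Real.exp_le_exp.mpr
    linarith
  have h3 : Real.exp (-4) = Real.exp (-1) ^ 4 := by
    rw [← Real.exp_nat_mul]; norm_num
  have h4 : (36787 / 100000 : ℝ) ^ 4 ≤ Real.exp (-1) ^ 4 := by
    apply pow_le_pow_left₀ (by norm_num)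
    have := Real.exp_neg_one_gt_d9
    linarith
  norm_num at h4
  linarith

/-- derivative of `rr` along a line -/
theorem rr_line (eT : ℝ → ℝ) (Bs : ℂ × ℂ × ℝ → ℝ)
    (heT : ContDiff ℝ ∞ eT) (hBs : ContDiff ℝ ∞ Bs) (p v : Fin 5 → ℂ) :
    HasDerivAt (fun τ : ℝ => rr eT Bs (p + τ • v))
      ((v 0 * p 1 + p 0 * v 1).re
        + 200 * ((2 * ((p 0).re * (v 0).re + (p 0).im * (v 0).im)) * ‖p 1‖ ^ 2 +
            ‖p 0‖ ^ 2 * (2 * ((p 1).re * (v 1).re + (p 1).im * (v 1).im)))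
        + 400 * (2 * (p 4).im * (v 4).im)
        + (((nn p - 4)⁻¹) ^ 2 * expNegInvGlue (nn p - 4)) *
          (2 * ((p 0).re * (v 0).re + (p 0).im * (v 0).im) +
            2 * ((p 1).re * (v 1).re + (p 1).im * (v 1).im) +
            2 * ((p 2).re * (v 2).re + (p 2).im * (v 2).im) +
            2 * ((p 3).re * (v 3).re + (p 3).im * (v 3).im) + 2 * (p 4).re * (v 4).re)
        + (1000 * ((((3 / 4 - (p 4).re)⁻¹) ^ 2 * expNegInvGlue (3 / 4 - (p 4).re)) * (-(v 4).re)) *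
            (‖p 0‖ ^ 2 - 1) ^ 2 +
          1000 * expNegInvGlue (3 / 4 - (p 4).re) *
            (2 * (‖p 0‖ ^ 2 - 1) * (2 * ((p 0).re * (v 0).re + (p 0).im * (v 0).im))))
        - deriv eT (p 4).re * (v 4).re
        + fderiv ℝ Bs (p 2 * (starRingEnd ℂ) (p 0), p 3, (p 4).re)
          (v 2 * (starRingEnd ℂ) (p 0) + p 2 * (starRingEnd ℂ) (v 0), v 3, (v 4).re)) 0 := by
  have hp0 : p + (0 : ℝ) • v = p := by rw [zero_smul, add_zero]
  have hc : ∀ i, HasDerivAt (fun τ : ℝ => (p + τ • v) i) (v i) 0 := by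
    intro i
    have h1 : HasDerivAt (fun τ : ℝ => p i + τ • v i) ((1 : ℝ) • v i) 0 :=
      ((hasDerivAt_id (0 : ℝ)).smul_const (v i)).const_add (p i)
    rw [one_smul] at h1
    exact h1
  have hre : ∀ i, HasDerivAt (fun τ : ℝ => ((p + τ • v) i).re) (v i).re 0 := fun i =>
    Complex.reCLM.hasFDerivAt.comp_hasDerivAt (0 : ℝ) (hc i)
  have him : ∀ i, HasDerivAt (fun τ : ℝ => ((p + τ • v) i).im) (v i).im 0 := fun i =>
    Complex.imCLM.hasFDerivAt.comp_hasDerivAt (0 : ℝ) (hc i)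
  have hconj : ∀ i, HasDerivAt (fun τ : ℝ => (starRingEnd ℂ) ((p + τ • v) i))
      ((starRingEnd ℂ) (v i)) 0 := fun i =>
    Complex.conjCLE.toContinuousLinearMap.hasFDerivAt.comp_hasDerivAt (0 : ℝ) (hc i)
  have hn : ∀ i, HasDerivAt (fun τ : ℝ => ‖(p + τ • v) i‖ ^ 2)
      (2 * ((p i).re * (v i).re + (p i).im * (v i).im)) 0 := by
    intro i
    have h1 := ((hre i).pow 2).add ((him i).pow 2)
    have h2 : (fun τ : ℝ => ‖(p + τ • v) i‖ ^ 2) =
        (fun τ : ℝ => ((p + τ • v) i).re) ^ 2 + (fun τ : ℝ => ((p + τ • v) i).im) ^ 2 := by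
      funext τ
      rw [← Complex.normSq_eq_norm_sq, Complex.normSq_apply]
      simp only [Pi.add_apply, Pi.pow_apply]
      ring
    rw [h2]
    refine h1.congr_deriv ?_
    rw [hp0]
    simp only [Nat.cast_ofNat, Nat.add_one_sub_one, pow_one]
    ring
  have d1 : HasDerivAt (fun τ : ℝ => ((p + τ • v) 0 * (p + τ • v) 1).re)
      ((v 0 * p 1 + p 0 * v 1).re) 0 := by
    have h1 := Complex.reCLM.hasFDerivAt.comp_hasDerivAt (0 : ℝ) ((hc 0).mul (hc 1))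
    rw [hp0] at h1
    exact h1
  have d2 : HasDerivAt (fun τ : ℝ => 200 * ‖(p + τ • v) 0 * (p + τ • v) 1‖ ^ 2)
      (200 * ((2 * ((p 0).re * (v 0).re + (p 0).im * (v 0).im)) * ‖p 1‖ ^ 2 +
            ‖p 0‖ ^ 2 * (2 * ((p 1).re * (v 1).re + (p 1).im * (v 1).im)))) 0 := by
    have h1 := ((hn 0).mul (hn 1)).const_mul 200
    rw [hp0] at h1
    have h2 : (fun τ : ℝ => 200 * ‖(p + τ • v) 0 * (p + τ • v) 1‖ ^ 2) =
        fun τ : ℝ => 200 * (‖(p + τ • v) 0‖ ^ 2 * ‖(p + τ • v) 1‖ ^ 2) := by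
      funext τ
      rw [norm_mul, mul_pow]
    rw [h2]
    exact h1
  have d3 : HasDerivAt (fun τ : ℝ => 400 * ((p + τ • v) 4).im ^ 2)
      (400 * (2 * (p 4).im * (v 4).im)) 0 := by
    have h1 := ((him 4).pow 2).const_mul 400
    refine h1.congr_deriv ?_
    rw [hp0]
    simp only [Nat.cast_ofNat, Nat.add_one_sub_one, pow_one]
  have hnn : HasDerivAt (fun τ : ℝ => nn (p + τ • v) - 4)
      (2 * ((p 0).re * (v 0).re + (p 0).im * (v 0).im) +
            2 * ((p 1).re * (v 1).re + (p 1).im * (v 1).im) +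
            2 * ((p 2).re * (v 2).re + (p 2).im * (v 2).im) +
            2 * ((p 3).re * (v 3).re + (p 3).im * (v 3).im) + 2 * (p 4).re * (v 4).re) 0 := by
    have h1 := ((((hn 0).add (hn 1)).add (hn 2)).add (hn 3)).add ((hre 4).pow 2)
    have h2 := h1.sub_const 4
    refine h2.congr_deriv ?_
    rw [hp0]
    simp only [Nat.cast_ofNat, Nat.add_one_sub_one, pow_one]
  have d4 := HasDerivAt.comp (0 : ℝ) (h₂ := expNegInvGlue) (h := fun τ : ℝ => nn (p + τ • v) - 4)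
    (glue_deriv _) hnn
  beta_reduce at d4
  rw [hp0] at d4
  have ht : HasDerivAt (fun τ : ℝ => 3 / 4 - ((p + τ • v) 4).re) (-(v 4).re) 0 :=
    (hre 4).const_sub (3 / 4)
  have hEt := HasDerivAt.comp (0 : ℝ) (h₂ := expNegInvGlue)
    (h := fun τ : ℝ => 3 / 4 - ((p + τ • v) 4).re) (glue_deriv _) ht
  beta_reduce at hEt
  rw [hp0] at hEt
  have hsq : HasDerivAt (fun τ : ℝ => (‖(p + τ • v) 0‖ ^ 2 - 1) ^ 2)
      (2 * (‖p 0‖ ^ 2 - 1) * (2 * ((p 0).re * (v 0).re + (p 0).im * (v 0).im))) 0 := by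
    have h1 := ((hn 0).sub_const 1).pow 2
    refine h1.congr_deriv ?_
    rw [hp0]
    simp only [Nat.cast_ofNat, Nat.add_one_sub_one, pow_one]
  have d5 := (hEt.const_mul 1000).mul hsq
  simp only [Function.comp_apply] at d5
  rw [hp0] at d5
  have heT' : HasDerivAt eT (deriv eT ((p + (0 : ℝ) • v) 4).re) ((p + (0 : ℝ) • v) 4).re :=
    ((heT.differentiable (by norm_num)).differentiableAt).hasDerivAt
  have d6 := HasDerivAt.comp (0 : ℝ) (h₂ := eT) (h := fun τ : ℝ => ((p + τ • v) 4).re) heT' (hre 4)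
  rw [hp0] at d6
  have hin : HasDerivAt (fun τ : ℝ => ((p + τ • v) 2 * (starRingEnd ℂ) ((p + τ • v) 0),
      (p + τ • v) 3, ((p + τ • v) 4).re)) (_, v 3, (v 4).re) 0 :=
    ((hc 2).mul (hconj 0)).prodMk ((hc 3).prodMk (hre 4))
  have hB' : HasFDerivAt Bs (fderiv ℝ Bs ((p + (0 : ℝ) • v) 2 *
      (starRingEnd ℂ) ((p + (0 : ℝ) • v) 0), (p + (0 : ℝ) • v) 3, ((p + (0 : ℝ) • v) 4).re))
      ((p + (0 : ℝ) • v) 2 *
      (starRingEnd ℂ) ((p + (0 : ℝ) • v) 0), (p + (0 : ℝ) • v) 3, ((p + (0 : ℝ) • v) 4).re) :=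
    ((hBs.differentiable (by norm_num)).differentiableAt).hasFDerivAt
  have d7 : HasDerivAt (fun τ : ℝ => Bs ((p + τ • v) 2 * (starRingEnd ℂ) ((p + τ • v) 0),
      (p + τ • v) 3, ((p + τ • v) 4).re)) _ 0 := hB'.comp_hasDerivAt (0 : ℝ) hin
  rw [hp0] at d7
  exact (((((d1.add d2).add d3).add d4).add d5).sub d6).add d7

theorem rr_contDiff (eT : ℝ → ℝ) (Bs : ℂ × ℂ × ℝ → ℝ)
    (heT : ContDiff ℝ ∞ eT) (hBs : ContDiff ℝ ∞ Bs) : Differentiable ℝ (rr eT Bs) := by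
  have hc : ∀ i : Fin 5, ContDiff ℝ ∞ (fun p : Fin 5 → ℂ => p i) := fun i => contDiff_apply ℝ ℂ i
  have hre : ∀ i : Fin 5, ContDiff ℝ ∞ (fun p : Fin 5 → ℂ => (p i).re) := fun i =>
    Complex.reCLM.contDiff.comp (hc i)
  have him : ∀ i : Fin 5, ContDiff ℝ ∞ (fun p : Fin 5 → ℂ => (p i).im) := fun i =>
    Complex.imCLM.contDiff.comp (hc i)
  have hconj : ∀ i : Fin 5, ContDiff ℝ ∞ (fun p : Fin 5 → ℂ => (starRingEnd ℂ) (p i)) := fun i =>
    Complex.conjCLE.toContinuousLinearMap.contDiff.comp (hc i)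
  have hn : ∀ i : Fin 5, ContDiff ℝ ∞ (fun p : Fin 5 → ℂ => ‖p i‖ ^ 2) := fun i =>
    (hc i).norm_sq ℝ
  have hE : ContDiff ℝ ∞ expNegInvGlue := expNegInvGlue.contDiff
  have hnn : ContDiff ℝ ∞ nn := by
    unfold nn
    exact ((((hn 0).add (hn 1)).add (hn 2)).add (hn 3)).add ((hre 4).pow 2)
  have h : ContDiff ℝ ∞ (rr eT Bs) := by
    unfold rr
    refine ((((((?_ : ContDiff ℝ ∞ _).add ?_).add ?_).add ?_).add ?_).sub ?_).add ?_
    · exact Complex.reCLM.contDiff.comp ((hc 0).mul (hc 1))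
    · exact contDiff_const.mul (((hc 0).mul (hc 1)).norm_sq ℝ)
    · exact contDiff_const.mul ((him 4).pow 2)
    · exact hE.comp (hnn.sub contDiff_const)
    · exact (contDiff_const.mul (hE.comp (contDiff_const.sub (hre 4)))).mul
        (((hn 0).sub contDiff_const).pow 2)
    · exact heT.comp (hre 4)
    · exact hBs.comp (((hc 2).mul (hconj 0)).prodMk ((hc 3).prodMk (hre 4)))
  exact h.differentiable (by norm_num)


/-- zero is a regular value of `rr` -/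
theorem rr_regular (eT : ℝ → ℝ) (Bs : ℂ × ℂ × ℝ → ℝ)
    (heT : ContDiff ℝ ∞ eT) (hBs : ContDiff ℝ ∞ Bs)
    (h1 : ∀ x, 0 ≤ eT x ∧ eT x ≤ 1 / 2000)
    (h2 : ∀ x, 0 ≤ deriv eT x ∧ deriv eT x ≤ 1 / 1000)
    (h3 : ∀ x, 1 / 2 ≤ x → 0 < deriv eT x)
    (h4 : ∀ x, 19 / 10 ≤ x → deriv eT x ≤ eT x)
    (hB0 : ∀ q, 0 ≤ Bs q ∧ Bs q ≤ 1 / 10 ^ 6)
    (hB1 : ∀ q, ‖fderiv ℝ Bs q‖ ≤ 1 / 10 ^ 8)
    (hB2 : ∀ v s x, 9 / 20 ≤ x → Bs (v, s, x) = 0)
    (p : Fin 5 → ℂ) (hp : rr eT Bs p = 0) : fderiv ℝ (rr eT Bs) p ≠ 0 := by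
  intro hfd
  have key : ∀ v : Fin 5 → ℂ, HasDerivAt (fun τ : ℝ => rr eT Bs (p + τ • v)) 0 0 := by
    intro v
    have e3 : HasFDerivAt (rr eT Bs) (0 : (Fin 5 → ℂ) →L[ℝ] ℝ) (p + (0 : ℝ) • v) := by
      rw [zero_smul, add_zero, ← hfd]
      exact (rr_contDiff eT Bs heT hBs).differentiableAt.hasFDerivAt
    have e4 : HasDerivAt (fun τ : ℝ => p + τ • v) ((1 : ℝ) • v) 0 :=
      ((hasDerivAt_id (0 : ℝ)).smul_const v).const_add p
    exact e3.comp_hasDerivAt (0 : ℝ) e4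
  have key2 := fun v => (rr_line eT Bs heT hBs p v).unique (key v)
  have sqn : ∀ z : ℂ, z.re * z.re + z.im * z.im = ‖z‖ ^ 2 := by
    intro z
    rw [← Complex.normSq_eq_norm_sq, Complex.normSq_apply]
  obtain ⟨f1, f2, f3, f4, f5⟩ := glue_facts (nn p - 4)
  set q : ℂ × ℂ × ℝ := (p 2 * (starRingEnd ℂ) (p 0), p 3, (p 4).re) with hq
  have hD : ∀ y : ℂ × ℂ × ℝ, (fderiv ℝ Bs q y) ^ 2 ≤ (1 / 10 ^ 8) ^ 2 * ‖y‖ ^ 2 := by
    intro y
    have e1 : ‖fderiv ℝ Bs q y‖ ≤ 1 / 10 ^ 8 * ‖y‖ :=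
      (ContinuousLinearMap.le_opNorm _ _).trans
        (mul_le_mul_of_nonneg_right (hB1 q) (norm_nonneg _))
    rw [Real.norm_eq_abs] at e1
    rw [← sq_abs, ← mul_pow]
    exact pow_le_pow_left₀ (abs_nonneg _) e1 2
  refine rr_core (‖p 0‖ ^ 2) (‖p 1‖ ^ 2) (-(p 0 * p 1).re) (‖p 2‖ ^ 2) (‖p 3‖ ^ 2) (p 4).re (p 4).im
    (nn p - 4) (expNegInvGlue (nn p - 4)) (((nn p - 4)⁻¹) ^ 2 * expNegInvGlue (nn p - 4))
    (expNegInvGlue (3 / 4 - (p 4).re))
    (((3 / 4 - (p 4).re)⁻¹) ^ 2 * expNegInvGlue (3 / 4 - (p 4).re)) (eT (p 4).re)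
    (deriv eT (p 4).re) (Bs q) (fderiv ℝ Bs q (p 2 * (starRingEnd ℂ) (p 0), 0, 0))
    (fderiv ℝ Bs q (0, p 3, 0)) (fderiv ℝ Bs q (0, 0, 1))
    (sq_nonneg _) (sq_nonneg _) (sq_nonneg _) (sq_nonneg _) rfl ?_ ?_ ?_ ?_ ?_ ?_ ?_ ?_
    f1 f2 f3 f4 f5 (expNegInvGlue.nonneg _) ?_ glue_lower
    (mul_nonneg (sq_nonneg _) (expNegInvGlue.nonneg _)) (h1 _) (h2 _) (h3 _) (h4 _) (hB0 _)
    ?_ ?_ ?_ ?_
  · have := hp
    unfold rr at this
    rw [norm_mul, mul_pow] at this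
    linarith
  · have := key2 ![0, p 1, 0, 0, 0]
    simp only [Matrix.cons_val, zero_mul, zero_add, sqn, Complex.zero_re,
      Complex.zero_im, mul_zero, add_zero, map_zero, neg_zero, Prod.mk_zero_zero, sub_zero] at this
    linarith
  · have := key2 ![0, (starRingEnd ℂ) (p 0), 0, 0, 0]
    simp only [Matrix.cons_val, zero_mul, zero_add, sqn, Complex.zero_re,
      Complex.zero_im, mul_zero, add_zero, map_zero, neg_zero, Prod.mk_zero_zero, sub_zero] at this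
    have e1 : (p 0 * (starRingEnd ℂ) (p 0)).re = ‖p 0‖ ^ 2 := by
      rw [← sqn]; simp [Complex.mul_re]
    have e2 : (p 1).re * ((starRingEnd ℂ) (p 0)).re + (p 1).im * ((starRingEnd ℂ) (p 0)).im =
        (p 0 * p 1).re := by
      simp [Complex.mul_re]; ring
    rw [e1, e2] at this
    linarith
  · have := key2 ![p 0, 0, 0, 0, 0]
    simp only [Matrix.cons_val, zero_mul, zero_add, sqn, Complex.zero_re,
      Complex.zero_im, mul_zero, add_zero, map_zero, neg_zero, sub_zero] at this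
    linarith
  · have := key2 ![0, 0, p 2, 0, 0]
    simp only [Matrix.cons_val, zero_mul, zero_add, sqn, Complex.zero_re,
      Complex.zero_im, mul_zero, add_zero, map_zero, neg_zero, sub_zero] at this
    linarith
  · have := key2 ![0, 0, 0, p 3, 0]
    simp only [Matrix.cons_val, zero_mul, zero_add, sqn, Complex.zero_re,
      Complex.zero_im, mul_zero, add_zero, map_zero, neg_zero, Prod.mk_zero_zero, sub_zero] at this
    linarith
  · have := key2 ![0, 0, 0, 0, Complex.I]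
    simp only [Matrix.cons_val, zero_mul, zero_add, sqn, Complex.zero_re,
      Complex.zero_im, mul_zero, add_zero, map_zero, neg_zero, Prod.mk_zero_zero, sub_zero,
      Complex.I_re, Complex.I_im, mul_one] at this
    linarith
  · have := key2 ![0, 0, 0, 0, 1]
    simp only [Matrix.cons_val, zero_mul, zero_add, sqn, Complex.zero_re,
      Complex.zero_im, mul_zero, add_zero, map_zero, neg_zero, Prod.mk_zero_zero, sub_zero,
      Complex.one_re, Complex.one_im, mul_one] at this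
    linarith
  · intro hx
    rw [expNegInvGlue.zero_of_nonpos (by linarith)]
    simp
  · have e1 := hD (p 2 * (starRingEnd ℂ) (p 0), 0, 0)
    have e2 : ‖((p 2 * (starRingEnd ℂ) (p 0), 0, 0) : ℂ × ℂ × ℝ)‖ ^ 2 = ‖p 2‖ ^ 2 * ‖p 0‖ ^ 2 := by
      rw [Prod.norm_mk, Prod.norm_mk, norm_zero, norm_zero, max_self,
        max_eq_left (norm_nonneg _), norm_mul, RCLike.norm_conj, mul_pow]
    rw [e2] at e1
    exact e1
  · have e1 := hD (0, p 3, 0)
    have e2 : ‖((0, p 3, 0) : ℂ × ℂ × ℝ)‖ ^ 2 = ‖p 3‖ ^ 2 := by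
      rw [Prod.norm_mk, Prod.norm_mk, norm_zero, norm_zero,
        max_eq_left (norm_nonneg _), max_eq_right (norm_nonneg _)]
    rw [e2] at e1
    exact e1
  · have e1 := hD (0, 0, 1)
    have e2 : ‖((0, 0, 1) : ℂ × ℂ × ℝ)‖ ^ 2 = 1 := by
      rw [Prod.norm_mk, Prod.norm_mk, norm_zero, norm_one]
      norm_num
    rw [e2, mul_one] at e1
    exact abs_le_of_sq_le_sq e1 (by norm_num)
  · intro hx
    have hz : Bs =ᶠ[𝓝 q] fun _ => 0 := by
      have ho : IsOpen {y : ℂ × ℂ × ℝ | 9 / 20 < y.2.2} :=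
        isOpen_lt continuous_const (continuous_snd.comp continuous_snd)
      have hm : q ∈ {y : ℂ × ℂ × ℝ | 9 / 20 < y.2.2} := by
        show 9 / 20 < (p 4).re
        linarith
      filter_upwards [ho.mem_nhds hm] with y hy
      obtain ⟨y1, y2, y3⟩ := y
      exact hB2 y1 y2 y3 (le_of_lt hy)
    have hfz : fderiv ℝ Bs q = 0 := by
      rw [hz.fderiv_eq]
      simp
    refine ⟨hz.self_of_nhds, ?_, ?_, ?_⟩ <;> rw [hfz] <;> rfl

end Pool.Agent.Helper401.ENV.B4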