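import Mathlib
import Pool.Agent.Helper401.ENV.Defs

set_option autoImplicit false
namespace Pool.Agent.Helper401.ENV.B5
open Set Metric Filter Topology
open scoped ContDiff

theorem component_smooth {E : Type*} [NormedAddCommGroup E] [NormedSpace ℝ E]
    (r : E → ℝ) (hr : ContDiff ℝ ∞ r) (hreg : ∀ p, r p = 0 → fderiv ℝ r p ≠ 0) (p0 : E)
    (h0 : r p0 < 0) :
    IsOpen (connectedComponentIn {p | r p < 0} p0) ∧
    IsConnected (connectedComponentIn {p | r p < 0} p0) ∧
    SmoothBoundary (connectedComponentIn {p | r p < 0} p0) := by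
  have hcont : Continuous r := hr.continuous
  have hSo : IsOpen {p | r p < 0} := isOpen_lt hcont continuous_const
  have hDo : IsOpen (connectedComponentIn {p | r p < 0} p0) := hSo.connectedComponentIn
  refine ⟨hDo, isConnected_connectedComponentIn_iff.2 h0, ?_⟩
  intro p hp
  set S : Set E := {p | r p < 0} with hS
  set D := connectedComponentIn S p0 with hD
  have hpc : p ∈ closure D := frontier_subset_closure hp
  have hpD : p ∉ D := by
    intro h
    have := hp.2
    rw [hDo.interior_eq] at this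
    exact this h
  have hDS : D ⊆ S := connectedComponentIn_subset S p0
  have hle : r p ≤ 0 := by
    have h1 : closure D ⊆ {x | r x ≤ 0} := by
      apply closure_minimal _ (isClosed_le hcont continuous_const)
      intro x hx
      have hx' : r x < 0 := hDS hx
      exact hx'.le
    exact h1 hpc
  -- transport along segments
  have hseg : ∀ x y : E, x ∈ D → (∀ z ∈ segment ℝ x y, r z < 0) → y ∈ D := by
    intro x y hx hz
    have h1 : D = connectedComponentIn S x := connectedComponentIn_eq hx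
    rw [h1]
    exact (convex_segment (𝕜 := ℝ) x y).isPreconnected.subset_connectedComponentIn
      (left_mem_segment ℝ x y) hz (right_mem_segment ℝ x y)
  have hp0 : r p = 0 := by
    by_contra hne
    have hlt : r p < 0 := lt_of_le_of_ne hle hne
    have hSp : S ∈ 𝓝 p := hSo.mem_nhds hlt
    obtain ⟨ε, hε, hball⟩ := Metric.mem_nhds_iff.1 hSp
    obtain ⟨q, hqD, hq⟩ := Metric.mem_closure_iff.1 hpc ε hε
    refine hpD (hseg q p hqD ?_)
    intro z hz
    apply hball
    have hqb : q ∈ ball p ε := by rw [mem_ball, dist_comm]; exact hq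
    exact (convex_ball p ε).segment_subset hqb (mem_ball_self hε) hz
  -- the direction
  have hdp := hreg p hp0
  obtain ⟨v, hv⟩ : ∃ v, fderiv ℝ r p v ≠ 0 := by
    by_contra hcon
    push Not at hcon
    exact hdp (ContinuousLinearMap.ext hcon)
  set e : E := (fderiv ℝ r p v)⁻¹ • v with he
  have hfe : fderiv ℝ r p e = 1 := by
    rw [he, map_smul, smul_eq_mul, inv_mul_cancel₀ hv]
  have hstrict : HasStrictFDerivAt r (fderiv ℝ r p) p :=
    (hr.contDiffAt).hasStrictFDerivAt (by simp)
  have hepos : 0 < 2 * (‖e‖ + 1) := by positivity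
  have hlo := hstrict.isLittleO.def (c := 1 / (2 * (‖e‖ + 1))) (by positivity)
  obtain ⟨δ, hδ, hδb⟩ := Metric.eventually_nhds_iff.1 hlo
  have hmono : ∀ x ∈ ball p δ, ∀ a : ℝ, 0 ≤ a → x - a • e ∈ ball p δ →
      r (x - a • e) ≤ r x - a / 2 := by
    intro x hx a ha hxa
    have h1 := hδb (y := (x, x - a • e)) (by
      rw [Prod.dist_eq]
      exact max_lt hx hxa)
    simp only [sub_sub_cancel, map_smul, hfe, smul_eq_mul, mul_one, norm_smul] at h1
    rw [Real.norm_of_nonneg ha, Real.norm_eq_abs] at h1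
    have h2 : 1 / (2 * (‖e‖ + 1)) * (a * ‖e‖) ≤ a / 2 := by
      rw [div_mul_eq_mul_div, one_mul, div_le_div_iff₀ hepos (by norm_num)]
      nlinarith [norm_nonneg e]
    have h3 := (abs_le.1 (h1.trans h2)).1
    linarith
  set τ : ℝ := δ / (2 * (‖e‖ + 1)) with hτ
  have hτ0 : 0 < τ := by positivity
  have hτe : τ * ‖e‖ ≤ δ / 2 := by
    rw [hτ, div_mul_eq_mul_div, div_le_div_iff₀ hepos (by norm_num)]
    nlinarith [norm_nonneg e]
  have hnh : {x | r x < τ / 4} ∈ 𝓝 p :=
    (isOpen_lt hcont continuous_const).mem_nhds (by show r p < τ / 4; rw [hp0]; positivity)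
  obtain ⟨s', hs', hs'b⟩ := Metric.mem_nhds_iff.1 hnh
  set s : ℝ := min s' (δ / 2) with hs
  have hs0 : 0 < s := lt_min hs' (by positivity)
  have hsub : ∀ x ∈ ball p s, ∀ a : ℝ, 0 ≤ a → a ≤ τ → r (x - a • e) ≤ r x - a / 2 := by
    intro x hx a ha haτ
    have hxs : dist x p < δ / 2 := lt_of_lt_of_le hx (min_le_right _ _)
    apply hmono x (by rw [mem_ball]; linarith) a ha
    rw [mem_ball]
    have h1 : dist (x - a • e) x ≤ δ / 2 := by
      rw [dist_eq_norm, sub_sub_cancel_left, norm_neg, norm_smul, Real.norm_of_nonneg ha]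
      exact (mul_le_mul_of_nonneg_right haτ (norm_nonneg e)).trans hτe
    have h2 := dist_triangle (x - a • e) x p
    linarith
  have hneg : ∀ x ∈ ball p s, r (x - τ • e) < 0 := by
    intro x hx
    have h1 := hsub x hx τ hτ0.le le_rfl
    have hx2 : x ∈ ball p s' := ball_subset_ball (min_le_left _ _) hx
    have h2 : r x < τ / 4 := hs'b hx2
    linarith
  refine ⟨ball p s, ball_mem_nhds p hs0, r, hr, hp0, hdp, ?_⟩
  ext q
  constructor
  · rintro ⟨h1, h2⟩
    exact ⟨h2, hDS h1⟩
  · rintro ⟨hqU, hq⟩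
    refine ⟨?_, hqU⟩
    obtain ⟨q0, hq0D, hq0⟩ := Metric.mem_closure_iff.1 hpc s hs0
    have hq0U : q0 ∈ ball p s := by rw [mem_ball, dist_comm]; exact hq0
    have hq0S : r q0 < 0 := hDS hq0D
    have g1 : q0 - τ • e ∈ D := by
      apply hseg q0 _ hq0D
      rw [segment_eq_image]
      rintro _ ⟨θ, ⟨hθ0, hθ1⟩, rfl⟩
      have e1 : (1 - θ) • q0 + θ • (q0 - τ • e) = q0 - (θ * τ) • e := by
        rw [smul_sub, sub_smul, one_smul, smul_smul]
        abel
      show r ((1 - θ) • q0 + θ • (q0 - τ • e)) < 0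
      rw [e1]
      have h1 := hsub q0 hq0U (θ * τ) (by positivity) (by nlinarith)
      have h2 : 0 ≤ θ * τ := by positivity
      linarith
    have g2 : q - τ • e ∈ D := by
      apply hseg (q0 - τ • e) _ g1
      rw [segment_eq_image]
      rintro _ ⟨θ, ⟨hθ0, hθ1⟩, rfl⟩
      have e1 : (1 - θ) • (q0 - τ • e) + θ • (q - τ • e) = ((1 - θ) • q0 + θ • q) - τ • e := by
        rw [smul_sub, smul_sub, sub_smul 1 θ (τ • e), one_smul]
        abel
      show r ((1 - θ) • (q0 - τ • e) + θ • (q - τ • e)) < 0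
      rw [e1]
      apply hneg
      exact (convex_ball p s) hq0U hqU (by linarith) hθ0 (by ring)
    apply hseg (q - τ • e) _ g2
    rw [segment_eq_image]
    rintro _ ⟨θ, ⟨hθ0, hθ1⟩, rfl⟩
    have e1 : (1 - θ) • (q - τ • e) + θ • q = q - ((1 - θ) * τ) • e := by
      rw [smul_sub, sub_smul 1 θ q, one_smul, smul_smul]
      abel
    show r ((1 - θ) • (q - τ • e) + θ • q) < 0
    rw [e1]
    have h3 : 0 ≤ (1 - θ) * τ := mul_nonneg (by linarith) hτ0.le
    have h1 := hsub q hqU ((1 - θ) * τ) h3 (by nlinarith)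
    linarith

end Pool.Agent.Helper401.ENV.B5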