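import Mathlib
import Pool.Agent.Helper401.ENV.Defs

set_option autoImplicit false
namespace Pool.Agent.Helper401.ENV.B6
open Complex Set Metric Filter Topology
open scoped ContDiff

theorem rr_contDiff (eT : ℝ → ℝ) (Bs : ℂ × ℂ × ℝ → ℝ)
    (heT : ContDiff ℝ ∞ eT) (hBs : ContDiff ℝ ∞ Bs) : ContDiff ℝ ∞ (rr eT Bs) := by
  have hc : ∀ i, ContDiff ℝ ∞ (fun p : Fin 5 → ℂ => p i) := fun i => contDiff_apply ℝ ℂ i
  have hre : ∀ f : (Fin 5 → ℂ) → ℂ, ContDiff ℝ ∞ f → ContDiff ℝ ∞ (fun p => (f p).re) :=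
    fun f hf => Complex.reCLM.contDiff.comp hf
  have him : ∀ f : (Fin 5 → ℂ) → ℂ, ContDiff ℝ ∞ f → ContDiff ℝ ∞ (fun p => (f p).im) :=
    fun f hf => Complex.imCLM.contDiff.comp hf
  have hns : ∀ f : (Fin 5 → ℂ) → ℂ, ContDiff ℝ ∞ f → ContDiff ℝ ∞ (fun p => ‖f p‖ ^ 2) :=
    fun f hf => hf.norm_sq ℝ
  have hE : ContDiff ℝ ∞ expNegInvGlue := expNegInvGlue.contDiff
  have hnn : ContDiff ℝ ∞ nn := by
    unfold nn
    exact ((((hns _ (hc 0)).add (hns _ (hc 1))).add (hns _ (hc 2))).add (hns _ (hc 3))).add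
      ((hre _ (hc 4)).pow 2)
  have h01 : ContDiff ℝ ∞ (fun p : Fin 5 → ℂ => p 0 * p 1) := (hc 0).mul (hc 1)
  have hconj : ContDiff ℝ ∞ (fun p : Fin 5 → ℂ => (starRingEnd ℂ) (p 0)) :=
    Complex.conjCLE.contDiff.comp (hc 0)
  have h2c : ContDiff ℝ ∞ (fun p : Fin 5 → ℂ => p 2 * (starRingEnd ℂ) (p 0)) := (hc 2).mul hconj
  unfold rr
  refine ContDiff.add (ContDiff.sub (ContDiff.add (ContDiff.add (ContDiff.add (ContDiff.add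
    (hre _ h01) (contDiff_const.mul (hns _ h01))) (contDiff_const.mul ((him _ (hc 4)).pow 2)))
    (hE.comp (hnn.sub contDiff_const))) ?_) (heT.comp (hre _ (hc 4)))) ?_
  · refine ContDiff.mul (contDiff_const.mul (hE.comp (contDiff_const.sub (hre _ (hc 4))))) ?_
    exact ((hns _ (hc 0)).sub contDiff_const).pow 2
  · exact hBs.comp (h2c.prodMk ((hc 3).prodMk (hre _ (hc 4))))

/-- geometric consequences of `rr p < 0` -/
theorem rr_geom (eT : ℝ → ℝ) (Bs : ℂ × ℂ × ℝ → ℝ)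
    (h1 : ∀ x, 0 ≤ eT x ∧ eT x ≤ 1 / 2000) (hB0 : ∀ q, 0 ≤ Bs q)
    (p : Fin 5 → ℂ) (hp : rr eT Bs p < 0) :
    ‖p 0 * p 1‖ ≤ 1 / 100 ∧ nn p ≤ 21 / 5 ∧ ‖p 4‖ ≤ 21 / 10 ∧
    (p 0 * p 1).re + 200 * ‖p 0 * p 1‖ ^ 2 + 400 * (p 4).im ^ 2
      < eT (p 4).re - Bs (p 2 * (starRingEnd ℂ) (p 0), p 3, (p 4).re) ∧
    ((p 4).re ≤ 1 / 2 → |‖p 0‖ ^ 2 - 1| ≤ 1 / 50 ∧ p 0 ≠ 0 ∧ ‖p 2 / p 0‖ ≤ 2 ∧ ‖p 3‖ ≤ 2 ∧
      ‖p 2 * (starRingEnd ℂ) (p 0)‖ ≤ 2 ∧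
      (p 0 * p 1).re + 18 * (‖p 0‖ ^ 2 - 1) ^ 2
        < eT (p 4).re - Bs (p 2 * (starRingEnd ℂ) (p 0), p 3, (p 4).re)) := by
  have hE0 : ∀ x, 0 ≤ expNegInvGlue x := expNegInvGlue.nonneg
  have hE5 : (0.006 : ℝ) ≤ Real.exp (-5) := by
    have h1 := Real.exp_one_lt_d9
    have h2 : Real.exp 5 = Real.exp 1 ^ 5 := by rw [← Real.exp_nat_mul]; norm_num
    have h3 : Real.exp 5 ≤ 150 := by
      rw [h2]
      calc Real.exp 1 ^ 5 ≤ 2.7182818286 ^ 5 := pow_le_pow_left₀ (Real.exp_pos 1).le h1.le 5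
        _ ≤ 150 := by norm_num
    rw [Real.exp_neg]
    calc (0.006 : ℝ) ≤ 150⁻¹ := by norm_num
      _ ≤ (Real.exp 5)⁻¹ := inv_anti₀ (Real.exp_pos 5) h3
  have hE4 : (0.018 : ℝ) ≤ Real.exp (-4) := by
    have h1 := Real.exp_one_lt_d9
    have h2 : Real.exp 4 = Real.exp 1 ^ 4 := by rw [← Real.exp_nat_mul]; norm_num
    have h3 : Real.exp 4 ≤ 54.7 := by
      rw [h2]
      calc Real.exp 1 ^ 4 ≤ 2.7182818286 ^ 4 := pow_le_pow_left₀ (Real.exp_pos 1).le h1.le 4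
        _ ≤ 54.7 := by norm_num
    rw [Real.exp_neg]
    calc (0.018 : ℝ) ≤ 54.7⁻¹ := by norm_num
      _ ≤ (Real.exp 4)⁻¹ := inv_anti₀ (Real.exp_pos 4) h3
  have hEval : ∀ c x : ℝ, 0 < c → c ≤ x → Real.exp (-c⁻¹) ≤ expNegInvGlue x := by
    intro c x hc hcx
    have hx : ¬ x ≤ 0 := not_le.2 (hc.trans_le hcx)
    unfold expNegInvGlue
    rw [if_neg hx]
    exact Real.exp_le_exp.2 (neg_le_neg (inv_anti₀ hc hcx))
  set g := ‖p 0 * p 1‖ with hg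
  have hg0 : 0 ≤ g := norm_nonneg _
  have hreg : -g ≤ (p 0 * p 1).re := (abs_le.1 (Complex.abs_re_le_norm _)).1
  unfold rr at hp
  rw [← hg] at hp
  set x := (p 4).re with hx
  set y := (p 4).im with hy
  set A := ‖p 0‖ ^ 2 with hA
  set R := (p 0 * p 1).re with hR
  set E1 := expNegInvGlue (nn p - 4) with hE1
  set E2 := expNegInvGlue (3 / 4 - x) with hE2
  set B := Bs (p 2 * (starRingEnd ℂ) (p 0), p 3, x) with hB
  have hE1' : 0 ≤ E1 := hE0 _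
  have hE2' : 0 ≤ E2 := hE0 _
  have hB' : 0 ≤ B := hB0 _
  have hex := h1 x
  have hsq : 0 ≤ (A - 1) ^ 2 := sq_nonneg _
  have hE2s : 0 ≤ E2 * (A - 1) ^ 2 := mul_nonneg hE2' hsq
  have hy2 : 0 ≤ y ^ 2 := sq_nonneg _
  have hgg : -(1 / 800) ≤ -g + 200 * g ^ 2 := by nlinarith [sq_nonneg (g - 1 / 400)]
  have hp' : R + 200 * g ^ 2 + 400 * y ^ 2 + E1 + 1000 * (E2 * (A - 1) ^ 2) - eT x + B < 0 := by
    linarith [hp]
  have hE1lt : E1 < 0.00175 := by linarith [hex.2]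
  have hylt : 400 * y ^ 2 < 0.00175 := by linarith [hex.2]
  have hAlt : 1000 * (E2 * (A - 1) ^ 2) < 0.00175 := by linarith [hex.2]
  have hgl : g ≤ 1 / 100 := by
    by_contra hc
    push Not at hc
    nlinarith [hex.2]
  have hnn : nn p ≤ 21 / 5 := by
    by_contra hc
    push Not at hc
    have h := hEval (1 / 5) (nn p - 4) (by norm_num) (by linarith)
    rw [← hE1] at h
    have h5 : (-(1 / 5 : ℝ)⁻¹) = -5 := by norm_num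
    rw [h5] at h
    linarith
  have hnn' : nn p = A + ‖p 1‖ ^ 2 + ‖p 2‖ ^ 2 + ‖p 3‖ ^ 2 + x ^ 2 := rfl
  have hA0 : 0 ≤ A := sq_nonneg _
  have h1' : 0 ≤ ‖p 1‖ ^ 2 := sq_nonneg _
  have h2' : 0 ≤ ‖p 2‖ ^ 2 := sq_nonneg _
  have h3' : 0 ≤ ‖p 3‖ ^ 2 := sq_nonneg _
  have hx2 : 0 ≤ x ^ 2 := sq_nonneg _
  refine ⟨hgl, hnn, ?_, ?_, ?_⟩
  · have h4 : ‖p 4‖ ^ 2 = x ^ 2 + y ^ 2 := by
      rw [Complex.sq_norm, Complex.normSq_apply]; ring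
    refine abs_le_of_sq_le_sq' ?_ (by norm_num) |>.2
    rw [h4]
    nlinarith
  · nlinarith
  · intro hxh
    have hE2l : 0.018 ≤ E2 := by
      have h := hEval (1 / 4) (3 / 4 - x) (by norm_num) (by linarith)
      rw [← hE2] at h
      have h5 : (-(1 / 4 : ℝ)⁻¹) = -4 := by norm_num
      rw [h5] at h
      linarith
    have hmul : 0.018 * (A - 1) ^ 2 ≤ E2 * (A - 1) ^ 2 := mul_le_mul_of_nonneg_right hE2l hsq
    have hA1 : |A - 1| ≤ 1 / 50 := by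
      refine abs_le_of_sq_le_sq ?_ (by norm_num)
      nlinarith
    have hAb := abs_le.1 hA1
    have hp0 : p 0 ≠ 0 := by
      intro h
      have : A = 0 := by rw [hA, h, norm_zero]; norm_num
      rw [this] at hAb
      linarith [hAb.1]
    have hApos : 0 < A := by linarith [hAb.1]
    refine ⟨hA1, hp0, ?_, ?_, ?_, ?_⟩
    · refine abs_le_of_sq_le_sq' ?_ (by norm_num) |>.2
      rw [norm_div, div_pow, ← hA, div_le_iff₀ hApos]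
      linarith [hAb.1]
    · refine abs_le_of_sq_le_sq' ?_ (by norm_num) |>.2
      linarith [hAb.1]
    · refine abs_le_of_sq_le_sq' ?_ (by norm_num) |>.2
      rw [norm_mul, mul_pow, RCLike.norm_conj, ← hA]
      nlinarith [hAb.1, hAb.2]
    · nlinarith

theorem rr_bounded (eT : ℝ → ℝ) (Bs : ℂ × ℂ × ℝ → ℝ)
    (h1 : ∀ x, 0 ≤ eT x ∧ eT x ≤ 1 / 2000) (hB0 : ∀ q, 0 ≤ Bs q) :
    Bornology.IsBounded {p : Fin 5 → ℂ | rr eT Bs p < 0} := by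
  refine (Metric.isBounded_closedBall (x := (0 : Fin 5 → ℂ)) (r := 3)).subset ?_
  intro p hp
  obtain ⟨-, hnn, h4, -, -⟩ := rr_geom eT Bs h1 hB0 p hp
  rw [mem_closedBall_zero_iff, pi_norm_le_iff_of_nonneg (by norm_num)]
  have hnn' : nn p = ‖p 0‖ ^ 2 + ‖p 1‖ ^ 2 + ‖p 2‖ ^ 2 + ‖p 3‖ ^ 2 + (p 4).re ^ 2 := rfl
  have h0' : 0 ≤ ‖p 0‖ ^ 2 := sq_nonneg _
  have h1' : 0 ≤ ‖p 1‖ ^ 2 := sq_nonneg _
  have h2' : 0 ≤ ‖p 2‖ ^ 2 := sq_nonneg _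
  have h3' : 0 ≤ ‖p 3‖ ^ 2 := sq_nonneg _
  have hx2 : 0 ≤ (p 4).re ^ 2 := sq_nonneg _
  have b0 : ‖p 0‖ ≤ 3 := abs_le_of_sq_le_sq' (by linarith) (by norm_num) |>.2
  have b1 : ‖p 1‖ ≤ 3 := abs_le_of_sq_le_sq' (by linarith) (by norm_num) |>.2
  have b2 : ‖p 2‖ ≤ 3 := abs_le_of_sq_le_sq' (by linarith) (by norm_num) |>.2
  have b3 : ‖p 3‖ ≤ 3 := abs_le_of_sq_le_sq' (by linarith) (by norm_num) |>.2
  intro i
  fin_cases i
  · exact b0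
  · exact b1
  · exact b2
  · exact b3
  · exact h4.trans (by norm_num)

end Pool.Agent.Helper401.ENV.B6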