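import Mathlib
import Pool.Agent.Helper401.ENV.Defs

set_option autoImplicit false
namespace Pool.Agent.Helper401.ENV.Ga
open Set Metric Filter Topology

theorem eqOn_zero_ball {V : Type*} [NormedAddCommGroup V] [NormedSpace ℂ V] {a : V} {r : ℝ}
    {f : V → ℂ} (hf : DifferentiableOn ℂ f (ball a r)) (h0 : ∀ᶠ y in 𝓝 a, f y = 0) :
    ∀ y ∈ ball a r, f y = 0 := by
  intro y hy
  by_cases hya : y = a
  · rw [hya]
    exact h0.self_of_nhds
  · have hpos : 0 < ‖y - a‖ := norm_pos_iff.2 (sub_ne_zero.2 hya)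
    have hlt : ‖y - a‖ < r := by rwa [mem_ball_iff_norm] at hy
    have hmaps : ∀ t ∈ ball (0 : ℂ) (r / ‖y - a‖), a + t • (y - a) ∈ ball a r := by
      intro t ht
      rw [mem_ball_zero_iff] at ht
      rw [mem_ball_iff_norm, add_sub_cancel_left, norm_smul]
      exact (lt_div_iff₀ hpos).1 ht
    have hg : DifferentiableOn ℂ (fun t : ℂ => f (a + t • (y - a))) (ball 0 (r / ‖y - a‖)) := by
      refine DifferentiableOn.comp (t := ball a r) hf ?_ hmaps
      exact ((differentiable_const a).add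
        (differentiable_id.smul_const (y - a))).differentiableOn
    have hcont : Continuous (fun t : ℂ => a + t • (y - a)) :=
      continuous_const.add (continuous_id.smul continuous_const)
    have h1 : (fun t : ℂ => f (a + t • (y - a))) =ᶠ[𝓝 0] 0 := by
      have h2 : Tendsto (fun t : ℂ => a + t • (y - a)) (𝓝 0) (𝓝 a) := by
        have := hcont.tendsto 0
        simpa using this
      exact h2.eventually h0
    have h3 := (hg.analyticOnNhd isOpen_ball).eqOn_zero_of_preconnected_of_eventuallyEq_zero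
      (convex_ball _ _).isPreconnected (mem_ball_self (div_pos (hpos.trans hlt) hpos)) h1
    have h4 : (1 : ℂ) ∈ ball (0 : ℂ) (r / ‖y - a‖) := by
      rw [mem_ball_zero_iff, norm_one]
      exact (one_lt_div hpos).2 hlt
    have h5 := h3 h4
    simpa using h5

/-- Identity theorem for complex differentiable functions on a preconnected open set. -/
theorem eqOn_zero {V : Type*} [NormedAddCommGroup V] [NormedSpace ℂ V] {U : Set V} {f : V → ℂ}
    (hU : IsOpen U) (hc : IsPreconnected U) (hf : DifferentiableOn ℂ f U) {x : V} (hx : x ∈ U)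
    (h0 : ∀ᶠ y in 𝓝 x, f y = 0) : ∀ y ∈ U, f y = 0 := by
  have hopen : IsOpen {y : V | ∀ᶠ w in 𝓝 y, f w = 0} := isOpen_setOf_eventually_nhds
  have hsub : U ⊆ {y : V | ∀ᶠ w in 𝓝 y, f w = 0} := by
    refine hc.subset_of_closure_inter_subset hopen ⟨x, hx, h0⟩ ?_
    rintro y ⟨hy1, hy2⟩
    obtain ⟨r, hr, hrU⟩ := Metric.isOpen_iff.1 hU y hy2
    obtain ⟨a, ha1, ha2⟩ := Metric.mem_closure_iff.1 hy1 (r / 3) (by positivity)
    have hsub2 : ball a (2 * r / 3) ⊆ ball y r := by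
      intro w hw
      rw [mem_ball] at hw ⊢
      calc dist w y ≤ dist w a + dist a y := dist_triangle _ _ _
        _ < 2 * r / 3 + r / 3 := by rw [dist_comm a y]; linarith
        _ = r := by ring
    have h1 := eqOn_zero_ball (hf.mono (hsub2.trans hrU)) ha1
    have h2 : y ∈ ball a (2 * r / 3) := by
      rw [mem_ball]
      linarith
    show ∀ᶠ w in 𝓝 y, f w = 0
    filter_upwards [isOpen_ball.mem_nhds h2] with w hw
    exact h1 w hw
  intro y hy
  exact (hsub hy).self_of_nhds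

/-- families of functions -/
abbrev GsFam (n : ℕ) : Type := ((Fin n → ℂ) → ℂ) → (Fin n → ℂ) → ℂ

def GsGood {n : ℕ} (D : Set (Fin n → ℂ)) (z : Fin n → ℂ) (G : GsFam n) : Prop :=
  ∃ r : ℝ, 0 < r ∧ ∀ f, DifferentiableOn ℂ f D → DifferentiableOn ℂ (G f) (ball z r)

def GsPre (n : ℕ) (D : Set (Fin n → ℂ)) : Type :=
  {p : (Fin n → ℂ) × GsFam n // GsGood D p.1 p.2}

def gsSetoid (n : ℕ) (D : Set (Fin n → ℂ)) : Setoid (GsPre n D) where
  r p q := p.1.1 = q.1.1 ∧ ∀ f, DifferentiableOn ℂ f D → p.1.2 f =ᶠ[𝓝 p.1.1] q.1.2 f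
  iseqv := {
    refl := fun p => ⟨rfl, fun f _ => EventuallyEq.rfl⟩
    symm := fun {p q} h => ⟨h.1.symm, fun f hf => by
      rw [← h.1]
      exact (h.2 f hf).symm⟩
    trans := fun {p q s} h h' => ⟨h.1.trans h'.1, fun f hf => by
      have h2 := h'.2 f hf
      rw [← h.1] at h2
      exact (h.2 f hf).trans h2⟩ }

def GsS (n : ℕ) (D : Set (Fin n → ℂ)) : Type := Quotient (gsSetoid n D)

noncomputable def gsOut {n : ℕ} {D : Set (Fin n → ℂ)} (x : GsS n D) : GsPre n D :=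
  Quotient.out (s := gsSetoid n D) x

noncomputable def gsPi {n : ℕ} {D : Set (Fin n → ℂ)} (x : GsS n D) : Fin n → ℂ := (gsOut x).1.1

noncomputable def gsRep {n : ℕ} {D : Set (Fin n → ℂ)} (x : GsS n D) : GsFam n := (gsOut x).1.2

def gsMk {n : ℕ} {D : Set (Fin n → ℂ)} (p : GsPre n D) : GsS n D :=
  Quotient.mk (gsSetoid n D) p

theorem gs_pi_mk {n : ℕ} {D : Set (Fin n → ℂ)} (p : GsPre n D) : gsPi (gsMk p) = p.1.1 :=
  (Quotient.mk_out (s := gsSetoid n D) p).1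

theorem gs_rep_mk {n : ℕ} {D : Set (Fin n → ℂ)} (p : GsPre n D) :
    ∀ f, DifferentiableOn ℂ f D → gsRep (gsMk p) f =ᶠ[𝓝 p.1.1] p.1.2 f := by
  intro f hf
  have h := (Quotient.mk_out (s := gsSetoid n D) p).2 f hf
  have h1 := gs_pi_mk p
  have h2 : gsRep (gsMk p) f =ᶠ[𝓝 (gsPi (gsMk p))] p.1.2 f := h
  rwa [h1] at h2

theorem gs_ext {n : ℕ} {D : Set (Fin n → ℂ)} (x y : GsS n D) (h : gsPi x = gsPi y)
    (h' : ∀ f, DifferentiableOn ℂ f D → gsRep x f =ᶠ[𝓝 (gsPi x)] gsRep y f) : x = y := by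
  apply (Quotient.out_equiv_out (s := gsSetoid n D)).1
  exact ⟨h, h'⟩

theorem gs_radius {n : ℕ} {D : Set (Fin n → ℂ)} (x : GsS n D) : ∃ r : ℝ, 0 < r ∧
    ∀ f, DifferentiableOn ℂ f D → DifferentiableOn ℂ (gsRep x f) (ball (gsPi x) r) :=
  (gsOut x).2

/-- basic neighbourhoods -/
def gsNb {n : ℕ} {D : Set (Fin n → ℂ)} (x : GsS n D) (r : ℝ) : Set (GsS n D) :=
  {y | gsPi y ∈ ball (gsPi x) r ∧
    ∀ f, DifferentiableOn ℂ f D → gsRep y f =ᶠ[𝓝 (gsPi y)] gsRep x f}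

theorem gs_nb_mono {n : ℕ} {D : Set (Fin n → ℂ)} (x : GsS n D) {r s : ℝ} (h : r ≤ s) :
    gsNb x r ⊆ gsNb x s := fun _ hy => ⟨ball_subset_ball h hy.1, hy.2⟩

theorem gs_nb_self {n : ℕ} {D : Set (Fin n → ℂ)} (x : GsS n D) {r : ℝ} (h : 0 < r) :
    x ∈ gsNb x r := ⟨mem_ball_self h, fun _ _ => EventuallyEq.rfl⟩

instance gsTop (n : ℕ) (D : Set (Fin n → ℂ)) : TopologicalSpace (GsS n D) where
  IsOpen U := ∀ x ∈ U, ∃ r : ℝ, 0 < r ∧ gsNb x r ⊆ U
  isOpen_univ := fun _ _ => ⟨1, one_pos, subset_univ _⟩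
  isOpen_inter := by
    intro U V hU hV x hx
    obtain ⟨r, hr, hrU⟩ := hU x hx.1
    obtain ⟨s, hs, hsV⟩ := hV x hx.2
    exact ⟨min r s, lt_min hr hs, subset_inter ((gs_nb_mono x (min_le_left _ _)).trans hrU)
      ((gs_nb_mono x (min_le_right _ _)).trans hsV)⟩
  isOpen_sUnion := by
    intro F hF x hx
    obtain ⟨U, hU, hxU⟩ := hx
    obtain ⟨r, hr, hrU⟩ := hF U hU x hxU
    exact ⟨r, hr, hrU.trans (subset_sUnion_of_mem hU)⟩

theorem gs_isOpen {n : ℕ} {D : Set (Fin n → ℂ)} {U : Set (GsS n D)} :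
    IsOpen U ↔ ∀ x ∈ U, ∃ r : ℝ, 0 < r ∧ gsNb x r ⊆ U := Iff.rfl

/-- two families which agree near one point of a ball agree near each point of the ball -/
theorem gs_agree {n : ℕ} {D : Set (Fin n → ℂ)} {G G' : GsFam n} {z w : Fin n → ℂ} {r : ℝ}
    (hG : ∀ f, DifferentiableOn ℂ f D → DifferentiableOn ℂ (G f) (ball z r))
    (hG' : ∀ f, DifferentiableOn ℂ f D → DifferentiableOn ℂ (G' f) (ball z r))
    (hw : w ∈ ball z r) (h : ∀ f, DifferentiableOn ℂ f D → G f =ᶠ[𝓝 w] G' f) :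
    ∀ v ∈ ball z r, ∀ f, DifferentiableOn ℂ f D → G f =ᶠ[𝓝 v] G' f := by
  intro v hv f hf
  have h1 : DifferentiableOn ℂ (fun y => G f y - G' f y) (ball z r) := (hG f hf).sub (hG' f hf)
  have h2 : ∀ᶠ y in 𝓝 w, G f y - G' f y = 0 := by
    filter_upwards [h f hf] with y hy
    rw [hy, sub_self]
  have h3 := eqOn_zero isOpen_ball (convex_ball z r).isPreconnected h1 hw h2
  filter_upwards [isOpen_ball.mem_nhds hv] with y hy
  exact sub_eq_zero.1 (h3 y hy)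

theorem gs_nb_open {n : ℕ} {D : Set (Fin n → ℂ)} (x : GsS n D) {r : ℝ}
    (hr : ∀ f, DifferentiableOn ℂ f D → DifferentiableOn ℂ (gsRep x f) (ball (gsPi x) r)) :
    IsOpen (gsNb x r) := by
  rw [gs_isOpen]
  intro y hy
  obtain ⟨s, hs, hsy⟩ := gs_radius y
  have hy1 : dist (gsPi y) (gsPi x) < r := mem_ball.1 hy.1
  obtain ⟨t, ht⟩ : ∃ t, t = min s (r - dist (gsPi y) (gsPi x)) := ⟨_, rfl⟩
  have ht0 : 0 < t := by rw [ht]; exact lt_min hs (by linarith)
  have hts : t ≤ s := by rw [ht]; exact min_le_left _ _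
  have htr : t ≤ r - dist (gsPi y) (gsPi x) := by rw [ht]; exact min_le_right _ _
  have hb : ball (gsPi y) t ⊆ ball (gsPi x) r := by
    intro w hw
    rw [mem_ball] at hw ⊢
    linarith [dist_triangle w (gsPi y) (gsPi x)]
  refine ⟨t, ht0, fun q hq => ⟨hb hq.1, fun f hf => ?_⟩⟩
  have h1 := gs_agree (fun f hf => (hsy f hf).mono (ball_subset_ball hts))
    (fun f hf => (hr f hf).mono hb) (mem_ball_self ht0) hy.2 (gsPi q) hq.1 f hf
  exact (hq.2 f hf).trans h1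

theorem gs_nb_inj {n : ℕ} {D : Set (Fin n → ℂ)} (x : GsS n D) (r : ℝ) :
    InjOn gsPi (gsNb x r) := by
  intro y hy y' hy' h
  apply gs_ext y y' h
  intro f hf
  have h1 := hy'.2 f hf
  rw [← h] at h1
  exact (hy.2 f hf).trans h1.symm

theorem gs_good_of_mem {n : ℕ} {D : Set (Fin n → ℂ)} {G : GsFam n} {z w : Fin n → ℂ} {r : ℝ}
    (hG : ∀ f, DifferentiableOn ℂ f D → DifferentiableOn ℂ (G f) (ball z r))
    (hw : w ∈ ball z r) : GsGood D w G := by
  obtain ⟨s, hs, hsub⟩ := Metric.isOpen_iff.1 isOpen_ball w hw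
  exact ⟨s, hs, fun f hf => (hG f hf).mono hsub⟩

theorem gs_pi_cont {n : ℕ} {D : Set (Fin n → ℂ)} : Continuous (gsPi : GsS n D → _) := by
  rw [continuous_def]
  intro W hW
  rw [gs_isOpen]
  intro x hx
  obtain ⟨r, hr, hrW⟩ := Metric.isOpen_iff.1 hW (gsPi x) hx
  exact ⟨r, hr, fun y hy => hrW hy.1⟩

theorem gs_pi_open {n : ℕ} {D : Set (Fin n → ℂ)} : IsOpenMap (gsPi : GsS n D → _) := by
  intro U hU
  rw [Metric.isOpen_iff]
  rintro _ ⟨x, hx, rfl⟩
  obtain ⟨r, hr, hrU⟩ := hU x hx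
  obtain ⟨s, hs, hsx⟩ := gs_radius x
  refine ⟨min r s, lt_min hr hs, fun w hw => ?_⟩
  have hws : w ∈ ball (gsPi x) s := ball_subset_ball (min_le_right _ _) hw
  have hwr : w ∈ ball (gsPi x) r := ball_subset_ball (min_le_left _ _) hw
  have h1 := gs_pi_mk (⟨(w, gsRep x), gs_good_of_mem hsx hws⟩ : GsPre n D)
  refine ⟨gsMk ⟨(w, gsRep x), gs_good_of_mem hsx hws⟩, hrU ⟨?_, fun f hf => ?_⟩, h1⟩
  · rw [h1]
    exact hwr
  · rw [h1]
    exact gs_rep_mk _ f hf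

theorem gs_t2 {n : ℕ} {D : Set (Fin n → ℂ)} : T2Space (GsS n D) := by
  constructor
  intro x y hxy
  by_cases h : gsPi x = gsPi y
  · obtain ⟨r, hr, hrx⟩ := gs_radius x
    obtain ⟨s, hs, hsy⟩ := gs_radius y
    obtain ⟨t, ht⟩ : ∃ t, t = min r s := ⟨_, rfl⟩
    have ht0 : 0 < t := by rw [ht]; exact lt_min hr hs
    have htr : t ≤ r := by rw [ht]; exact min_le_left _ _
    have hts : t ≤ s := by rw [ht]; exact min_le_right _ _
    have hx : ∀ f, DifferentiableOn ℂ f D → DifferentiableOn ℂ (gsRep x f) (ball (gsPi x) t) :=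
      fun f hf => (hrx f hf).mono (ball_subset_ball htr)
    have hy : ∀ f, DifferentiableOn ℂ f D → DifferentiableOn ℂ (gsRep y f) (ball (gsPi y) t) :=
      fun f hf => (hsy f hf).mono (ball_subset_ball hts)
    refine ⟨gsNb x t, gsNb y t, gs_nb_open x hx, gs_nb_open y hy, gs_nb_self x ht0,
      gs_nb_self y ht0, ?_⟩
    rw [Set.disjoint_left]
    intro q hq hq'
    apply hxy
    apply gs_ext x y h
    rw [← h] at hy
    exact gs_agree hx hy hq.1 (fun f hf => (hq.2 f hf).symm.trans (hq'.2 f hf)) (gsPi x)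
      (mem_ball_self ht0)
  · obtain ⟨u, v, hu, hv, hxu, hyv, huv⟩ := t2_separation h
    exact ⟨gsPi ⁻¹' u, gsPi ⁻¹' v, hu.preimage gs_pi_cont, hv.preimage gs_pi_cont, hxu, hyv,
      huv.preimage gsPi⟩

theorem gs_lh {n : ℕ} {D : Set (Fin n → ℂ)} : IsLocalHomeomorph (gsPi : GsS n D → _) := by
  rw [isLocalHomeomorph_iff_isOpenEmbedding_restrict]
  intro x
  obtain ⟨r, hr, hrx⟩ := gs_radius x
  have ho := gs_nb_open x hrx
  refine ⟨gsNb x r, ho.mem_nhds (gs_nb_self x hr), ?_⟩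
  exact Topology.IsOpenEmbedding.of_continuous_injective_isOpenMap
    (gs_pi_cont.comp continuous_subtype_val) (injOn_iff_injective.1 (gs_nb_inj x r))
    (gs_pi_open.restrict ho)

theorem gs_sec {n : ℕ} {D : Set (Fin n → ℂ)} (z : Fin n → ℂ) (G : GsFam n) (r : ℝ) (hr : 0 < r)
    (hG : ∀ f, DifferentiableOn ℂ f D → DifferentiableOn ℂ (G f) (ball z r)) :
    ∃ σ : (Fin n → ℂ) → GsS n D, ContinuousOn σ (ball z r) ∧ ∀ w ∈ ball z r, gsPi (σ w) = w ∧
      ∀ f, DifferentiableOn ℂ f D → gsRep (σ w) f =ᶠ[𝓝 w] G f := by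
  classical
  obtain ⟨σ, hσ⟩ : ∃ σ : (Fin n → ℂ) → GsS n D, ∀ w ∈ ball z r, gsPi (σ w) = w ∧
      ∀ f, DifferentiableOn ℂ f D → gsRep (σ w) f =ᶠ[𝓝 w] G f := by
    refine ⟨fun w => if h : w ∈ ball z r then gsMk ⟨(w, G), gs_good_of_mem hG h⟩
      else gsMk ⟨(z, G), ⟨r, hr, hG⟩⟩, fun w hw => ?_⟩
    simp only [dif_pos hw]
    exact ⟨gs_pi_mk _, gs_rep_mk _⟩
  refine ⟨σ, fun w0 hw0 => ?_, hσ⟩
  apply ContinuousAt.continuousWithinAt
  intro V hV
  obtain ⟨V', hV'V, hV'o, hV'm⟩ := mem_nhds_iff.1 hV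
  obtain ⟨s, hs, hsV⟩ := hV'o _ hV'm
  obtain ⟨t, ht, htr⟩ := gs_radius (σ w0)
  obtain ⟨e, he, her⟩ := Metric.isOpen_iff.1 isOpen_ball w0 hw0
  obtain ⟨h1, h2⟩ := hσ w0 hw0
  rw [h1] at htr
  obtain ⟨q, hq⟩ : ∃ q, q = min s (min t e) := ⟨_, rfl⟩
  have hq0 : 0 < q := by rw [hq]; exact lt_min hs (lt_min ht he)
  have hqs : q ≤ s := by rw [hq]; exact min_le_left _ _
  have hqt : q ≤ t := by rw [hq]; exact (min_le_right _ _).trans (min_le_left _ _)
  have hqe : q ≤ e := by rw [hq]; exact (min_le_right _ _).trans (min_le_right _ _)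
  rw [Filter.mem_map]
  filter_upwards [ball_mem_nhds w0 hq0] with w hw
  apply hV'V
  apply hsV
  have hwz : w ∈ ball z r := her (ball_subset_ball hqe hw)
  obtain ⟨h3, h4⟩ := hσ w hwz
  refine ⟨?_, fun f hf => ?_⟩
  · rw [h3, h1]
    exact ball_subset_ball hqs hw
  · rw [h3]
    have h5 := gs_agree (fun f hf => (htr f hf).mono (ball_subset_ball hqt))
      (fun f hf => (hG f hf).mono ((ball_subset_ball hqe).trans her)) (mem_ball_self hq0) h2
      w hw f hf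
    exact (h4 f hf).trans h5.symm

theorem exists_germSpace (n : ℕ) (D : Set (Fin n → ℂ)) : Nonempty (GermSpace n D) := by
  refine ⟨@GermSpace.mk n D (GsS n D) (gsTop n D) gs_t2 gsPi gs_lh gsRep ?_ gs_ext gs_sec⟩
  intro x
  obtain ⟨r, hr, hrx⟩ := gs_radius x
  refine ⟨r, hr, hrx, ?_⟩
  filter_upwards [(gs_nb_open x hrx).mem_nhds (gs_nb_self x hr)] with y hy
  exact hy.2

end Pool.Agent.Helper401.ENV.Ga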