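import Mathlib
import Pool.Agent.Helper401.ENV.Defs
import Pool.Agent.Helper401.ENV.Ga
import Pool.Agent.Helper401.ENV.C1

set_option autoImplicit false
namespace Pool.Agent.Helper401.ENV.C4
open Complex Set Metric Filter Topology
open Pool.Agent.Helper401.ENV.Ga (eqOn_zero)
open Pool.Agent.Helper401.ENV.C1 (Om_open EE_diff EE_cauchy)

namespace PathAux
open Metric Set Filter Topology Asymptotics

section General

variable {E F : Type*} [NormedAddCommGroup E] [NormedSpace ℂ E]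
  [NormedAddCommGroup F] [NormedSpace ℂ F]

/-- Second order Taylor estimate for a bounded holomorphic map. -/
theorem norm_sub_sub_fderiv_le {f : E → F} {c : E} {R M : ℝ} (hR : 0 < R)
    (hd : DifferentiableOn ℂ f (ball c R)) (hM : ∀ z ∈ ball c R, ‖f z‖ ≤ M) {w : E}
    (hw : w ∈ ball c R) :
    ‖f w - f c - fderiv ℂ f c (w - c)‖ ≤ 4 * M * (‖w - c‖ / R) ^ 2 := by
  have hcc : c ∈ ball c R := mem_ball_self hR
  have hM0 : 0 ≤ M := (norm_nonneg _).trans (hM c hcc)
  have hmaps : MapsTo f (ball c R) (closedBall (f c) (2 * M)) := by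
    intro z hz
    rw [mem_closedBall, dist_eq_norm]
    calc ‖f z - f c‖ ≤ ‖f z‖ + ‖f c‖ := norm_sub_le _ _
      _ ≤ 2 * M := by linarith [hM z hz, hM c hcc]
  have hfd : ‖fderiv ℂ f c‖ ≤ 2 * M / R := Complex.norm_fderiv_le_div_of_mapsTo_ball hd hmaps hR
  have hdc : DifferentiableAt ℂ f c := hd.differentiableAt (ball_mem_nhds _ hR)
  set g : E → F := fun z => f z - f c - fderiv ℂ f c (z - c) with hg
  have hgd : DifferentiableOn ℂ g (ball c R) := by
    intro z hz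
    have h1 : DifferentiableAt ℂ f z := hd.differentiableAt (isOpen_ball.mem_nhds hz)
    exact (by fun_prop : DifferentiableAt ℂ g z).differentiableWithinAt
  have hgc : g c = 0 := by simp [hg]
  have hgmaps : MapsTo g (ball c R) (closedBall (g c) (4 * M)) := by
    intro z hz
    rw [mem_closedBall, dist_eq_norm, hgc, sub_zero]
    have h1 : ‖f z - f c‖ ≤ 2 * M := by
      have := hmaps hz
      rwa [mem_closedBall, dist_eq_norm] at this
    have h2 : ‖fderiv ℂ f c (z - c)‖ ≤ 2 * M := by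
      calc ‖fderiv ℂ f c (z - c)‖ ≤ ‖fderiv ℂ f c‖ * ‖z - c‖ := ContinuousLinearMap.le_opNorm _ _
        _ ≤ (2 * M / R) * R := by
            apply mul_le_mul hfd _ (norm_nonneg _) (by positivity)
            rw [mem_ball, dist_eq_norm] at hz
            exact hz.le
        _ = 2 * M := by field_simp
    calc ‖g z‖ ≤ ‖f z - f c‖ + ‖fderiv ℂ f c (z - c)‖ := norm_sub_le _ _
      _ ≤ 4 * M := by linarith
  have hn : (g · - g c) =o[𝓝 c] (fun w ↦ ‖w - c‖ ^ 1) := by
    have := hdc.hasFDerivAt.isLittleO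
    simp only [hgc, sub_zero, pow_one]
    exact this.norm_right
  have := Complex.dist_le_mul_div_pow_of_mapsTo_ball_of_isLittleO hgd hgmaps hn hw
  rw [hgc, dist_zero_right, dist_eq_norm] at this
  simpa only [hg] using this

omit [NormedSpace ℂ E] in
theorem ball_half_subset {c w : E} {R : ℝ} (hw : w ∈ ball c (R / 2)) :
    ball w (R / 2) ⊆ ball c R := by
  intro x hx
  rw [mem_ball] at *
  calc dist x c ≤ dist x w + dist w c := dist_triangle _ _ _
    _ < R := by linarith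

/-- Lipschitz type bound for bounded holomorphic maps. -/
theorem lipschitz_half {f : E → F} {c : E} {R M : ℝ}
    (hd : DifferentiableOn ℂ f (ball c R)) (hM : ∀ z ∈ ball c R, ‖f z‖ ≤ M) {w z : E}
    (hw : w ∈ ball c (R / 2)) (hz : z ∈ ball w (R / 2)) :
    ‖f z - f w‖ ≤ 4 * M / R * ‖z - w‖ := by
  have hsub := ball_half_subset hw
  have hR : 0 < R / 2 := (dist_nonneg).trans_lt (mem_ball.1 hw)
  have hmaps : MapsTo f (ball w (R / 2)) (closedBall (f w) (2 * M)) := by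
    intro x hx
    rw [mem_closedBall, dist_eq_norm]
    calc ‖f x - f w‖ ≤ ‖f x‖ + ‖f w‖ := norm_sub_le _ _
      _ ≤ 2 * M := by linarith [hM x (hsub hx), hM w (hsub (mem_ball_self hR))]
  have := Complex.dist_le_div_mul_dist_of_mapsTo_ball (hd.mono hsub) hmaps hz
  rw [dist_eq_norm, dist_eq_norm] at this
  calc _ ≤ _ := this
    _ = _ := by
      have : R ≠ 0 := by linarith
      field_simp; ring

theorem norm_fderiv_le_half {f : E → F} {c : E} {R M : ℝ}
    (hd : DifferentiableOn ℂ f (ball c R)) (hM : ∀ z ∈ ball c R, ‖f z‖ ≤ M) {w : E}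
    (hw : w ∈ ball c (R / 2)) :
    ‖fderiv ℂ f w‖ ≤ 4 * M / R := by
  have hsub := ball_half_subset hw
  have hR : 0 < R / 2 := (dist_nonneg).trans_lt (mem_ball.1 hw)
  have hmaps : MapsTo f (ball w (R / 2)) (closedBall (f w) (2 * M)) := by
    intro x hx
    rw [mem_closedBall, dist_eq_norm]
    calc ‖f x - f w‖ ≤ ‖f x‖ + ‖f w‖ := norm_sub_le _ _
      _ ≤ 2 * M := by linarith [hM x (hsub hx), hM w (hsub (mem_ball_self hR))]
  have := Complex.norm_fderiv_le_div_of_mapsTo_ball (hd.mono hsub) hmaps hR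
  calc _ ≤ _ := this
    _ = _ := by
      have : R ≠ 0 := by linarith
      field_simp; ring

/-- Uniform limits of holomorphic maps are holomorphic. -/
theorem differentiableOn_of_uniform_limit [CompleteSpace F] {f : ℕ → E → F} {g : E → F} {c : E}
    {R : ℝ} (hf : ∀ n, DifferentiableOn ℂ (f n) (ball c R))
    (hlim : TendstoUniformlyOn f g atTop (ball c R)) :
    DifferentiableOn ℂ g (ball c (R / 2)) := by
  rcases le_or_gt R 0 with hR | hR
  · rw [ball_eq_empty.2 (by linarith)]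
    exact differentiableOn_empty
  have hc : UniformCauchySeqOn (fun n => fderiv ℂ (f n)) atTop (ball c (R / 2)) := by
    rw [Metric.uniformCauchySeqOn_iff]
    intro ε hε
    obtain ⟨N, hN⟩ := Metric.uniformCauchySeqOn_iff.1 hlim.uniformCauchySeqOn (ε * R / 8)
      (by positivity)
    refine ⟨N, fun m hm n hn w hw => ?_⟩
    have hsub := ball_half_subset hw
    have hR2 : 0 < R / 2 := by linarith
    have hwm : w ∈ ball c R := hsub (mem_ball_self hR2)
    have e1 : fderiv ℂ (f m) w - fderiv ℂ (f n) w = fderiv ℂ (fun x => f m x - f n x) w := by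
      rw [fderiv_fun_sub ((hf m).differentiableAt (isOpen_ball.mem_nhds hwm))
        ((hf n).differentiableAt (isOpen_ball.mem_nhds hwm))]
    rw [dist_eq_norm, e1]
    have := norm_fderiv_le_half (f := fun x => f m x - f n x) (c := c) (R := R) (M := ε * R / 8)
      ((hf m).sub (hf n)) (fun z hz => by
        have := hN m hm n hn z hz
        rw [dist_eq_norm] at this
        exact this.le) hw
    calc _ ≤ _ := this
      _ = ε / 2 := by field_simp; ring
      _ < ε := by linarith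
  have hex : ∀ x ∈ ball c (R / 2), ∃ L : E →L[ℂ] F,
      Tendsto (fun n => fderiv ℂ (f n) x) atTop (𝓝 L) := by
    intro x hx
    exact cauchySeq_tendsto_of_complete (hc.cauchySeq hx)
  choose! g' hg' using hex
  have hu : TendstoUniformlyOn (fun n => fderiv ℂ (f n)) g' atTop (ball c (R / 2)) :=
    hc.tendstoUniformlyOn_of_tendsto hg'
  intro x hx
  refine (hasFDerivAt_of_tendstoUniformlyOn (f := f) isOpen_ball hu (fun n y hy => ?_)
    (fun y hy => ?_) hx).differentiableAt.differentiableWithinAt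
  · exact ((hf n).differentiableAt
      (isOpen_ball.mem_nhds (ball_subset_ball (by linarith) hy))).hasFDerivAt
  · exact hlim.tendsto_at (ball_subset_ball (by linarith) hy)

/-- A holomorphic map is locally bounded. -/
theorem exists_bound {f : E → F} {s : Set E} (hs : IsOpen s) (hf : DifferentiableOn ℂ f s)
    {z : E} (hz : z ∈ s) : ∃ R > 0, ∃ M ≥ 0, ball z R ⊆ s ∧ ∀ w ∈ ball z R, ‖f w‖ ≤ M := by
  have hc : ContinuousAt f z := (hf.differentiableAt (hs.mem_nhds hz)).continuousAt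
  have h1 : ∀ᶠ w in 𝓝 z, ‖f w‖ < ‖f z‖ + 1 :=
    hc.norm.eventually_lt continuousAt_const (by simp)
  obtain ⟨R, hR, h⟩ := Metric.eventually_nhds_iff_ball.1 (h1.and (hs.mem_nhds hz))
  exact ⟨R, hR, ‖f z‖ + 1, by positivity, fun w hw => (h w hw).2, fun w hw => (h w hw).1.le⟩

/-- Directional derivatives of holomorphic maps are holomorphic. -/
theorem differentiableOn_fderiv_apply [CompleteSpace F] {f : E → F} {s : Set E} (hs : IsOpen s)
    (hf : DifferentiableOn ℂ f s) (v : E) :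
    DifferentiableOn ℂ (fun z => fderiv ℂ f z v) s := by
  intro z hz
  obtain ⟨R, hR, M, hM0, hsub, hM⟩ := exists_bound hs hf hz
  obtain ⟨N, hN⟩ := exists_nat_gt (4 * ‖v‖ / R)
  set t : ℕ → ℂ := fun n => ((n + N + 1 : ℕ) : ℂ)⁻¹ with ht
  have htpos : ∀ n, t n ≠ 0 := fun n =>
    inv_ne_zero (Nat.cast_ne_zero.2 (Nat.succ_ne_zero (n + N)))
  have htn : ∀ n, ‖t n‖ = ((n + N + 1 : ℕ) : ℝ)⁻¹ := by
    intro n
    rw [ht]
    simp only [norm_inv, Complex.norm_natCast]
  have htv : ∀ n, ‖t n • v‖ < R / 4 := by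
    intro n
    rw [norm_smul, htn]
    have h1 : (N : ℝ) < ((n + N + 1 : ℕ) : ℝ) := by exact_mod_cast (by omega)
    have h2 : 4 * ‖v‖ / R < ((n + N + 1 : ℕ) : ℝ) := hN.trans h1
    have h3 : (0 : ℝ) < ((n + N + 1 : ℕ) : ℝ) := by positivity
    rw [div_lt_iff₀ hR] at h2
    rw [inv_mul_lt_iff₀ h3]
    linarith
  set F' : ℕ → E → F := fun n x => (t n)⁻¹ • (f (x + t n • v) - f x) with hF'
  have hdiff : ∀ n, DifferentiableOn ℂ (F' n) (ball z (R / 4)) := by
    intro n x hx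
    have hx1 : x ∈ ball z R := ball_subset_ball (by linarith) hx
    have hx2 : x + t n • v ∈ ball z R := by
      rw [mem_ball, dist_eq_norm] at *
      calc ‖x + t n • v - z‖ = ‖(x - z) + t n • v‖ := by congr 1; abel
        _ ≤ ‖x - z‖ + ‖t n • v‖ := norm_add_le _ _
        _ < R := by linarith [htv n]
    have d1 : DifferentiableAt ℂ f x := hf.differentiableAt (hs.mem_nhds (hsub hx1))
    have d2 : DifferentiableAt ℂ f (x + t n • v) := hf.differentiableAt (hs.mem_nhds (hsub hx2))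
    have d3 : DifferentiableAt ℂ (fun y => f (y + t n • v)) x := by
      have : DifferentiableAt ℂ (fun y : E => y + t n • v) x := by fun_prop
      exact DifferentiableAt.comp x d2 this
    exact ((d3.sub d1).const_smul _).differentiableWithinAt
  have hlim : TendstoUniformlyOn F' (fun x => fderiv ℂ f x v) atTop (ball z (R / 4)) := by
    rw [Metric.tendstoUniformlyOn_iff]
    intro ε hε
    have h0 : Tendsto (fun n : ℕ => (4 * M * (‖v‖ / (R / 2)) ^ 2) * ‖t n‖) atTop (𝓝 0) := by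
      have : Tendsto (fun n : ℕ => ‖t n‖) atTop (𝓝 0) := by
        simp only [htn]
        have := tendsto_inv_atTop_nhds_zero_nat (𝕜 := ℝ)
        exact (tendsto_add_atTop_iff_nat (N + 1)).2 this
      simpa using this.const_mul (4 * M * (‖v‖ / (R / 2)) ^ 2)
    filter_upwards [h0.eventually_lt_const hε] with n hn x hx
    have hx1 : x ∈ ball z (R / 2) := ball_subset_ball (by linarith) hx
    have hx3 := ball_half_subset hx1
    have hxx : x + t n • v ∈ ball x (R / 2) := by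
      rw [mem_ball, dist_eq_norm]
      simp only [add_sub_cancel_left]
      linarith [htv n]
    have key := norm_sub_sub_fderiv_le (f := f) (c := x) (R := R / 2) (M := M) (by linarith)
      (hf.mono (hx3.trans hsub)) (fun w hw => hM w (hx3 hw)) hxx
    rw [add_sub_cancel_left] at key
    have e1 : fderiv ℂ f x v - F' n x =
        -((t n)⁻¹ • (f (x + t n • v) - f x - fderiv ℂ f x (t n • v))) := by
      simp only [hF', map_smul, smul_sub, smul_smul, inv_mul_cancel₀ (htpos n), one_smul]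
      abel
    rw [dist_eq_norm, e1, norm_neg, norm_smul, norm_inv]
    have htp : 0 < ‖t n‖ := norm_pos_iff.2 (htpos n)
    calc ‖t n‖⁻¹ * ‖f (x + t n • v) - f x - fderiv ℂ f x (t n • v)‖
        ≤ ‖t n‖⁻¹ * (4 * M * (‖t n • v‖ / (R / 2)) ^ 2) := by gcongr
      _ = (4 * M * (‖v‖ / (R / 2)) ^ 2) * ‖t n‖ := by
          rw [norm_smul]; field_simp
      _ < ε := hn
  have := differentiableOn_of_uniform_limit hdiff hlim
  exact (this.differentiableAt (isOpen_ball.mem_nhds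
    (mem_ball_self (by linarith)))).differentiableWithinAt

end General

end PathAux


/-- the disc point -/
def dpt (q : ℂ × (Fin 5 → ℂ)) (ζ : ℂ) : Fin 5 → ℂ :=
  ![ζ, q.2 1, q.2 2 + q.1 * (ζ - q.2 0), q.2 3, q.2 4]

theorem dpt_cont : Continuous (fun z : (ℂ × (Fin 5 → ℂ)) × ℂ => dpt z.1 z.2) := by
  unfold dpt
  refine continuous_pi (fun i => ?_)
  fin_cases i
  · show Continuous (fun z : (ℂ × (Fin 5 → ℂ)) × ℂ => z.2)
    fun_prop
  · show Continuous (fun z : (ℂ × (Fin 5 → ℂ)) × ℂ => z.1.2 1)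
    fun_prop
  · show Continuous (fun z : (ℂ × (Fin 5 → ℂ)) × ℂ => z.1.2 2 + z.1.1 * (z.2 - z.1.2 0))
    fun_prop
  · show Continuous (fun z : (ℂ × (Fin 5 → ℂ)) × ℂ => z.1.2 3)
    fun_prop
  · show Continuous (fun z : (ℂ × (Fin 5 → ℂ)) × ℂ => z.1.2 4)
    fun_prop

theorem dpt_self (q : ℂ × (Fin 5 → ℂ)) : dpt q (q.2 0) = q.2 := by
  unfold dpt
  funext i
  fin_cases i <;> simp

theorem near_full {D : Set (Fin 5 → ℂ)} (hD : IsOpen D) {q0 : ℂ × (Fin 5 → ℂ)} (hq : ‖q0.2 0‖ < 1)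
    (h : ∀ ζ : ℂ, ‖ζ‖ ≤ 1 → dpt q0 ζ ∈ D) :
    ∀ᶠ q in 𝓝 q0, ‖q.2 0‖ < 1 ∧ ∀ ζ : ℂ, ‖ζ‖ ≤ 1 → dpt q ζ ∈ D := by
  have h1 : ∀ᶠ q : ℂ × (Fin 5 → ℂ) in 𝓝 q0, ‖q.2 0‖ < 1 := by
    have hc : Continuous (fun q : ℂ × (Fin 5 → ℂ) => ‖q.2 0‖) := by fun_prop
    exact hc.continuousAt.eventually (gt_mem_nhds hq)
  have h2 : ∀ᶠ q in 𝓝 q0, ∀ ζ ∈ closedBall (0 : ℂ) 1, dpt q ζ ∈ D := by
    apply (isCompact_closedBall (0 : ℂ) 1).eventually_forall_of_forall_eventually
    intro ζ hζ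
    have hmem : dpt q0 ζ ∈ D := h ζ (by simpa using hζ)
    exact dpt_cont.continuousAt.eventually (hD.mem_nhds hmem)
  filter_upwards [h1, h2] with q hq1 hq2
  exact ⟨hq1, fun ζ hζ => hq2 ζ (by simpa using hζ)⟩

/-- TARGET: continuation along a path of discs. -/
theorem path_cont {D : Set (Fin 5 → ℂ)} (hD : IsOpen D) (γ : ℝ → ℂ × (Fin 5 → ℂ))
    (hγ : ContinuousOn γ (Icc 0 1)) (hΩ : ∀ τ ∈ Icc (0 : ℝ) 1, γ τ ∈ Om D)
    (h0 : ∀ ζ : ℂ, ‖ζ‖ ≤ 1 → (![ζ, (γ 0).2 1, (γ 0).2 2 + (γ 0).1 * (ζ - (γ 0).2 0), (γ 0).2 3,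
      (γ 0).2 4] : Fin 5 → ℂ) ∈ D) :
    (∀ f, DifferentiableOn ℂ f D → EE f (γ 0).1 =ᶠ[𝓝 (γ 0).2] f) ∧
    ∀ τ ∈ Icc (0 : ℝ) 1, ∃ r : ℝ, 0 < r ∧ ∃ η : ℝ, 0 < η ∧
      (∀ f, DifferentiableOn ℂ f D → DifferentiableOn ℂ (EE f (γ τ).1) (ball (γ τ).2 r)) ∧
      ∀ τ' ∈ Icc (0 : ℝ) 1, |τ' - τ| < η → (γ τ').2 ∈ ball (γ τ).2 r ∧
        ∀ f, DifferentiableOn ℂ f D → EE f (γ τ').1 =ᶠ[𝓝 (γ τ').2] EE f (γ τ).1 := by
  have hγ0 : γ 0 ∈ Om D := hΩ 0 ⟨le_refl _, zero_le_one⟩
  have hfull := near_full hD hγ0.1 h0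
  have hΦ : ∀ f, DifferentiableOn ℂ f D → ∀ᶠ q : ℂ × (Fin 5 → ℂ) in 𝓝 (γ 0), EE f q.1 q.2 = f q.2 := by
    intro f hf
    filter_upwards [hfull] with q hq
    exact EE_cauchy hD hf q.1 q.2 hq.1 hq.2
  have hOmo := Om_open hD
  set Ω1 := connectedComponentIn (Om D) (γ 0) with hΩ1
  have hΩ1o : IsOpen Ω1 := hOmo.connectedComponentIn
  have hΩ1p : IsPreconnected Ω1 := isPreconnected_connectedComponentIn
  have hΩ1s : Ω1 ⊆ Om D := connectedComponentIn_subset _ _
  have himg : γ '' Icc (0 : ℝ) 1 ⊆ Ω1 := by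
    apply IsPreconnected.subset_connectedComponentIn
    · exact isPreconnected_Icc.image γ hγ
    · exact ⟨0, ⟨le_refl _, zero_le_one⟩, rfl⟩
    · rintro _ ⟨τ, hτ, rfl⟩
      exact hΩ τ hτ
  have hmem : ∀ τ ∈ Icc (0 : ℝ) 1, γ τ ∈ Ω1 := fun τ hτ => himg ⟨τ, hτ, rfl⟩
  have hΨ : ∀ f, DifferentiableOn ℂ f D → ∀ q ∈ Ω1,
      fderiv ℂ (fun q : ℂ × (Fin 5 → ℂ) => EE f q.1 q.2) q (1, 0) = 0 := by
    intro f hf
    have hd := EE_diff hD hf
    have hd2 := (PathAux.differentiableOn_fderiv_apply hOmo hd (1, 0)).mono hΩ1s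
    apply eqOn_zero hΩ1o hΩ1p hd2 (hmem 0 ⟨le_refl _, zero_le_one⟩)
    have e1 : (fun q : ℂ × (Fin 5 → ℂ) => EE f q.1 q.2) =ᶠ[𝓝 (γ 0)] fun q => f q.2 := hΦ f hf
    have e2 := e1.fderiv (𝕜 := ℂ)
    filter_upwards [e2, hfull] with q hq1 hq2
    rw [hq1]
    have hqD : q.2 ∈ D := by
      have := hq2.2 (q.2 0) hq2.1.le
      rwa [dpt_self] at this
    have h3 : HasFDerivAt f (fderiv ℂ f q.2) q.2 := (hf.differentiableAt (hD.mem_nhds hqD)).hasFDerivAt
    have h4 : HasFDerivAt (fun q : ℂ × (Fin 5 → ℂ) => f q.2)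
        ((fderiv ℂ f q.2).comp (ContinuousLinearMap.snd ℂ ℂ (Fin 5 → ℂ))) q :=
      h3.comp q hasFDerivAt_snd
    rw [h4.fderiv]
    simp
  constructor
  · intro f hf
    have hc : Tendsto (fun p : Fin 5 → ℂ => ((γ 0).1, p)) (𝓝 (γ 0).2) (𝓝 (γ 0)) := by
      have : Continuous (fun p : Fin 5 → ℂ => ((γ 0).1, p)) := by fun_prop
      exact this.continuousAt
    exact hc.eventually (hΦ f hf)
  · intro τ hτ
    obtain ⟨r, hr, hball⟩ := Metric.isOpen_iff.1 hΩ1o (γ τ) (hmem τ hτ)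
    have hbp : ∀ (v : ℂ) (p : Fin 5 → ℂ), v ∈ ball (γ τ).1 r → p ∈ ball (γ τ).2 r →
        (v, p) ∈ Ω1 := by
      intro v p hv hp
      apply hball
      have : (v, p) ∈ ball (γ τ).1 r ×ˢ ball (γ τ).2 r := ⟨hv, hp⟩
      rw [ball_prod_same] at this
      exact this
    have hcγ := hγ τ hτ
    rw [Metric.continuousWithinAt_iff] at hcγ
    obtain ⟨η, hη, hη2⟩ := hcγ r hr
    refine ⟨r, hr, η, hη, ?_, ?_⟩
    · intro f hf p hp
      have hd := EE_diff hD hf
      have hmm : ((γ τ).1, p) ∈ Om D := hΩ1s (hbp _ _ (mem_ball_self hr) hp)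
      have h1 : DifferentiableAt ℂ (fun q : ℂ × (Fin 5 → ℂ) => EE f q.1 q.2) ((γ τ).1, p) :=
        hd.differentiableAt (hOmo.mem_nhds hmm)
      have h2 : DifferentiableAt ℂ (fun p : Fin 5 → ℂ => ((γ τ).1, p)) p := by fun_prop
      have h3 := DifferentiableAt.comp (g := fun q : ℂ × (Fin 5 → ℂ) => EE f q.1 q.2) p h1 h2
      exact h3.differentiableWithinAt
    · intro τ' hτ' hd'
      have h1 : γ τ' ∈ ball (γ τ) r := by
        rw [mem_ball]
        exact hη2 hτ' (by rw [Real.dist_eq]; exact hd')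
      have h2 : γ τ' ∈ ball (γ τ).1 r ×ˢ ball (γ τ).2 r := by
        rw [ball_prod_same]; exact h1
      refine ⟨h2.2, ?_⟩
      intro f hf
      filter_upwards [isOpen_ball.mem_nhds h2.2] with p hp
      have hd := EE_diff hD hf
      have hder : ∀ v ∈ ball (γ τ).1 r, HasDerivAt (fun v => EE f v p) 0 v := by
        intro v hv
        have hm := hbp v p hv hp
        have h3 : DifferentiableAt ℂ (fun q : ℂ × (Fin 5 → ℂ) => EE f q.1 q.2) (v, p) :=
          hd.differentiableAt (hOmo.mem_nhds (hΩ1s hm))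
        have h4 : HasDerivAt (fun v : ℂ => (v, p)) ((1 : ℂ), (0 : Fin 5 → ℂ)) v :=
          (hasDerivAt_id v).prodMk (hasDerivAt_const v p)
        have h5 := h3.hasFDerivAt.comp_hasDerivAt v h4
        rw [hΨ f hf (v, p) hm] at h5
        exact h5
      exact isOpen_ball.is_const_of_deriv_eq_zero (convex_ball _ _).isPreconnected
        (fun v hv => (hder v hv).differentiableAt.differentiableWithinAt)
        (fun v hv => (hder v hv).deriv) h2.1 (mem_ball_self hr)

end Pool.Agent.Helper401.ENV.C4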