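import Mathlib
import Pool.Agent.Helper401.ENV.Defs

set_option autoImplicit false
namespace Pool.Agent.Helper401.ENV
open Complex Set Metric Filter Topology

noncomputable def FF (δ lam0 : ℝ) (p : Fin 5 → ℂ) : ℂ :=
  Complex.exp (δ * (p 0 * p 1 - (p 4 - lam0) ^ 2))

noncomputable def NN (c d ε : ℝ) (p : Fin 5 → ℂ) : ℂ :=
  -(2 * d * (((p 4 - c) ^ 2 + ε - p 0 * p 1) ^ (1 / 2 : ℂ) + p 4 - c))

noncomputable def hh (om δ lam0 : ℝ) (M : ℕ) (p : Fin 5 → ℂ) : ℂ :=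
  1 + I * om * (p 2 / p 0) * FF δ lam0 p / M

noncomputable def gg (om δ lam0 c d ε : ℝ) (M : ℕ) (p : Fin 5 → ℂ) : ℂ :=
  (1 + FF δ lam0 p * (p 3 - 1)) * (1 - (p 0 * p 1 / NN c d ε p) ^ M)
    + ((p 0 * p 1 + I * om * p 2 * p 1 * FF δ lam0 p / M) / NN c d ε p) ^ M

noncomputable def ff (om δ lam0 c d ε : ℝ) (M : ℕ) (p : Fin 5 → ℂ) : ℂ :=
  if (p 4).re < 9 / 20 then M * Complex.log (hh om δ lam0 M p)
    + Complex.log (gg om δ lam0 c d ε M p / (hh om δ lam0 M p) ^ M)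
  else Complex.log (gg om δ lam0 c d ε M p)

end Pool.Agent.Helper401.ENV
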