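import Mathlib
import Pool.Agent.Helper401.ENV.Defs
import Pool.Agent.Helper401.ENV.Defs2

set_option autoImplicit false
namespace Pool.Agent.Helper401.ENV.D1
open Complex Set Metric Filter Topology

theorem div_diff {E : Type*} [NormedAddCommGroup E] [NormedSpace ℂ E] {f g : E → ℂ} {p : E}
    (hf : DifferentiableAt ℂ f p) (hg : DifferentiableAt ℂ g p) (h : g p ≠ 0) :
    DifferentiableAt ℂ (fun x => f x / g x) p := by
  simp only [div_eq_mul_inv]
  have h1 : DifferentiableAt ℂ (fun x => (g x)⁻¹) p := by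
    have h2 : DifferentiableAt ℂ (fun z : ℂ => z⁻¹) (g p) := differentiableAt_inv h
    exact h2.comp p hg
  exact hf.mul h1

theorem FF_diff (δ lam0 : ℝ) (p : Fin 5 → ℂ) : DifferentiableAt ℂ (FF δ lam0) p := by
  unfold FF
  fun_prop

theorem NN_diff (c d ε : ℝ) (p : Fin 5 → ℂ) (h : 0 < ((p 4 - c) ^ 2 + ε - p 0 * p 1).re) :
    DifferentiableAt ℂ (NN c d ε) p := by
  unfold NN
  have h1 : DifferentiableAt ℂ (fun p : Fin 5 → ℂ => (p 4 - (c : ℂ)) ^ 2 + ε - p 0 * p 1) p := by
    fun_prop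
  have h2 : DifferentiableAt ℂ
      (fun p : Fin 5 → ℂ => ((p 4 - (c : ℂ)) ^ 2 + ε - p 0 * p 1) ^ (1 / 2 : ℂ)) p :=
    h1.cpow (differentiableAt_const _) (Or.inl h)
  fun_prop

theorem hh_diff (om δ lam0 : ℝ) (M : ℕ) (p : Fin 5 → ℂ) (h : p 0 ≠ 0) :
    DifferentiableAt ℂ (hh om δ lam0 M) p := by
  unfold hh
  have h1 := FF_diff δ lam0 p
  have h2 : DifferentiableAt ℂ (fun p : Fin 5 → ℂ => p 2 / p 0) p := by
    apply div_diff
    · fun_prop
    · fun_prop
    · exact h
  fun_prop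

theorem gg_diff (om δ lam0 c d ε : ℝ) (M : ℕ) (p : Fin 5 → ℂ)
    (h : 0 < ((p 4 - c) ^ 2 + ε - p 0 * p 1).re) (hN : NN c d ε p ≠ 0) :
    DifferentiableAt ℂ (gg om δ lam0 c d ε M) p := by
  unfold gg
  have h1 := FF_diff δ lam0 p
  have h2 := NN_diff c d ε p h
  have h3 : DifferentiableAt ℂ (fun p : Fin 5 → ℂ => p 0 * p 1 / NN c d ε p) p := by
    apply div_diff
    · fun_prop
    · exact h2
    · exact hN
  have h4 : DifferentiableAt ℂ (fun p : Fin 5 → ℂ =>
      (p 0 * p 1 + I * om * p 2 * p 1 * FF δ lam0 p / M) / NN c d ε p) p := by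
    apply div_diff
    · fun_prop
    · exact h2
    · exact hN
  fun_prop

theorem gg_eq (om δ lam0 c d ε : ℝ) (M : ℕ) (p : Fin 5 → ℂ) (h0 : p 0 ≠ 0)
    (hh0 : hh om δ lam0 M p ≠ 0) :
    gg om δ lam0 c d ε M p / (hh om δ lam0 M p) ^ M - 1 =
      ((1 + FF δ lam0 p * (p 3 - 1)) / (hh om δ lam0 M p) ^ M - 1)
        * (1 - (p 0 * p 1 / NN c d ε p) ^ M) := by
  have e1 : (p 0 * p 1 + I * om * p 2 * p 1 * FF δ lam0 p / M) / NN c d ε p =
      (p 0 * p 1 / NN c d ε p) * hh om δ lam0 M p := by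
    unfold hh
    have e2 : p 0 * p 1 * (1 + I * om * (p 2 / p 0) * FF δ lam0 p / M) =
        p 0 * p 1 + I * om * p 2 * p 1 * FF δ lam0 p / M := by
      have e3 : p 0 * (p 2 / p 0) = p 2 := by field_simp
      linear_combination (p 1 * I * om * FF δ lam0 p / M) * e3
    rw [← e2]
    ring
  have hpow : (hh om δ lam0 M p) ^ M ≠ 0 := pow_ne_zero _ hh0
  unfold gg
  rw [e1, mul_pow]
  generalize (hh om δ lam0 M p) ^ M = H at *
  field_simp
  ring

/-- TARGET: the two branches glue to a holomorphic function. -/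
theorem ff_diff (om δ lam0 c d ε : ℝ) (M : ℕ) (D : Set (Fin 5 → ℂ)) (hD : IsOpen D)
    (h1 : ∀ p ∈ D, 0 < ((p 4 - c) ^ 2 + ε - p 0 * p 1).re)
    (h2 : ∀ p ∈ D, NN c d ε p ≠ 0)
    (h3 : ∀ p ∈ D, (p 4).re ≤ 1 / 2 → p 0 ≠ 0 ∧ ‖hh om δ lam0 M p - 1‖ < 1 ∧
      ‖((1 + FF δ lam0 p * (p 3 - 1)) / (hh om δ lam0 M p) ^ M - 1)
        * (1 - (p 0 * p 1 / NN c d ε p) ^ M)‖ < 1)
    (h4 : ∀ p ∈ D, 2 / 5 ≤ (p 4).re → ‖gg om δ lam0 c d ε M p - 1‖ ≤ 1 / 2)
    (h5 : ∀ p ∈ D, 2 / 5 ≤ (p 4).re → (p 4).re ≤ 1 / 2 →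
      ‖(M : ℂ) * Complex.log (hh om δ lam0 M p)‖ ≤ 1 / 4 ∧
      ‖((1 + FF δ lam0 p * (p 3 - 1)) / (hh om δ lam0 M p) ^ M - 1)
        * (1 - (p 0 * p 1 / NN c d ε p) ^ M)‖ ≤ 1 / 4) :
    DifferentiableOn ℂ (ff om δ lam0 c d ε M) D := by
  have key : ∀ p ∈ D, (p 4).re ≤ 1 / 2 → hh om δ lam0 M p ≠ 0 := by
    intro p hp hre h0
    have := (h3 p hp hre).2.1
    rw [h0] at this
    norm_num at this
  have mem1 : ∀ z : ℂ, ‖z - 1‖ < 1 → z ∈ slitPlane := by
    intro z hz
    left
    have h1 := Complex.abs_re_le_norm (z - 1)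
    have h2 := neg_abs_le (z - 1).re
    simp only [sub_re, one_re] at h1 h2
    linarith
  intro p hp
  apply DifferentiableAt.differentiableWithinAt
  have hcont : Continuous (fun p : Fin 5 → ℂ => (p 4).re) := by fun_prop
  by_cases hlt : (p 4).re < 9 / 20
  · -- first branch
    have hev : ff om δ lam0 c d ε M =ᶠ[𝓝 p] fun p => M * Complex.log (hh om δ lam0 M p)
        + Complex.log (gg om δ lam0 c d ε M p / (hh om δ lam0 M p) ^ M) := by
      have : ∀ᶠ q in 𝓝 p, (q 4).re < 9 / 20 := hcont.continuousAt.eventually_lt_const hlt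
      filter_upwards [this] with q hq
      unfold ff
      rw [if_pos hq]
    apply hev.symm.differentiableAt_iff.1
    have hre : (p 4).re ≤ 1 / 2 := by linarith
    obtain ⟨h0, hh1, hg1⟩ := h3 p hp hre
    have hhd := hh_diff om δ lam0 M p h0
    have hgd := gg_diff om δ lam0 c d ε M p (h1 p hp) (h2 p hp)
    have hh0 := key p hp hre
    apply DifferentiableAt.add
    · apply DifferentiableAt.const_mul
      exact hhd.clog (mem1 _ hh1)
    · apply DifferentiableAt.clog
      · exact div_diff hgd (hhd.fun_pow M) (pow_ne_zero _ hh0)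
      · apply mem1
        rw [gg_eq om δ lam0 c d ε M p h0 hh0]
        exact hg1
  · have hge : 9 / 20 ≤ (p 4).re := not_lt.1 hlt
    have hev : ff om δ lam0 c d ε M =ᶠ[𝓝 p] fun p => Complex.log (gg om δ lam0 c d ε M p) := by
      have e1 : ∀ᶠ q in 𝓝 p, 2 / 5 < (q 4).re :=
        hcont.continuousAt.eventually_const_lt (by norm_num; linarith)
      have e2 : ∀ᶠ q in 𝓝 p, q ∈ D := hD.mem_nhds hp
      filter_upwards [e1, e2] with q hq hqD
      unfold ff
      split_ifs with hq2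
      · have hre : (q 4).re ≤ 1 / 2 := by linarith
        obtain ⟨h0, hh1, hg1⟩ := h3 q hqD hre
        obtain ⟨h51, h52⟩ := h5 q hqD hq.le hre
        have hh0 := key q hqD hre
        have hq3 := gg_eq om δ lam0 c d ε M q h0 hh0
        have hne1 : gg om δ lam0 c d ε M q / (hh om δ lam0 M q) ^ M ≠ 0 := by
          intro hz
          rw [hz] at hq3
          rw [← hq3] at h52
          norm_num at h52
        have hexp : Complex.exp (M * Complex.log (hh om δ lam0 M q)
            + Complex.log (gg om δ lam0 c d ε M q / (hh om δ lam0 M q) ^ M)) =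
            gg om δ lam0 c d ε M q := by
          rw [Complex.exp_add, Complex.exp_log hne1, Complex.exp_nat_mul, Complex.exp_log hh0]
          field_simp
        have him1 : |((M : ℂ) * Complex.log (hh om δ lam0 M q)).im| ≤ 1 / 4 :=
          (Complex.abs_im_le_norm _).trans h51
        have him2 : |(Complex.log (gg om δ lam0 c d ε M q / (hh om δ lam0 M q) ^ M)).im|
            ≤ Real.pi / 2 := by
          rw [Complex.log_im, Complex.abs_arg_le_pi_div_two_iff]
          have h7 := Complex.abs_re_le_norm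
            (gg om δ lam0 c d ε M q / (hh om δ lam0 M q) ^ M - 1)
          rw [hq3] at h7
          have h8 := h7.trans h52
          rw [← hq3] at h8
          have h9 := neg_abs_le (gg om δ lam0 c d ε M q / (hh om δ lam0 M q) ^ M - 1).re
          simp only [sub_re, one_re] at h8 h9
          linarith
        have hpi := Real.pi_gt_three
        have hab := abs_le.1 him1
        have hcd := abs_le.1 him2
        have hfin := Complex.log_exp (x := M * Complex.log (hh om δ lam0 M q)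
            + Complex.log (gg om δ lam0 c d ε M q / (hh om δ lam0 M q) ^ M))
          (by rw [add_im]; linarith) (by rw [add_im]; linarith)
        rw [hexp] at hfin
        exact hfin.symm
      · rfl
    apply hev.symm.differentiableAt_iff.1
    have hgd := gg_diff om δ lam0 c d ε M p (h1 p hp) (h2 p hp)
    apply hgd.clog
    apply mem1
    have := h4 p hp (by linarith)
    linarith

end Pool.Agent.Helper401.ENV.D1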