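import Mathlib
import Pool.Agent.Helper401.ENV.Defs

set_option autoImplicit false
namespace Pool.Agent.Helper401.ENV.Q1
open Complex

theorem h441_h (om : ℝ) (M : ℕ) (F v : ℂ) (hom : 0 ≤ om) :
    ‖I * om * v * F / M‖ = om * ‖v‖ * ‖F‖ / M := by
  rw [norm_div, norm_mul, norm_mul, norm_mul, Complex.norm_I, one_mul, Complex.norm_natCast,
    Complex.norm_real, Real.norm_of_nonneg hom]

theorem h441_exp1 {t : ℝ} (h0 : 0 ≤ t) (h1 : t ≤ 1 / 5) : Real.exp (-(5 * t / 4)) ≤ 1 - t := by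
  rw [Real.exp_neg, inv_le_comm₀ (Real.exp_pos _) (by linarith)]
  have h2 := Real.add_one_le_exp (5 * t / 4)
  refine le_trans ?_ h2
  rw [inv_le_iff_one_le_mul₀ (by linarith)]
  nlinarith

theorem h441_pow (h : ℂ) (n : ℕ) : ‖(1 + h) ^ n - 1‖ ≤ (1 + ‖h‖) ^ n - 1 := by
  induction n with
  | zero => simp
  | succ n ih =>
    have h1 : (1 + h) ^ (n + 1) - 1 = ((1 + h) ^ n - 1) * (1 + h) + h := by ring
    rw [h1]
    refine (norm_add_le _ _).trans ?_
    rw [norm_mul]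
    have h2 : ‖1 + h‖ ≤ 1 + ‖h‖ := by
      refine (norm_add_le _ _).trans ?_
      rw [norm_one]
    have h3 : 0 ≤ ‖(1 + h) ^ n - 1‖ := norm_nonneg _
    have h4 : ‖(1 + h) ^ n - 1‖ * ‖1 + h‖ ≤ ((1 + ‖h‖) ^ n - 1) * (1 + ‖h‖) :=
      mul_le_mul ih h2 (norm_nonneg _) (h3.trans ih)
    have h5 : (1 + ‖h‖) ^ (n + 1) - 1 = ((1 + ‖h‖) ^ n - 1) * (1 + ‖h‖) + ‖h‖ := by ring
    rw [h5]
    linarith

theorem h441_exp2 : Real.exp (1 / 20) ≤ 20 / 19 := by
  have h1 := Real.add_one_le_exp (-(1 / 20) : ℝ)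
  rw [Real.exp_neg, le_inv_comm₀ (by norm_num) (Real.exp_pos _)] at h1
  refine h1.trans ?_
  norm_num


/-- (B1) -/
theorem q_deep (om : ℝ) (M : ℕ) (F v s Y : ℂ) (hom : 1 ≤ om) (hM : 1000 * om ^ 2 ≤ M)
    (hF : ‖F‖ ≤ 2) (hv : ‖v‖ ≤ 2) (hs : ‖s‖ ≤ 2)
    (hY : ‖1 - Y‖ ≤ Real.exp (-5 * om) / 16) :
    (1 + I * om * v * F / M) ^ M ≠ 0 ∧
    ‖((1 + F * (s - 1)) / (1 + I * om * v * F / M) ^ M - 1) * (1 - Y)‖ < 1 := by
  have hM0 : (0 : ℝ) < M := by nlinarith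
  have hP : Real.exp (-5 * om) ≤ ‖(1 + I * om * v * F / M) ^ M‖ := by
    rw [norm_pow]
    have h1 : ‖I * om * v * F / M‖ ≤ 4 * om / M := by
      rw [h441_h om M F v (by linarith)]
      have h2 : ‖v‖ * ‖F‖ ≤ 2 * 2 := mul_le_mul hv hF (norm_nonneg _) (by norm_num)
      have h3 : om * ‖v‖ * ‖F‖ ≤ 4 * om := by nlinarith
      gcongr
    have h4 : 4 * om / M ≤ 1 / 5 := by
      rw [div_le_iff₀ hM0]
      nlinarith
    have h5 : 0 ≤ 4 * om / M := by positivity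
    have h6 : 1 - 4 * om / M ≤ ‖1 + I * om * v * F / M‖ := by
      have h7 := norm_sub_norm_le (1 : ℂ) (-(I * om * v * F / M))
      rw [norm_one, norm_neg, sub_neg_eq_add] at h7
      linarith
    have h8 := h441_exp1 h5 h4
    have h9 : Real.exp (-5 * om) = (Real.exp (-(5 * (4 * om / M) / 4))) ^ M := by
      rw [← Real.exp_nat_mul]
      congr 1
      field_simp
    rw [h9]
    exact pow_le_pow_left₀ (Real.exp_pos _).le (h8.trans h6) _
  have hpos : 0 < ‖(1 + I * om * v * F / M) ^ M‖ := lt_of_lt_of_le (Real.exp_pos _) hP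
  refine ⟨norm_pos_iff.mp hpos, ?_⟩
  have hs1 : ‖s - 1‖ ≤ 3 := by
    refine (norm_sub_le _ _).trans ?_
    rw [norm_one]
    linarith
  have hsig : ‖1 + F * (s - 1)‖ ≤ 7 := by
    refine (norm_add_le _ _).trans ?_
    rw [norm_one, norm_mul]
    have : ‖F‖ * ‖s - 1‖ ≤ 2 * 3 := mul_le_mul hF hs1 (norm_nonneg _) (by norm_num)
    linarith
  have hq : ‖(1 + F * (s - 1)) / (1 + I * om * v * F / M) ^ M - 1‖ ≤ 8 * Real.exp (5 * om) := by
    refine (norm_sub_le _ _).trans ?_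
    rw [norm_one, norm_div]
    have h1 : ‖1 + F * (s - 1)‖ / ‖(1 + I * om * v * F / M) ^ M‖ ≤ 7 / Real.exp (-5 * om) :=
      div_le_div₀ (by norm_num) hsig (Real.exp_pos _) hP
    have h2 : 7 / Real.exp (-5 * om) = 7 * Real.exp (5 * om) := by
      rw [show -5 * om = -(5 * om) by ring, Real.exp_neg, div_inv_eq_mul]
    have h3 : 1 ≤ Real.exp (5 * om) := Real.one_le_exp (by linarith)
    linarith
  rw [norm_mul]
  have h4 : ‖(1 + F * (s - 1)) / (1 + I * om * v * F / M) ^ M - 1‖ * ‖1 - Y‖ ≤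
      8 * Real.exp (5 * om) * (Real.exp (-5 * om) / 16) :=
    mul_le_mul hq hY (norm_nonneg _) (by positivity)
  have h5 : 8 * Real.exp (5 * om) * (Real.exp (-5 * om) / 16) = 1 / 2 := by
    have : Real.exp (5 * om) * Real.exp (-5 * om) = 1 := by
      rw [← Real.exp_add]
      simp
    linear_combination (1 / 2) * this
  linarith

/-- (B2) core -/
theorem q_core (om : ℝ) (M : ℕ) (F v s Y : ℂ) (hom : 1 ≤ om) (hM : 1000 * om ^ 2 ≤ M)
    (hF : ‖F‖ ≤ 2) (hv : ‖v‖ ≤ 1 / (40 * om)) (hs : ‖s - 1‖ ≤ 1 / 10)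
    (hY : ‖Y‖ ≤ 11 / 10) :
    ‖((1 + F * (s - 1)) / (1 + I * om * v * F / M) ^ M - 1) * (1 - Y)‖ < 1 := by
  have hM0 : (0 : ℝ) < M := by nlinarith
  have hP1 : ‖(1 + I * om * v * F / M) ^ M - 1‖ ≤ 1 / 19 := by
    refine (h441_pow _ _).trans ?_
    have h1 : ‖I * om * v * F / M‖ ≤ 1 / 20 / M := by
      rw [h441_h om M F v (by linarith)]
      have h2 : ‖v‖ * ‖F‖ ≤ 1 / (40 * om) * 2 := mul_le_mul hv hF (norm_nonneg _) (by positivity)
      have h3 : om * ‖v‖ * ‖F‖ ≤ 1 / 20 := by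
        have h4 : om * (‖v‖ * ‖F‖) ≤ om * (1 / (40 * om) * 2) :=
          mul_le_mul_of_nonneg_left h2 (by linarith)
        have h5 : om * (1 / (40 * om) * 2) = 1 / 20 := by
          have : om ≠ 0 := by linarith
          field_simp
          norm_num
        rw [mul_assoc]
        linarith
      gcongr
    have h6 : (1 + ‖I * om * v * F / M‖) ^ M ≤ Real.exp (1 / 20) := by
      have h7 : 1 + ‖I * om * v * F / M‖ ≤ Real.exp (1 / 20 / M) := by
        have := Real.add_one_le_exp (1 / 20 / (M : ℝ))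
        linarith
      have h8 : Real.exp (1 / 20) = Real.exp (1 / 20 / M) ^ M := by
        rw [← Real.exp_nat_mul]
        congr 1
        field_simp
      rw [h8]
      exact pow_le_pow_left₀ (by positivity) h7 _
    have := h441_exp2
    linarith
  have hPn : 18 / 19 ≤ ‖(1 + I * om * v * F / M) ^ M‖ := by
    have h1 := norm_sub_norm_le (1 : ℂ) (1 - (1 + I * om * v * F / M) ^ M)
    rw [norm_one, sub_sub_cancel, norm_sub_rev] at h1
    linarith
  have hpos : 0 < ‖(1 + I * om * v * F / M) ^ M‖ := by linarith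
  have hPne : (1 + I * om * v * F / M) ^ M ≠ 0 := norm_pos_iff.mp hpos
  have hsig : ‖F * (s - 1)‖ ≤ 1 / 5 := by
    rw [norm_mul]
    have : ‖F‖ * ‖s - 1‖ ≤ 2 * (1 / 10) := mul_le_mul hF hs (norm_nonneg _) (by norm_num)
    linarith
  have hq : ‖(1 + F * (s - 1)) / (1 + I * om * v * F / M) ^ M - 1‖ ≤ 4 / 15 := by
    have h1 : (1 + F * (s - 1)) / (1 + I * om * v * F / M) ^ M - 1 =
        (F * (s - 1) - ((1 + I * om * v * F / M) ^ M - 1)) / (1 + I * om * v * F / M) ^ M := by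
      rw [div_sub_one hPne]
      congr 1
      ring
    rw [h1, norm_div, div_le_iff₀ hpos]
    have h2 := norm_sub_le (F * (s - 1)) ((1 + I * om * v * F / M) ^ M - 1)
    linarith
  have hY1 : ‖1 - Y‖ ≤ 21 / 10 := by
    refine (norm_sub_le _ _).trans ?_
    rw [norm_one]
    linarith
  rw [norm_mul]
  have h4 : ‖(1 + F * (s - 1)) / (1 + I * om * v * F / M) ^ M - 1‖ * ‖1 - Y‖ ≤
      4 / 15 * (21 / 10) := mul_le_mul hq hY1 (norm_nonneg _) (by norm_num)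
  linarith


end Pool.Agent.Helper401.ENV.Q1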