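import Mathlib
import Pool.Agent.Helper401.ENV.Defs

set_option autoImplicit false
namespace Pool.Agent.Helper401.ENV.Q2
open Complex

theorem q2_pow (h : ℂ) (n : ℕ) : ‖(1 + h) ^ n - 1‖ ≤ (1 + ‖h‖) ^ n - 1 := by
  induction n with
  | zero => simp
  | succ n ih =>
    have h1 : (1 + h) ^ (n + 1) - 1 = ((1 + h) ^ n - 1) * (1 + h) + h := by ring
    rw [h1]
    refine (norm_add_le _ _).trans ?_
    rw [norm_mul]
    have h2 : ‖1 + h‖ ≤ 1 + ‖h‖ := by
      refine (norm_add_le _ _).trans ?_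
      rw [norm_one]
    have h3 : 0 ≤ ‖(1 + h) ^ n - 1‖ := norm_nonneg _
    have h4 : ‖(1 + h) ^ n - 1‖ * ‖1 + h‖ ≤ ((1 + ‖h‖) ^ n - 1) * (1 + ‖h‖) :=
      mul_le_mul ih h2 (norm_nonneg _) (h3.trans ih)
    have h5 : (1 + ‖h‖) ^ (n + 1) - 1 = ((1 + ‖h‖) ^ n - 1) * (1 + ‖h‖) + ‖h‖ := by ring
    rw [h5]
    linarith

theorem q2_exp {x : ℝ} (h1 : x < 1) : Real.exp x ≤ 1 / (1 - x) := by
  have h := Real.add_one_le_exp (-x)
  rw [Real.exp_neg, le_inv_comm₀ (by linarith) (Real.exp_pos _)] at h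
  rw [one_div]
  refine h.trans (le_of_eq ?_)
  congr 1
  ring

theorem q2_pow_exp {x : ℝ} (hx : 0 ≤ x) (n : ℕ) : (1 + x) ^ n ≤ Real.exp (n * x) := by
  rw [Real.exp_nat_mul]
  exact pow_le_pow_left₀ (by linarith) (by linarith [Real.add_one_le_exp x]) n

/-- (B2) tube -/
theorem q_tube (om t : ℝ) (M : ℕ) (F v s Y : ℂ) (hom : 1 ≤ om) (hM : 1000 * om ^ 2 ≤ M)
    (ht : |t| ≤ 3) (hF : ‖F - 1‖ ≤ 1 / (200 * om)) (hv : ‖v - t‖ ≤ 1 / (40 * om)) (hs2 : ‖s‖ ≤ 2)
    (hs : ‖s - Complex.exp (I * (M * Real.arctan (om * t / M)))‖ ≤ 1 / 10)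
    (hY : ‖Y‖ ≤ 11 / 10) :
    ‖((1 + F * (s - 1)) / (1 + I * om * v * F / M) ^ M - 1) * (1 - Y)‖ < 1 := by
  have hMr : (0 : ℝ) < M := by nlinarith
  have hMc : (M : ℂ) ≠ 0 := by
    have : (M : ℝ) ≠ 0 := hMr.ne'
    exact_mod_cast this
  have ht2 : t ^ 2 ≤ 9 := by
    have := abs_le.1 ht
    nlinarith
  set th : ℝ := om * t / M with hth
  set e := Complex.exp (I * (M * Real.arctan th)) with he
  have hr : 0 < Real.sqrt (1 + th ^ 2) := Real.sqrt_pos.2 (by positivity)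
  set r := Real.sqrt (1 + th ^ 2) with hrd
  have hen : ‖e‖ = 1 := by
    rw [he, show (I * (M * Real.arctan th) : ℂ) = ((M * Real.arctan th : ℝ) : ℂ) * I by
      push_cast; ring]
    exact Complex.norm_exp_ofReal_mul_I _
  have hpol1 : (1 + I * th : ℂ) = (r : ℂ) * Complex.exp (I * Real.arctan th) := by
    have hrc : (r : ℂ) ≠ 0 := by exact_mod_cast hr.ne'
    rw [mul_comm I (Real.arctan th : ℂ), Complex.exp_mul_I, ← Complex.ofReal_cos,
      ← Complex.ofReal_sin, Real.cos_arctan, Real.sin_arctan, ← hrd]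
    push_cast
    field_simp
  have hpol : (1 + I * th : ℂ) ^ M = ((r ^ M : ℝ) : ℂ) * e := by
    rw [hpol1, mul_pow, ← Complex.exp_nat_mul, he]
    push_cast
    congr 2
    ring
  have hr1 : 1 ≤ r ^ M := by
    apply one_le_pow₀
    rw [hrd]
    exact Real.one_le_sqrt.2 (by nlinarith [sq_nonneg th])
  have hr2 : r ^ M ≤ 1005 / 1000 := by
    have h1 : r ≤ 1 + th ^ 2 / 2 := by
      rw [hrd]
      apply Real.sqrt_le_iff.2
      constructor
      · positivity
      · nlinarith [sq_nonneg (th ^ 2)]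
    have h2 : (M : ℝ) * (th ^ 2 / 2) ≤ 9 / 2000 := by
      have h3 : (M : ℝ) * (th ^ 2 / 2) = om ^ 2 * t ^ 2 / (2 * M) := by
        rw [hth]; field_simp
      rw [h3, div_le_div_iff₀ (by positivity) (by norm_num)]
      nlinarith [sq_nonneg om]
    calc r ^ M ≤ (1 + th ^ 2 / 2) ^ M := pow_le_pow_left₀ hr.le h1 M
      _ ≤ Real.exp (M * (th ^ 2 / 2)) := q2_pow_exp (by positivity) M
      _ ≤ Real.exp (9 / 2000) := Real.exp_le_exp.2 h2
      _ ≤ 1 / (1 - 9 / 2000) := q2_exp (by norm_num)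
      _ ≤ _ := by norm_num
  -- the ratio
  have hn1 : 1 ≤ ‖(1 + I * th : ℂ)‖ := by
    rw [hpol1, norm_mul, mul_comm I (Real.arctan th : ℂ), Complex.norm_exp_ofReal_mul_I, mul_one,
      Complex.norm_real, Real.norm_of_nonneg hr.le, hrd]
    exact Real.one_le_sqrt.2 (by nlinarith [sq_nonneg th])
  have hn0 : (1 + I * th : ℂ) ≠ 0 := by
    intro h
    rw [h, norm_zero] at hn1
    linarith
  have hvF : ‖v * F - t‖ ≤ 41 / 1000 / om := by
    have h1 : v * F - t = (v - t) * F + t * (F - 1) := by ring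
    have hF2 : ‖F‖ ≤ 1 + 1 / 200 := by
      have h2 : ‖F‖ ≤ ‖F - 1‖ + ‖(1 : ℂ)‖ := by
        have := norm_add_le (F - 1) 1
        rwa [sub_add_cancel] at this
      rw [norm_one] at h2
      have h3 : 1 / (200 * om) ≤ 1 / 200 := by
        apply one_div_le_one_div_of_le <;> linarith
      linarith
    have h4 : ‖(v - t) * F‖ ≤ 1 / (40 * om) * (1 + 1 / 200) := by
      rw [norm_mul]
      exact mul_le_mul hv hF2 (norm_nonneg _) (by positivity)
    have h5 : ‖(t : ℂ) * (F - 1)‖ ≤ 3 * (1 / (200 * om)) := by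
      rw [norm_mul, Complex.norm_real, Real.norm_eq_abs]
      exact mul_le_mul ht hF (norm_nonneg _) (by norm_num)
    rw [h1]
    refine (norm_add_le _ _).trans ((add_le_add h4 h5).trans ?_)
    rw [show 1 / (40 * om) * (1 + 1 / 200) + 3 * (1 / (200 * om)) = (1 / 40 * (1 + 1 / 200)
      + 3 / 200) / om by field_simp]
    apply div_le_div_of_nonneg_right _ (by linarith)
    norm_num
  set h : ℂ := I * om * (v * F - t) / M / (1 + I * th) with hh
  have hfac : (1 + I * om * v * F / M : ℂ) = (1 + I * th) * (1 + h) := by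
    rw [hh, mul_add, mul_one, mul_div_cancel₀ _ hn0, hth]
    push_cast
    ring
  have hhn : (M : ℝ) * ‖h‖ ≤ 41 / 1000 := by
    rw [hh, norm_div, norm_div, norm_mul, norm_mul, Complex.norm_I, one_mul, Complex.norm_real,
      Complex.norm_natCast, Real.norm_of_nonneg (by linarith : 0 ≤ om)]
    have h1 : om * ‖v * F - t‖ ≤ 41 / 1000 := by
      have := mul_le_mul_of_nonneg_left hvF (by linarith : 0 ≤ om)
      refine this.trans (le_of_eq ?_)
      field_simp
    have h2 : (M : ℝ) * (om * ‖v * F - t‖ / M / ‖1 + I * th‖) = om * ‖v * F - t‖ / ‖1 + I * th‖ := by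
      field_simp
    rw [h2]
    exact (div_le_self (by positivity) hn1).trans h1
  have hq : ‖(1 + h) ^ M - 1‖ ≤ 43 / 1000 := by
    have h1 := q2_pow h M
    have h2 := q2_pow_exp (norm_nonneg h) M
    have h3 := Real.exp_le_exp.2 hhn
    have h4 : Real.exp (41 / 1000) ≤ 1 / (1 - 41 / 1000) := q2_exp (by norm_num)
    have h5 : (1 / (1 - 41 / 1000) : ℝ) ≤ 1043 / 1000 := by norm_num
    linarith
  set P := (1 + I * om * v * F / M : ℂ) ^ M with hP
  have hPe : P = ((r ^ M : ℝ) : ℂ) * e * (1 + h) ^ M := by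
    rw [hP, hfac, mul_pow, hpol]
  have hPe2 : ‖P - e‖ ≤ 49 / 1000 := by
    have h1 : P - e = e * ((((r ^ M : ℝ) : ℂ) - 1) + ((r ^ M : ℝ) : ℂ) * ((1 + h) ^ M - 1)) := by
      rw [hPe]; ring
    rw [h1, norm_mul, hen, one_mul]
    refine (norm_add_le _ _).trans ?_
    have h2 : ‖((r ^ M : ℝ) : ℂ) - 1‖ ≤ 5 / 1000 := by
      rw [show ((r ^ M : ℝ) : ℂ) - 1 = ((r ^ M - 1 : ℝ) : ℂ) by push_cast; ring, Complex.norm_real,
        Real.norm_of_nonneg (by linarith)]
      linarith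
    have h3 : ‖((r ^ M : ℝ) : ℂ) * ((1 + h) ^ M - 1)‖ ≤ 1005 / 1000 * (43 / 1000) := by
      rw [norm_mul, Complex.norm_real, Real.norm_of_nonneg (by linarith)]
      exact mul_le_mul hr2 hq (norm_nonneg _) (by norm_num)
    refine (add_le_add h2 h3).trans ?_
    norm_num
  have hPn : 951 / 1000 ≤ ‖P‖ := by
    have h1 : ‖e‖ ≤ ‖e - P‖ + ‖P‖ := by
      have := norm_add_le (e - P) P
      rwa [sub_add_cancel] at this
    rw [hen, norm_sub_rev] at h1
    linarith
  have hP0 : P ≠ 0 := by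
    intro h
    rw [h, norm_zero] at hPn
    linarith
  have hσ : ‖1 + F * (s - 1) - P‖ ≤ 164 / 1000 := by
    have h1 : 1 + F * (s - 1) - P = (s - e) + (F - 1) * (s - 1) - (P - e) := by ring
    rw [h1]
    have h2 : ‖(F - 1) * (s - 1)‖ ≤ 1 / 200 * 3 := by
      rw [norm_mul]
      refine mul_le_mul (hF.trans ?_) ?_ (norm_nonneg _) (by norm_num)
      · apply one_div_le_one_div_of_le <;> linarith
      · refine (norm_sub_le _ _).trans ?_
        rw [norm_one]
        linarith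
    have h3 := norm_sub_le ((s - e) + (F - 1) * (s - 1)) (P - e)
    have h4 := norm_add_le (s - e) ((F - 1) * (s - 1))
    linarith
  have hfin : ‖(1 + F * (s - 1)) / P - 1‖ ≤ 1 / 5 := by
    rw [show (1 + F * (s - 1)) / P - 1 = (1 + F * (s - 1) - P) / P by field_simp, norm_div,
      div_le_iff₀ (by linarith)]
    linarith
  rw [norm_mul]
  have h1Y : ‖1 - Y‖ ≤ 21 / 10 := by
    refine (norm_sub_le _ _).trans ?_
    rw [norm_one]
    linarith
  calc ‖(1 + F * (s - 1)) / P - 1‖ * ‖1 - Y‖ ≤ 1 / 5 * (21 / 10) :=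
        mul_le_mul hfin h1Y (norm_nonneg _) (by norm_num)
    _ < 1 := by norm_num

end Pool.Agent.Helper401.ENV.Q2
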