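import Mathlib
import Pool.Agent.Helper401.ENV.Defs
import Pool.Agent.Helper401.ENV.A1
import Pool.Agent.Helper401.ENV.A2
import Pool.Agent.Helper401.ENV.Q1
import Pool.Agent.Helper401.ENV.Q2

set_option autoImplicit false
namespace Pool.Agent.Helper401.ENV.E1
open Complex
open Pool.Agent.Helper401.ENV.A1 (rad_pos)
open Pool.Agent.Helper401.ENV.A2 (near)
open Pool.Agent.Helper401.ENV.Q1 (q_deep q_core)
open Pool.Agent.Helper401.ENV.Q2 (q_tube)

/-- TARGET 1: size of the separating exponential -/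
theorem normF (lam0 c δ ε e : ℝ) (l G : ℂ) (hδ : 0 < δ) (hc : lam0 ≤ c)
    (h1 : G.re + 200 * ‖G‖ ^ 2 + 400 * l.im ^ 2 < e)
    (h2 : e ≤ (ε + (max (l.re - c) 0) ^ 2) / 4) :
    ‖Complex.exp (δ * (G - (l - lam0) ^ 2))‖ ≤
      Real.exp (δ * (ε / 4 - 3 / 4 * (l.re - lam0) ^ 2 - 399 * l.im ^ 2 - 200 * ‖G‖ ^ 2)) := by
  rw [Complex.norm_exp]
  apply Real.exp_le_exp.mpr
  have h3 : ((δ:ℂ) * (G - (l - lam0) ^ 2)).re = δ * (G.re - ((l.re - lam0) ^ 2 - l.im ^ 2)) := by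
    rw [Complex.re_ofReal_mul]
    congr 1
    simp [pow_two]
  rw [h3]
  apply mul_le_mul_of_nonneg_left _ hδ.le
  have h4 : (max (l.re - c) 0) ^ 2 ≤ (l.re - lam0) ^ 2 := by
    rcases le_total (l.re - c) 0 with h | h
    · rw [max_eq_right h, zero_pow two_ne_zero]; exact sq_nonneg _
    · rw [max_eq_left h]
      apply pow_le_pow_left₀ h
      linarith
  nlinarith

theorem pow_sub_one_le (y : ℂ) (M : ℕ) : ‖y ^ M‖ ≤ (1 + ‖y - 1‖) ^ M ∧
    ‖y ^ M - 1‖ ≤ (1 + ‖y - 1‖) ^ M - 1 := by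
  have hy : ‖y‖ ≤ 1 + ‖y - 1‖ := by
    calc ‖y‖ = ‖1 + (y - 1)‖ := by congr 1; ring
      _ ≤ ‖(1:ℂ)‖ + ‖y - 1‖ := norm_add_le _ _
      _ = 1 + ‖y - 1‖ := by simp
  induction M with
  | zero => simp
  | succ M ih =>
    refine ⟨?_, ?_⟩
    · rw [norm_pow]
      exact pow_le_pow_left₀ (norm_nonneg _) hy _
    · have e : y ^ (M + 1) - 1 = y ^ M * (y - 1) + (y ^ M - 1) := by ring
      rw [e]
      calc ‖y ^ M * (y - 1) + (y ^ M - 1)‖ ≤ ‖y ^ M * (y - 1)‖ + ‖y ^ M - 1‖ := norm_add_le _ _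
        _ = ‖y ^ M‖ * ‖y - 1‖ + ‖y ^ M - 1‖ := by rw [norm_mul]
        _ ≤ (1 + ‖y - 1‖) ^ M * ‖y - 1‖ + ((1 + ‖y - 1‖) ^ M - 1) := by
            have := mul_le_mul_of_nonneg_right ih.1 (norm_nonneg (y - 1))
            linarith [ih.2]
        _ = (1 + ‖y - 1‖) ^ (M + 1) - 1 := by ring

theorem one_add_pow_le_exp (b : ℝ) (hb : 0 ≤ b) (M : ℕ) : (1 + b) ^ M ≤ Real.exp (b * M) := by
  calc (1 + b) ^ M ≤ (Real.exp b) ^ M := by
        apply pow_le_pow_left₀ (by linarith)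
        linarith [Real.add_one_le_exp b]
    _ = Real.exp (b * M) := by rw [← Real.exp_nat_mul]; congr 1; ring

theorem real_exp_sub_one_le (t : ℝ) (h0 : 0 ≤ t) (h1 : t ≤ 1) : Real.exp t - 1 ≤ 2 * t := by
  have := Real.abs_exp_sub_one_le (x := t) (by rw [abs_of_nonneg h0]; exact h1)
  rw [abs_of_nonneg h0] at this
  exact le_trans (le_abs_self _) this

set_option maxHeartbeats 2000000 in
/-- TARGET 2: the estimate near the place -/
theorem est_near (lam0 c d om A ρ r' δ ε ν η e B : ℝ) (M : ℕ) (z w u s l : ℂ)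
    (h0 : 0 < lam0) (hc : c = 3 / 2 * lam0) (hd : d = lam0 / 2) (hlam : lam0 ≤ 1 / 4)
    (hom : 1 ≤ om) (hM : 1000 * om ^ 2 ≤ M)
    (hη : η = Real.exp (-5 * om) / 16 / (8 * M)) (hA : A = 2 / η)
    (hρ : 0 < ρ) (hρ1 : ρ ≤ η * d / 4) (hρ2 : ρ ≤ lam0 / 16) (hν : ν = η * d ^ 2 / 4)
    (hδ : 0 < δ) (hr : 0 < r') (hr1 : δ * r' ^ 2 ≤ 1 / (2000 * om))
    (hε : 0 < ε) (hεν : ε ≤ ν) (hδε : δ * ε ≤ 1)
    (hε1 : δ * ((A + 1) * ε) ≤ 1 / (4000 * om)) (hε2 : (A + 1) * ε ≤ (1 / (1000 * om)) ^ 2)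
    (hz : z ≠ 0)
    (g1 : (z * w).re + 200 * ‖z * w‖ ^ 2 + 400 * l.im ^ 2 < e - B)
    (g2 : (z * w).re + 18 * (‖z‖ ^ 2 - 1) ^ 2 < e - B)
    (he : e ≤ (ε + (max (l.re - c) 0) ^ 2) / 4) (hB : 0 ≤ B)
    (hv : ‖u / z‖ ≤ 2) (hs : ‖s‖ ≤ 2)
    (hB3 : B < (A + 1) * ε →
      (‖u * (starRingEnd ℂ) z‖ ≤ 1 / (50 * om) ∧ ‖s - 1‖ ≤ 1 / 10) ∨
      (|l.re - lam0| ≤ r' ∧ ∃ t : ℝ, |t| ≤ 3 ∧ ‖u * (starRingEnd ℂ) z - t‖ ≤ 1 / (50 * om) ∧
        ‖s - Complex.exp (I * (M * Real.arctan (om * t / M)))‖ ≤ 1 / 10))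
    (hx : |l.re - lam0| ≤ ρ) (hy : |l.im| ≤ ρ) (hG : ‖z * w‖ ≤ ν) :
    ‖((1 + Complex.exp (δ * (z * w - (l - lam0) ^ 2)) * (s - 1))
        / (1 + I * om * (u / z) * Complex.exp (δ * (z * w - (l - lam0) ^ 2)) / M) ^ M - 1)
      * (1 - (z * w / -(2 * d * (((l - c) ^ 2 + ε - z * w) ^ (1 / 2 : ℂ) + l - c))) ^ M)‖ < 1 := by
  have hom0 : 0 < om := by linarith
  have hM1 : (1000:ℝ) ≤ M := by
    have : 1 ≤ om ^ 2 := one_le_pow₀ hom
    linarith
  have hM0 : (0:ℝ) < M := by linarith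
  set μ : ℝ := Real.exp (-5 * om) / 16 with hμ
  have hμ0 : 0 < μ := by positivity
  have hμ1 : μ ≤ 1 / 16 := by
    have : Real.exp (-5 * om) ≤ 1 := Real.exp_le_one_iff.mpr (by linarith)
    rw [hμ]; linarith
  have hη0 : 0 < η := by rw [hη]; positivity
  have hη1 : η ≤ 1 / 1000 := by
    rw [hη, div_le_iff₀ (by positivity)]
    linarith
  have hηM : η * M = μ / 8 := by
    rw [hη]; field_simp
  have hAη : A * η = 2 := by rw [hA]; field_simp
  have hA2 : 2 ≤ A := by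
    rw [hA, le_div_iff₀ hη0]; linarith
  have hd0 : 0 < d := by rw [hd]; linarith
  have hcd : c - d = lam0 := by rw [hc, hd]; ring
  have hmax : max (l.re - c) 0 = 0 := by
    apply max_eq_right
    have := (abs_le.mp hx).2
    rw [hc]; linarith
  have he' : e ≤ ε / 4 := by
    rw [hmax] at he
    linarith
  set G : ℂ := z * w with hGdef
  have hG2 : 0 ≤ ‖G‖ ^ 2 := by positivity
  have hl2 : 0 ≤ l.im ^ 2 := by positivity
  have hGre : G.re < ε / 4 := by linarith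
  have hGre2 : -‖G‖ ≤ G.re := by
    have := Complex.abs_re_le_norm G
    exact (abs_le.mp this).1
  have g1' : G.re + 200 * ‖G‖ ^ 2 + 400 * l.im ^ 2 < e := by linarith
  set F : ℂ := Complex.exp (δ * (G - (l - lam0) ^ 2)) with hF
  have hFn : ‖F‖ ≤ 2 := by
    have h1 := normF lam0 c δ ε e l G hδ (by rw [hc]; linarith) g1' he
    refine h1.trans ?_
    have h2 : δ * (ε / 4 - 3 / 4 * (l.re - lam0) ^ 2 - 399 * l.im ^ 2 - 200 * ‖G‖ ^ 2) ≤ 1 / 4 := by
      have h3 : 0 ≤ (l.re - lam0) ^ 2 := by positivity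
      have h4 : δ * (ε / 4 - 3 / 4 * (l.re - lam0) ^ 2 - 399 * l.im ^ 2 - 200 * ‖G‖ ^ 2)
        ≤ δ * (ε / 4) := mul_le_mul_of_nonneg_left (by linarith) hδ.le
      have h5 : δ * (ε / 4) = δ * ε / 4 := by ring
      linarith
    refine (Real.exp_le_exp.mpr h2).trans ?_
    have := real_exp_sub_one_le (1/4) (by norm_num) (by norm_num)
    linarith
  have hεG : (ε:ℂ) - G ≠ 0 := by
    intro h
    have := congrArg Complex.re h
    simp at this
    linarith
  have hrad : 0 < ((l - c) ^ 2 + ε - G).re := by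
    have := rad_pos c ε e l G hε g1' he
    have h3 : 0 ≤ (l.re - c) ^ 2 := by positivity
    linarith
  have hlρ : ‖l - lam0‖ ≤ 2 * ρ := by
    have h1 := Complex.norm_le_abs_re_add_abs_im (l - lam0)
    have h2 : (l - (lam0:ℂ)).re = l.re - lam0 := by simp
    have h3 : (l - (lam0:ℂ)).im = l.im := by simp
    rw [h2, h3] at h1
    linarith
  have hcdC : (c:ℂ) - d = lam0 := by
    rw [← Complex.ofReal_sub, hcd]
  have hnear := near c d ε l G hd0 hrad hεG (by
    rw [hcdC]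
    refine hlρ.trans ?_
    have : η * d ≤ 1 / 1000 * d := mul_le_mul_of_nonneg_right hη1 hd0.le
    linarith)
  obtain ⟨e1, he1, he1n⟩ := hnear
  rw [hcdC] at he1n
  have he1η : ‖e1‖ ≤ η := by
    refine he1n.trans ?_
    have h1 : ‖l - lam0‖ / d ≤ η / 2 := by
      rw [div_le_iff₀ hd0]; linarith
    have h2 : ‖(ε:ℂ) - G‖ / d ^ 2 ≤ η / 2 := by
      rw [div_le_iff₀ (by positivity)]
      have : ‖(ε:ℂ) - G‖ ≤ ε + ν := by
        refine (norm_sub_le _ _).trans ?_
        rw [Complex.norm_real, Real.norm_eq_abs, abs_of_pos hε]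
        linarith
      rw [hν] at this hεν
      linarith
    linarith
  have hyeq : G / -(2 * d * (((l - c) ^ 2 + ε - G) ^ (1 / 2 : ℂ) + l - c))
      = (-G / ((ε : ℂ) - G)) * (1 + e1) := by
    rw [← he1, div_neg, neg_div]
  rw [hyeq]
  set y : ℂ := (-G / ((ε : ℂ) - G)) * (1 + e1) with hydef
  set v : ℂ := u / z with hvdef
  by_cases hcase : A * ε ≤ ‖G‖
  · -- deep
    have h1 : ‖-G / ((ε : ℂ) - G) - 1‖ ≤ η := by
      have e2 : -G / ((ε : ℂ) - G) - 1 = -ε / ((ε:ℂ) - G) := by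
        rw [div_sub_one hεG]; congr 1; ring
      rw [e2, norm_div, norm_neg, Complex.norm_real, Real.norm_eq_abs, abs_of_pos hε]
      have h2 : ‖G‖ - ε ≤ ‖(ε:ℂ) - G‖ := by
        have := norm_sub_norm_le G (ε:ℂ)
        rw [Complex.norm_real, Real.norm_eq_abs, abs_of_pos hε, norm_sub_rev] at this
        exact this
      have h3 : 0 < ‖(ε:ℂ) - G‖ := norm_pos_iff.mpr hεG
      rw [div_le_iff₀ h3]
      have h4 : A * ε / 2 ≤ ‖(ε:ℂ) - G‖ := by
        have : 2 * ε ≤ A * ε := mul_le_mul_of_nonneg_right hA2 hε.le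
        linarith
      have h5 : η * (A * ε / 2) ≤ η * ‖(ε:ℂ) - G‖ := mul_le_mul_of_nonneg_left h4 hη0.le
      have h6 : η * (A * ε / 2) = ε := by
        rw [show η * (A * ε / 2) = (A * η) * ε / 2 by ring, hAη]; ring
      linarith
    have h2 : ‖y - 1‖ ≤ 3 * η := by
      have e2 : y - 1 = (-G / ((ε : ℂ) - G) - 1) + e1 + (-G / ((ε : ℂ) - G) - 1) * e1 := by
        rw [hydef]; ring
      rw [e2]
      refine (norm_add_le _ _).trans ?_
      have h3 := norm_add_le (-G / ((ε : ℂ) - G) - 1) e1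
      rw [norm_mul]
      have h4 : ‖-G / ((ε : ℂ) - G) - 1‖ * ‖e1‖ ≤ η * η :=
        mul_le_mul h1 he1η (norm_nonneg _) hη0.le
      have h5 : η * η ≤ 1 * η := mul_le_mul_of_nonneg_right (by linarith) hη0.le
      linarith
    have h3 : ‖1 - y ^ M‖ ≤ μ := by
      rw [norm_sub_rev]
      refine (pow_sub_one_le y M).2.trans ?_
      have h4 : (1 + ‖y - 1‖) ^ M ≤ (1 + 3 * η) ^ M :=
        pow_le_pow_left₀ (by positivity) (by linarith) _
      have h5 := one_add_pow_le_exp (3 * η) (by positivity) M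
      have h6 : 3 * η * M = 3 * μ / 8 := by
        rw [mul_assoc, hηM]; ring
      rw [h6] at h5
      have h7 := real_exp_sub_one_le (3 * μ / 8) (by positivity) (by linarith)
      linarith
    exact (q_deep om M F v s (y ^ M) hom hM hFn hv hs h3).2
  · push Not at hcase
    have h1 : ‖G‖ ≤ ‖(ε:ℂ) - G‖ := by
      apply le_of_sq_le_sq _ (norm_nonneg _)
      rw [← Complex.normSq_eq_norm_sq, ← Complex.normSq_eq_norm_sq, Complex.normSq_apply,
        Complex.normSq_apply]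
      simp only [Complex.sub_re, Complex.sub_im, Complex.ofReal_re, Complex.ofReal_im]
      have h4 : 0 ≤ ε * (ε - 2 * G.re) := mul_nonneg hε.le (by linarith)
      have h5 : (ε - G.re) * (ε - G.re) + (0 - G.im) * (0 - G.im) =
        G.re * G.re + G.im * G.im + ε * (ε - 2 * G.re) := by ring
      linarith
    have h3 : 0 < ‖(ε:ℂ) - G‖ := norm_pos_iff.mpr hεG
    have h2 : ‖y‖ ≤ 1 + η := by
      rw [hydef, norm_mul, norm_div, norm_neg]
      have h4 : ‖G‖ / ‖(ε:ℂ) - G‖ ≤ 1 := (div_le_one h3).mpr h1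
      have h5 : ‖1 + e1‖ ≤ 1 + η := by
        refine (norm_add_le _ _).trans ?_
        rw [norm_one]; linarith
      calc ‖G‖ / ‖(ε:ℂ) - G‖ * ‖1 + e1‖ ≤ 1 * (1 + η) :=
            mul_le_mul h4 h5 (norm_nonneg _) zero_le_one
        _ = 1 + η := one_mul _
    have hY : ‖y ^ M‖ ≤ 11 / 10 := by
      rw [norm_pow]
      refine (pow_le_pow_left₀ (norm_nonneg _) h2 M).trans ?_
      refine (one_add_pow_le_exp η hη0.le M).trans ?_
      rw [hηM]
      have := real_exp_sub_one_le (μ / 8) (by positivity) (by linarith)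
      linarith
    have hBlt : B < (A + 1) * ε := by linarith
    have hzz : |‖z‖ ^ 2 - 1| ≤ 1 / (4000 * om) := by
      apply abs_le_of_sq_le_sq _ (by positivity)
      have h5 : 18 * (‖z‖ ^ 2 - 1) ^ 2 < (A + 1) * ε := by linarith
      have h6 : (1 / (1000 * om)) ^ 2 = 16 * (1 / (4000 * om)) ^ 2 := by
        field_simp; norm_num
      have h7 : 0 ≤ (1 / (4000 * om)) ^ 2 := by positivity
      linarith
    have huz : ‖u * (starRingEnd ℂ) z - v‖ ≤ 1 / (200 * om) := by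
      have e2 : u * (starRingEnd ℂ) z - v = v * ((‖z‖ ^ 2 - 1 : ℝ) : ℂ) := by
        have h5 : u = v * z := by rw [hvdef]; field_simp
        have h6 : z * (starRingEnd ℂ) z = ((‖z‖ ^ 2 : ℝ) : ℂ) := by
          rw [Complex.mul_conj, Complex.normSq_eq_norm_sq]
        calc u * (starRingEnd ℂ) z - v = v * (z * (starRingEnd ℂ) z) - v := by
              conv_lhs => rw [h5]
              ring
          _ = _ := by rw [h6]; push_cast; ring
      rw [e2, norm_mul, Complex.norm_real, Real.norm_eq_abs]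
      calc ‖v‖ * |‖z‖ ^ 2 - 1| ≤ 2 * (1 / (4000 * om)) :=
            mul_le_mul hv hzz (abs_nonneg _) (by norm_num)
        _ ≤ 1 / (200 * om) := by
            have h8 : 1 / (200 * om) = 20 * (1 / (4000 * om)) := by field_simp; norm_num
            have h9 : 0 ≤ 1 / (4000 * om) := by positivity
            rw [h8]; linarith
    have hsum : 1 / (50 * om) + 1 / (200 * om) = 1 / (40 * om) := by
      field_simp; norm_num
    rcases hB3 hBlt with ⟨a1, a2⟩ | ⟨a1, t, a2, a3, a4⟩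
    · refine q_core om M F v s (y ^ M) hom hM hFn ?_ a2 hY
      have e2 : v = u * (starRingEnd ℂ) z - (u * (starRingEnd ℂ) z - v) := by ring
      rw [e2]
      refine (norm_sub_le _ _).trans ?_
      linarith
    · refine q_tube om t M F v s (y ^ M) hom hM a2 ?_ ?_ hs a4 hY
      · set w0 : ℂ := δ * (G - (l - lam0) ^ 2) with hw0
        have h5 : ‖w0‖ ≤ 1 / (1000 * om) := by
          rw [hw0, norm_mul, Complex.norm_real, Real.norm_eq_abs, abs_of_pos hδ]
          have h6 : ‖G - (l - lam0) ^ 2‖ ≤ A * ε + (r' ^ 2 + l.im ^ 2) := by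
            refine (norm_sub_le _ _).trans ?_
            rw [norm_pow, ← Complex.normSq_eq_norm_sq, Complex.normSq_apply]
            have h7 : (l - (lam0:ℂ)).re = l.re - lam0 := by simp
            have h8 : (l - (lam0:ℂ)).im = l.im := by simp
            rw [h7, h8]
            have h9 : (l.re - lam0) ^ 2 ≤ r' ^ 2 := sq_le_sq' (by linarith [(abs_le.mp a1).1])
              (abs_le.mp a1).2
            linarith
          have h10 : 400 * l.im ^ 2 ≤ (A + 1) * ε := by linarith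
          have h11 : A * ε + (r' ^ 2 + l.im ^ 2) ≤ 2 * ((A + 1) * ε) + r' ^ 2 := by linarith
          have h12 : δ * ‖G - (l - lam0) ^ 2‖ ≤ δ * (2 * ((A + 1) * ε) + r' ^ 2) :=
            mul_le_mul_of_nonneg_left (h6.trans h11) hδ.le
          have h13 : 1 / (1000 * om) = 2 * (1 / (4000 * om)) + 1 / (2000 * om) := by
            field_simp; norm_num
          have h14 : δ * (2 * ((A + 1) * ε) + r' ^ 2) = 2 * (δ * ((A + 1) * ε)) + δ * r' ^ 2 := by
            ring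
          rw [h13]
          linarith
        have h6 : 1 / (1000 * om) ≤ 1 := by
          rw [div_le_one (by positivity)]; linarith
        have h7 := Complex.norm_exp_sub_one_le (h5.trans h6)
        refine h7.trans ?_
        have h8 : 1 / (200 * om) = 5 * (1 / (1000 * om)) := by field_simp; norm_num
        rw [h8]
        have h9 : 0 ≤ ‖w0‖ := norm_nonneg _
        linarith
      · have e2 : v - t = (u * (starRingEnd ℂ) z - t) - (u * (starRingEnd ℂ) z - v) := by ring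
        rw [e2]
        refine (norm_sub_le _ _).trans ?_
        linarith

end Pool.Agent.Helper401.ENV.E1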