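import Mathlib
import Pool.Agent.Helper401.ENV.Defs

set_option autoImplicit false
namespace Pool.Agent.Helper401.ENV.Q3
open Complex

theorem pow_sub_one_7974 (h : ℂ) (n : ℕ) : ‖(1 + h) ^ n - 1‖ ≤ (1 + ‖h‖) ^ n - 1 := by
  induction n with
  | zero => simp
  | succ n ih =>
    have e : (1 + h) ^ (n + 1) - 1 = (1 + h) * ((1 + h) ^ n - 1) + h := by ring
    rw [e]
    have h1 : ‖1 + h‖ ≤ 1 + ‖h‖ := (norm_add_le _ _).trans (by simp)
    calc ‖(1 + h) * ((1 + h) ^ n - 1) + h‖ ≤ ‖(1 + h)‖ * ‖(1 + h) ^ n - 1‖ + ‖h‖ :=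
          (norm_add_le _ _).trans (by rw [norm_mul])
      _ ≤ (1 + ‖h‖) * ((1 + ‖h‖) ^ n - 1) + ‖h‖ := by
          have := mul_le_mul h1 ih (norm_nonneg _) (by positivity)
          linarith
      _ = _ := by ring

/-- far -/
theorem q_far (om K : ℝ) (M : ℕ) (F v s Y : ℂ) (hom : 1 ≤ om) (hM : 1000 * om ^ 2 ≤ M)
    (hv : ‖v‖ ≤ 2) (hs : ‖s‖ ≤ 2) (hK : 1 ≤ K) (hY : ‖Y‖ ≤ K)
    (hF : ‖F‖ * (64 * (om + 1) * K) ≤ 1) :
    ‖((1 + F * (s - 1)) / (1 + I * om * v * F / M) ^ M - 1) * (1 - Y)‖ ≤ 1 / 4 ∧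
    ‖(1 + I * om * v * F / M) ^ M - 1‖ ≤ 1 / 4 ∧
    ‖(M : ℂ) * Complex.log (1 + I * om * v * F / M)‖ ≤ 1 / 4 := by
  obtain ⟨f, hf⟩ : ∃ f, f = ‖F‖ := ⟨_, rfl⟩
  have hf0 : 0 ≤ f := by rw [hf]; exact norm_nonneg _
  rw [← hf] at hF
  have hM0 : (1000 : ℝ) ≤ M := by nlinarith
  have hMp : (0 : ℝ) < M := by linarith
  have hfK : f * (64 * (om + 1)) ≤ 1 := by
    have : f * (64 * (om + 1)) * 1 ≤ f * (64 * (om + 1)) * K :=
      mul_le_mul_of_nonneg_left hK (by positivity)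
    nlinarith
  have hof : om * f ≤ 1 / 64 := by nlinarith
  obtain ⟨h, hh⟩ : ∃ h : ℂ, h = I * om * v * F / M := ⟨_, rfl⟩
  rw [← hh]
  have hnorm : (M : ℝ) * ‖h‖ ≤ 2 * (om * f) := by
    have e : ‖h‖ = om * ‖v‖ * f / M := by
      rw [hh, norm_div, norm_mul, norm_mul, norm_mul, Complex.norm_I, Complex.norm_real,
        Complex.norm_natCast, Real.norm_eq_abs, abs_of_pos (by linarith), one_mul, ← hf]
    rw [e, mul_div_cancel₀ _ hMp.ne']
    have : om * ‖v‖ * f ≤ om * 2 * f :=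
      mul_le_mul_of_nonneg_right (mul_le_mul_of_nonneg_left hv (by linarith)) hf0
    linarith
  have hP : ‖(1 + h) ^ M - 1‖ ≤ 2.1 * (om * f) := by
    refine (pow_sub_one_7974 h M).trans ?_
    have h1 : (1 + ‖h‖) ^ M ≤ Real.exp (M * ‖h‖) := by
      rw [Real.exp_nat_mul]
      exact pow_le_pow_left₀ (by positivity) (by linarith [Real.add_one_le_exp ‖h‖]) _
    have h2 : Real.exp (M * ‖h‖) ≤ Real.exp (2 * (om * f)) := Real.exp_le_exp.2 hnorm
    have h3 : 0 ≤ om * f := by positivity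
    have h4 := Real.abs_exp_sub_one_sub_id_le (x := 2 * (om * f)) (by
      rw [abs_of_nonneg (by linarith)]; linarith)
    have h5 := (abs_le.1 h4).2
    norm_num
    nlinarith
  have hof0 : 0 ≤ om * f := by positivity
  refine ⟨?_, ?_, ?_⟩
  · have hPn : (29 : ℝ) / 30 ≤ ‖(1 + h) ^ M‖ := by
      have h1 : ‖(1 : ℂ)‖ - ‖(1 + h) ^ M - 1‖ ≤ ‖(1 : ℂ) + ((1 + h) ^ M - 1)‖ := by
        have := norm_sub_norm_le (1 : ℂ) (-((1 + h) ^ M - 1))
        rwa [norm_neg, sub_neg_eq_add] at this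
      rw [norm_one, add_sub_cancel] at h1
      norm_num at hP
      linarith
    have hP0 : (1 + h) ^ M ≠ 0 := by
      intro h0
      rw [h0, norm_zero] at hPn
      norm_num at hPn
    have e1 : (1 + F * (s - 1)) / (1 + h) ^ M - 1 =
        (F * (s - 1) - ((1 + h) ^ M - 1)) / (1 + h) ^ M := by
      field_simp
      ring
    have e2 : ‖F * (s - 1)‖ ≤ f * 3 := by
      rw [norm_mul, ← hf]
      refine mul_le_mul_of_nonneg_left ?_ hf0
      refine (norm_sub_le _ _).trans ?_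
      rw [norm_one]; linarith
    have e3 : ‖(1 + F * (s - 1)) / (1 + h) ^ M - 1‖ ≤ 3.2 * ((om + 1) * f) := by
      rw [e1, norm_div, div_le_iff₀ (by linarith)]
      have e4 : ‖F * (s - 1) - ((1 + h) ^ M - 1)‖ ≤ f * 3 + 2.1 * (om * f) :=
        (norm_sub_le _ _).trans (add_le_add e2 hP)
      refine e4.trans ?_
      have e5 : 3.2 * ((om + 1) * f) * (29 / 30) ≤ 3.2 * ((om + 1) * f) * ‖(1 + h) ^ M‖ :=
        mul_le_mul_of_nonneg_left hPn (by positivity)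
      refine le_trans ?_ e5
      norm_num
      nlinarith
    have e6 : ‖1 - Y‖ ≤ 2 * K := by
      refine (norm_sub_le _ _).trans ?_
      rw [norm_one]; linarith
    rw [norm_mul]
    calc ‖(1 + F * (s - 1)) / (1 + h) ^ M - 1‖ * ‖1 - Y‖ ≤ 3.2 * ((om + 1) * f) * (2 * K) :=
          mul_le_mul e3 e6 (norm_nonneg _) (by positivity)
      _ = 6.4 / 64 * (f * (64 * (om + 1) * K)) := by ring
      _ ≤ 6.4 / 64 * 1 := mul_le_mul_of_nonneg_left hF (by norm_num)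
      _ ≤ _ := by norm_num
  · norm_num at hP ⊢
    linarith
  · have hh2 : ‖h‖ ≤ 1 / 2 := by
      have : 1000 * ‖h‖ ≤ M * ‖h‖ := mul_le_mul_of_nonneg_right hM0 (norm_nonneg _)
      linarith
    have h1 := Complex.norm_log_one_add_half_le_self hh2
    rw [norm_mul, Complex.norm_natCast]
    calc (M : ℝ) * ‖Complex.log (1 + h)‖ ≤ M * (3 / 2 * ‖h‖) :=
          mul_le_mul_of_nonneg_left h1 hMp.le
      _ = 3 / 2 * (M * ‖h‖) := by ring
      _ ≤ 1 / 4 := by linarith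


end Pool.Agent.Helper401.ENV.Q3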