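import Mathlib
import Pool.Agent.Helper401.ENV.Defs

set_option autoImplicit false
namespace Pool.Agent.Helper401.ENV.Q4
open Complex

theorem q4_pow_sub (a b : ℂ) (ha : ‖a‖ ≤ 1) (hb : ‖b‖ ≤ 1) (n : ℕ) : ‖a ^ n - b ^ n‖ ≤ n * ‖a - b‖ := by
  induction n with
  | zero => simp
  | succ n ih =>
    have e : a ^ (n + 1) - b ^ (n + 1) = a * (a ^ n - b ^ n) + (a - b) * b ^ n := by ring
    rw [e]
    refine (norm_add_le _ _).trans ?_
    rw [norm_mul, norm_mul, norm_pow]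
    have h1 : ‖a‖ * ‖a ^ n - b ^ n‖ ≤ 1 * (n * ‖a - b‖) := mul_le_mul ha ih (norm_nonneg _) zero_le_one
    have h2 : ‖a - b‖ * ‖b‖ ^ n ≤ ‖a - b‖ * 1 :=
      mul_le_mul_of_nonneg_left (pow_le_one₀ (norm_nonneg _) hb) (norm_nonneg _)
    push_cast
    linarith

/-- the function g is close to 1 to the right -/
theorem g_right (om d : ℝ) (M : ℕ) (F z w u s N : ℂ) (hom : 1 ≤ om) (hM : 1000 * om ^ 2 ≤ M)
    (hd : 0 < d) (hd1 : d ≤ 1 / 8)
    (hG : ‖z * w‖ ≤ 1 / 100) (hw : ‖w‖ ≤ 21 / 10) (hu : ‖u‖ ≤ 21 / 10) (hs : ‖s‖ ≤ 21 / 10)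
    (hN : d / 20 ≤ ‖N‖) (hy : ‖z * w / N‖ ≤ 3 / d)
    (hF : ‖F‖ * (64 * (om + 1) * (60 / d) ^ M) ≤ 1) :
    ‖(1 + F * (s - 1)) * (1 - (z * w / N) ^ M) + ((z * w + I * om * u * w * F / M) / N) ^ M - 1‖
      ≤ 1 / 2 := by
  have hM1 : (1000 : ℝ) ≤ M := by nlinarith
  have hM0 : (0 : ℝ) < M := by linarith
  have hMc : (M : ℂ) ≠ 0 := by
    have : M ≠ 0 := by rintro rfl; norm_num at hM1
    exact_mod_cast this
  have hK1 : (1 : ℝ) ≤ (60 / d) ^ M := by
    refine one_le_pow₀ ?_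
    rw [le_div_iff₀ hd]; linarith
  have hN0 : 0 < ‖N‖ := lt_of_lt_of_le (by positivity) hN
  set K := (60 / d) ^ M with hK
  have hFK : ‖F‖ * K * (64 * (om + 1)) ≤ 1 := by linarith [hF]
  have hFK0 : 0 ≤ ‖F‖ * K := by positivity
  have hF0 := norm_nonneg F
  have hY : ‖(z * w / N) ^ M‖ ≤ K := by
    rw [norm_pow]
    refine (pow_le_pow_left₀ (norm_nonneg _) hy M).trans ?_
    rw [hK]
    refine pow_le_pow_left₀ (by positivity) ?_ M
    gcongr
    norm_num
  set G := z * w with hGdef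
  set e := I * om * u * w * F / M with he
  have hen : ‖e‖ * M ≤ 441 / 100 * om * ‖F‖ := by
    rw [he, norm_div, norm_mul, norm_mul, norm_mul, norm_mul, norm_I, Complex.norm_real, Complex.norm_natCast,
      Real.norm_eq_abs, abs_of_nonneg (by linarith : (0 : ℝ) ≤ om), div_mul_cancel₀ _ hM0.ne', one_mul]
    have h1 : ‖u‖ * ‖w‖ ≤ 21 / 10 * (21 / 10) := mul_le_mul hu hw (norm_nonneg _) (by norm_num)
    have h2 : 0 ≤ om * ‖F‖ := by positivity
    nlinarith
  have hoF : om * ‖F‖ * K ≤ 1 / 64 := by nlinarith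
  have hoF1 : om * ‖F‖ ≤ 1 / 64 := by
    have h0 : 0 ≤ om * ‖F‖ := by positivity
    nlinarith
  have hFK1 : ‖F‖ * K ≤ 1 / 128 := by nlinarith
  have he1 : ‖e‖ ≤ 1 / 100 := by
    have h0 := norm_nonneg e
    nlinarith
  have hsplit : (1 + F * (s - 1)) * (1 - (G / N) ^ M) + ((G + e) / N) ^ M - 1 =
      F * (s - 1) * (1 - (G / N) ^ M) + ((G + e) ^ M - G ^ M) / N ^ M := by
    rw [div_pow, div_pow, sub_div]
    ring
  rw [hsplit]
  refine (norm_add_le _ _).trans ?_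
  have h1 : ‖F * (s - 1) * (1 - (G / N) ^ M)‖ ≤ 62 / 10 * (‖F‖ * K) := by
    rw [norm_mul, norm_mul]
    have a1 : ‖s - 1‖ ≤ 31 / 10 := by
      refine (norm_sub_le _ _).trans ?_
      rw [norm_one]; linarith
    have a2 : ‖1 - (G / N) ^ M‖ ≤ 2 * K := by
      refine (norm_sub_le _ _).trans ?_
      rw [norm_one]; linarith
    calc ‖F‖ * ‖s - 1‖ * ‖1 - (G / N) ^ M‖ ≤ ‖F‖ * (31 / 10) * (2 * K) := by gcongr
      _ = _ := by ring
  have h2 : ‖((G + e) ^ M - G ^ M) / N ^ M‖ ≤ 441 / 100 * (om * ‖F‖ * K) := by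
    rw [norm_div, norm_pow]
    have a1 : ‖(G + e) ^ M - G ^ M‖ ≤ M * ‖e‖ := by
      have := q4_pow_sub (G + e) G ((norm_add_le _ _).trans (by linarith)) (by linarith) M
      rwa [add_sub_cancel_left] at this
    have a2 : (d / 20) ^ M ≤ ‖N‖ ^ M := pow_le_pow_left₀ (by positivity) hN M
    have a3 : (0 : ℝ) < (d / 20) ^ M := by positivity
    have a4 : 1 / (d / 20) ^ M ≤ K := by
      rw [hK, ← one_div_pow]
      refine pow_le_pow_left₀ (by positivity) ?_ M
      rw [one_div_div]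
      gcongr
      norm_num
    calc ‖(G + e) ^ M - G ^ M‖ / ‖N‖ ^ M ≤ (441 / 100 * om * ‖F‖) / (d / 20) ^ M := by
          refine div_le_div₀ (by positivity) (a1.trans (by linarith)) a3 a2
      _ = 441 / 100 * om * ‖F‖ * (1 / (d / 20) ^ M) := by ring
      _ ≤ 441 / 100 * om * ‖F‖ * K := by gcongr
      _ = _ := by ring
  linarith

/-- value of the logarithm on the circle of the helix -/
theorem log_value (th : ℝ) (M : ℕ) (hM : 0 < M)
    (h : Complex.exp (I * (M * Real.arctan th)) = 1) :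
    (M : ℂ) * Complex.log (1 + I * th) + Complex.log (1 / (1 + I * th) ^ M)
      = I * (M * Real.arctan th) := by
  have hr : 0 < Real.sqrt (1 + th ^ 2) := Real.sqrt_pos.2 (by positivity)
  set r := Real.sqrt (1 + th ^ 2) with hrd
  set φ := Real.arctan th with hφ
  have hrc : (r : ℂ) ≠ 0 := by exact_mod_cast hr.ne'
  have hexp : Complex.exp ((Real.log r : ℂ) + I * φ) = 1 + I * th := by
    rw [Complex.exp_add, mul_comm I, Complex.exp_mul_I, ← Complex.ofReal_exp, Real.exp_log hr, ← Complex.ofReal_cos,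
      ← Complex.ofReal_sin, hφ, Real.cos_arctan, Real.sin_arctan, ← hrd]
    push_cast
    field_simp
  have h1 : Complex.log (1 + I * th) = (Real.log r : ℂ) + I * φ := by
    rw [← hexp]
    apply Complex.log_exp
    · simp
      have := Real.neg_pi_div_two_lt_arctan th
      have := Real.pi_pos
      linarith
    · simp
      have := Real.arctan_lt_pi_div_two th
      have := Real.pi_pos
      linarith
  have h2 : (1 + I * th) ^ M = Complex.exp ((M * Real.log r : ℝ) : ℂ) := by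
    rw [← hexp, ← Complex.exp_nat_mul, mul_add, Complex.exp_add]
    have : (M : ℂ) * (I * φ) = I * (M * φ) := by ring
    rw [this, h, mul_one]
    push_cast
    rfl
  have h3 : Complex.log (1 / (1 + I * th) ^ M) = ((-(M * Real.log r) : ℝ) : ℂ) := by
    rw [h2, one_div, ← Complex.exp_neg, ← Complex.ofReal_neg, ← Complex.ofReal_exp, ← Complex.ofReal_log (Real.exp_pos _).le,
      Real.log_exp]
  rw [h1, h3]
  push_cast
  ring

end Pool.Agent.Helper401.ENV.Q4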