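import Mathlib
import Pool.Agent.Helper401.ENV.Defs
import Pool.Agent.Helper401.ENV.Defs2
import Pool.Agent.Helper401.ENV.A1
import Pool.Agent.Helper401.ENV.E1
import Pool.Agent.Helper401.ENV.Q3
import Pool.Agent.Helper401.ENV.Q4

set_option autoImplicit false
namespace Pool.Agent.Helper401.ENV.E3
open Complex
open Pool.Agent.Helper401.ENV.A1 (rad_pos crude)
open Pool.Agent.Helper401.ENV.E1 (normF est_near)
open Pool.Agent.Helper401.ENV.Q3 (q_far)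
open Pool.Agent.Helper401.ENV.Q4 (g_right)

/-- TARGET 1 -/
theorem far_small (lam0 c δ ε e ρ ν κ L : ℝ) (l G : ℂ) (hδ : 0 < δ) (hc : lam0 ≤ c)
    (hρ : 0 < ρ) (hν : 0 < ν) (hκ1 : κ ≤ ρ ^ 2 / 2) (hκ2 : κ ≤ ν ^ 2) (hκ : 0 < κ) (hεκ : ε ≤ κ)
    (hL : 0 < L) (hδκ : Real.log L ≤ 3 / 4 * (δ * κ))
    (h1 : G.re + 200 * ‖G‖ ^ 2 + 400 * l.im ^ 2 < e)
    (h2 : e ≤ (ε + (max (l.re - c) 0) ^ 2) / 4)
    (hfar : ρ < |l.re - lam0| ∨ ρ < |l.im| ∨ ν < ‖G‖) :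
    ‖Complex.exp (δ * (G - (l - lam0) ^ 2))‖ * L ≤ 1 := by
  have hF := normF lam0 c δ ε e l G hδ hc h1 h2
  have hq : κ ≤ 3 / 4 * (l.re - lam0) ^ 2 + 399 * l.im ^ 2 + 200 * ‖G‖ ^ 2 := by
    have a1 : 0 ≤ (l.re - lam0) ^ 2 := sq_nonneg _
    have a2 : 0 ≤ l.im ^ 2 := sq_nonneg _
    have a3 : 0 ≤ ‖G‖ ^ 2 := sq_nonneg _
    rcases hfar with h | h | h
    · have : ρ ^ 2 ≤ (l.re - lam0) ^ 2 := by
        rw [← sq_abs (l.re - lam0)]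
        exact pow_le_pow_left₀ hρ.le h.le 2
      nlinarith
    · have : ρ ^ 2 ≤ l.im ^ 2 := by
        rw [← sq_abs l.im]
        exact pow_le_pow_left₀ hρ.le h.le 2
      nlinarith
    · have : ν ^ 2 ≤ ‖G‖ ^ 2 := pow_le_pow_left₀ hν.le h.le 2
      nlinarith
  have hexp : δ * (ε / 4 - 3 / 4 * (l.re - lam0) ^ 2 - 399 * l.im ^ 2 - 200 * ‖G‖ ^ 2)
      ≤ - Real.log L := by
    have : δ * (ε / 4 - 3 / 4 * (l.re - lam0) ^ 2 - 399 * l.im ^ 2 - 200 * ‖G‖ ^ 2)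
        ≤ δ * (κ / 4 - κ) := by
      apply mul_le_mul_of_nonneg_left _ hδ.le
      linarith
    linarith
  calc ‖Complex.exp (δ * (G - (l - lam0) ^ 2))‖ * L
      ≤ Real.exp (- Real.log L) * L := by
        apply mul_le_mul_of_nonneg_right _ hL.le
        exact hF.trans (Real.exp_le_exp.mpr hexp)
    _ = 1 := by
        rw [Real.exp_neg, Real.exp_log hL, inv_mul_cancel₀ hL.ne']

/-- TARGET 2: choice of the parameters, and all pointwise estimates -/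
theorem parA (lam0 om : ℝ) (h0 : 0 < lam0) (h1 : lam0 ≤ 1 / 4) (hom : 1 ≤ om) :
    ∃ (M : ℕ) (A ρ r' δ : ℝ), 1000 * om ^ 2 ≤ M ∧ 0 < A ∧ 0 < ρ ∧ ρ ≤ lam0 / 16 ∧ 0 < r' ∧
      ∃ ε0 : ℝ, 0 < ε0 ∧ ∀ ε : ℝ, 0 < ε → ε ≤ ε0 → ∀ (p : Fin 5 → ℂ) (e B : ℝ), 0 ≤ B →
        e ≤ (ε + (max ((p 4).re - 3 / 2 * lam0) 0) ^ 2) / 4 →
        ‖p 0 * p 1‖ ≤ 1 / 100 → ‖p 4‖ ≤ 21 / 10 → ‖p 1‖ ≤ 21 / 10 → ‖p 2‖ ≤ 21 / 10 →
        ‖p 3‖ ≤ 21 / 10 →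
        (p 0 * p 1).re + 200 * ‖p 0 * p 1‖ ^ 2 + 400 * (p 4).im ^ 2 < e - B →
        ((p 4).re ≤ 1 / 2 → p 0 ≠ 0 ∧ ‖p 2 / p 0‖ ≤ 2 ∧ ‖p 3‖ ≤ 2 ∧
          (p 0 * p 1).re + 18 * (‖p 0‖ ^ 2 - 1) ^ 2 < e - B) →
        (|(p 4).re - lam0| ≤ ρ → B < (A + 1) * ε →
          (‖p 2 * (starRingEnd ℂ) (p 0)‖ ≤ 1 / (50 * om) ∧ ‖p 3 - 1‖ ≤ 1 / 10) ∨
          (|(p 4).re - lam0| ≤ r' ∧ ∃ t : ℝ, |t| ≤ 3 ∧
            ‖p 2 * (starRingEnd ℂ) (p 0) - t‖ ≤ 1 / (50 * om) ∧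
            ‖p 3 - Complex.exp (I * (M * Real.arctan (om * t / M)))‖ ≤ 1 / 10)) →
        (0 < ((p 4 - (3 / 2 * lam0 : ℝ)) ^ 2 + ε - p 0 * p 1).re ∧
          NN (3 / 2 * lam0) (lam0 / 2) ε p ≠ 0 ∧
          ((p 4).re ≤ 1 / 2 → p 0 ≠ 0 ∧ ‖hh om δ lam0 M p - 1‖ < 1 ∧
            ‖((1 + FF δ lam0 p * (p 3 - 1)) / (hh om δ lam0 M p) ^ M - 1)
              * (1 - (p 0 * p 1 / NN (3 / 2 * lam0) (lam0 / 2) ε p) ^ M)‖ < 1) ∧
          (2 / 5 ≤ (p 4).re → ‖gg om δ lam0 (3 / 2 * lam0) (lam0 / 2) ε M p - 1‖ ≤ 1 / 2) ∧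
          (2 / 5 ≤ (p 4).re → (p 4).re ≤ 1 / 2 →
            ‖(M : ℂ) * Complex.log (hh om δ lam0 M p)‖ ≤ 1 / 4 ∧
            ‖((1 + FF δ lam0 p * (p 3 - 1)) / (hh om δ lam0 M p) ^ M - 1)
              * (1 - (p 0 * p 1 / NN (3 / 2 * lam0) (lam0 / 2) ε p) ^ M)‖ ≤ 1 / 4)) := by
  have hom0 : 0 < om := by linarith
  obtain ⟨d, hd⟩ : ∃ d : ℝ, d = lam0 / 2 := ⟨_, rfl⟩
  obtain ⟨c, hc⟩ : ∃ c : ℝ, c = 3 / 2 * lam0 := ⟨_, rfl⟩
  have hd0 : 0 < d := by rw [hd]; linarith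
  have hd8 : d ≤ 1 / 8 := by rw [hd]; linarith
  have hc0 : 0 < c := by rw [hc]; linarith
  have hc8 : c ≤ 3 / 8 := by rw [hc]; linarith
  have hlc : lam0 ≤ c := by rw [hc]; linarith
  obtain ⟨M, hMdef⟩ : ∃ M : ℕ, M = ⌈1000 * om ^ 2⌉₊ + 1 := ⟨_, rfl⟩
  have hM : 1000 * om ^ 2 ≤ (M : ℝ) := by
    rw [hMdef]
    push_cast
    have := Nat.le_ceil (1000 * om ^ 2)
    linarith
  have hM1000 : (1000 : ℝ) ≤ M := by nlinarith
  have hM0 : (0 : ℝ) < M := by linarith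
  obtain ⟨K, hK⟩ : ∃ K : ℝ, K = (60 / d) ^ M := ⟨_, rfl⟩
  have h60 : 1 ≤ 60 / d := by
    rw [le_div_iff₀ hd0]; linarith
  have hK1 : 1 ≤ K := by rw [hK]; exact one_le_pow₀ h60
  obtain ⟨η, hη⟩ : ∃ η : ℝ, η = Real.exp (-5 * om) / 16 / (8 * M) := ⟨_, rfl⟩
  have hη0 : 0 < η := by rw [hη]; positivity
  obtain ⟨A, hA⟩ : ∃ A : ℝ, A = 2 / η := ⟨_, rfl⟩
  have hA0 : 0 < A := by rw [hA]; positivity
  obtain ⟨ρ, hρ⟩ : ∃ ρ : ℝ, ρ = min (η * d / 4) (lam0 / 16) := ⟨_, rfl⟩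
  have hρ0 : 0 < ρ := by rw [hρ]; apply lt_min <;> positivity
  have hρ1 : ρ ≤ η * d / 4 := by rw [hρ]; exact min_le_left _ _
  have hρ2 : ρ ≤ lam0 / 16 := by rw [hρ]; exact min_le_right _ _
  obtain ⟨ν, hν⟩ : ∃ ν : ℝ, ν = η * d ^ 2 / 4 := ⟨_, rfl⟩
  have hν0 : 0 < ν := by rw [hν]; positivity
  obtain ⟨κ, hκ⟩ : ∃ κ : ℝ, κ = min (ρ ^ 2 / 2) (ν ^ 2) := ⟨_, rfl⟩
  have hκ0 : 0 < κ := by rw [hκ]; apply lt_min <;> positivity
  have hκ1 : κ ≤ ρ ^ 2 / 2 := by rw [hκ]; exact min_le_left _ _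
  have hκ2 : κ ≤ ν ^ 2 := by rw [hκ]; exact min_le_right _ _
  obtain ⟨L, hL⟩ : ∃ L : ℝ, L = 64 * (om + 1) * K := ⟨_, rfl⟩
  have hL1 : 1 < L := by rw [hL]; nlinarith
  have hL0 : 0 < L := by linarith
  have hlogL : 0 < Real.log L := Real.log_pos hL1
  obtain ⟨δ, hδ⟩ : ∃ δ : ℝ, δ = 4 / (3 * κ) * Real.log L := ⟨_, rfl⟩
  have hδ0 : 0 < δ := by rw [hδ]; positivity
  have hδκ : Real.log L ≤ 3 / 4 * (δ * κ) := by
    rw [hδ]; apply le_of_eq; field_simp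
  obtain ⟨r, hr⟩ : ∃ r : ℝ, r = min 1 (1 / (2000 * om * δ)) := ⟨_, rfl⟩
  have hr0 : 0 < r := by rw [hr]; apply lt_min <;> positivity
  have hr1 : r ≤ 1 := by rw [hr]; exact min_le_left _ _
  have hr2 : r ≤ 1 / (2000 * om * δ) := by rw [hr]; exact min_le_right _ _
  have hr3 : δ * r ^ 2 ≤ 1 / (2000 * om) := by
    have : r ^ 2 ≤ r := by nlinarith
    calc δ * r ^ 2 ≤ δ * (1 / (2000 * om * δ)) := by
          apply mul_le_mul_of_nonneg_left _ hδ0.le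
          linarith
      _ = 1 / (2000 * om) := by field_simp
  obtain ⟨ε0, hε0⟩ : ∃ ε0 : ℝ, ε0 = min (min (min (1 / 1000) ν) (min κ (1 / δ)))
      (min (1 / (4000 * om * δ * (A + 1))) ((1 / (1000 * om)) ^ 2 / (A + 1))) := ⟨_, rfl⟩
  have hε00 : 0 < ε0 := by
    rw [hε0]
    refine lt_min (lt_min (lt_min (by norm_num) hν0) (lt_min hκ0 (by positivity)))
      (lt_min (by positivity) (by positivity))
  refine ⟨M, A, ρ, r, δ, hM, hA0, hρ0, hρ2, hr0, ε0, hε00, ?_⟩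
  intro ε hε hεle p e B hB he hG hl hw hu hs h1' hleft hB3
  rw [← hc] at he ⊢
  rw [← hd]
  have e1 : ε ≤ 1 / 1000 := hεle.trans (by
    rw [hε0]; exact (min_le_left _ _).trans ((min_le_left _ _).trans (min_le_left _ _)))
  have e2 : ε ≤ ν := hεle.trans (by
    rw [hε0]; exact (min_le_left _ _).trans ((min_le_left _ _).trans (min_le_right _ _)))
  have e3 : ε ≤ κ := hεle.trans (by
    rw [hε0]; exact (min_le_left _ _).trans ((min_le_right _ _).trans (min_le_left _ _)))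
  have e4 : ε ≤ 1 / δ := hεle.trans (by
    rw [hε0]; exact (min_le_left _ _).trans ((min_le_right _ _).trans (min_le_right _ _)))
  have e5 : ε ≤ 1 / (4000 * om * δ * (A + 1)) := hεle.trans (by
    rw [hε0]; exact (min_le_right _ _).trans (min_le_left _ _))
  have e6 : ε ≤ (1 / (1000 * om)) ^ 2 / (A + 1) := hεle.trans (by
    rw [hε0]; exact (min_le_right _ _).trans (min_le_right _ _))
  have e4' : δ * ε ≤ 1 := by
    rw [le_div_iff₀ hδ0] at e4; linarith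
  have e5' : δ * ((A + 1) * ε) ≤ 1 / (4000 * om) := by
    have hA1 : 0 < A + 1 := by linarith
    calc δ * ((A + 1) * ε) ≤ δ * ((A + 1) * (1 / (4000 * om * δ * (A + 1)))) := by gcongr
      _ = 1 / (4000 * om) := by field_simp
  have e6' : (A + 1) * ε ≤ (1 / (1000 * om)) ^ 2 := by
    have hA1 : 0 < A + 1 := by linarith
    rw [le_div_iff₀ hA1] at e6; linarith
  have g1 : (p 0 * p 1).re + 200 * ‖p 0 * p 1‖ ^ 2 + 400 * (p 4).im ^ 2 < e := by linarith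
  have hrad := rad_pos c ε e (p 4) (p 0 * p 1) hε g1 he
  obtain ⟨cr1, cr2, cr3⟩ := crude c d ε e (p 4) (p 0 * p 1) hd0 hε e1 hc0.le (by linarith) hl hG g1 he
  have hNN : NN c d ε p = -(2 * d * (((p 4 - c) ^ 2 + ε - p 0 * p 1) ^ (1 / 2 : ℂ) + p 4 - c)) := rfl
  have hNN0 : NN c d ε p ≠ 0 := by
    rw [hNN]
    apply neg_ne_zero.mpr
    apply mul_ne_zero _ cr1
    apply mul_ne_zero two_ne_zero
    exact_mod_cast hd0.ne'
  have hy : ‖p 0 * p 1 / NN c d ε p‖ ≤ 3 / d := by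
    rw [hNN, div_neg, ← neg_div]
    exact cr2
  have hY : ‖(p 0 * p 1 / NN c d ε p) ^ M‖ ≤ K := by
    rw [norm_pow, hK]
    apply pow_le_pow_left₀ (norm_nonneg _)
    refine hy.trans ?_
    gcongr
    norm_num
  have hFFdef : FF δ lam0 p = Complex.exp (δ * (p 0 * p 1 - (p 4 - lam0) ^ 2)) := rfl
  have hF2 : ‖FF δ lam0 p‖ ≤ 2 := by
    rw [hFFdef]
    refine (normF lam0 c δ ε e (p 4) (p 0 * p 1) hδ0 hlc g1 he).trans ?_
    have hle : δ * (ε / 4 - 3 / 4 * ((p 4).re - lam0) ^ 2 - 399 * (p 4).im ^ 2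
        - 200 * ‖p 0 * p 1‖ ^ 2) ≤ 1 / 4 := by
      have : δ * (ε / 4 - 3 / 4 * ((p 4).re - lam0) ^ 2 - 399 * (p 4).im ^ 2
        - 200 * ‖p 0 * p 1‖ ^ 2) ≤ δ * (ε / 4) := by
        apply mul_le_mul_of_nonneg_left _ hδ0.le
        have a1 : 0 ≤ ((p 4).re - lam0) ^ 2 := sq_nonneg _
        have a2 : 0 ≤ (p 4).im ^ 2 := sq_nonneg _
        have a3 : 0 ≤ ‖p 0 * p 1‖ ^ 2 := sq_nonneg _
        linarith
      linarith
    refine (Real.exp_le_exp.mpr hle).trans ?_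
    have h4 : Real.exp (1 / 4) ^ 4 ≤ 2 ^ 4 := by
      rw [← Real.exp_nat_mul]
      have : Real.exp (((4 : ℕ) : ℝ) * (1 / 4)) = Real.exp 1 := by norm_num
      rw [this]
      have := Real.exp_one_lt_d9
      norm_num
      linarith
    exact le_of_pow_le_pow_left₀ (by norm_num) (by norm_num) h4
  have hfar : ∀ h : (ρ < |(p 4).re - lam0| ∨ ρ < |(p 4).im| ∨ ν < ‖p 0 * p 1‖),
      ‖FF δ lam0 p‖ * L ≤ 1 := by
    intro h
    rw [hFFdef]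
    exact far_small lam0 c δ ε e ρ ν κ L (p 4) (p 0 * p 1) hδ0 hlc hρ0 hν0 hκ1 hκ2 hκ0 e3 hL0 hδκ g1 he h
  have hq : (p 4).re ≤ 1 / 2 → (ρ < |(p 4).re - lam0| ∨ ρ < |(p 4).im| ∨ ν < ‖p 0 * p 1‖) →
      ‖((1 + FF δ lam0 p * (p 3 - 1)) / (hh om δ lam0 M p) ^ M - 1)
              * (1 - (p 0 * p 1 / NN c d ε p) ^ M)‖ ≤ 1 / 4 ∧
      ‖(M : ℂ) * Complex.log (hh om δ lam0 M p)‖ ≤ 1 / 4 := by
    intro hx h
    obtain ⟨l1, l2, l3, l4⟩ := hleft hx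
    have := q_far om K M (FF δ lam0 p) (p 2 / p 0) (p 3) ((p 0 * p 1 / NN c d ε p) ^ M) hom hM l2 l3 hK1
      hY (by have := hfar h; rw [hL] at this; exact this)
    exact ⟨this.1, this.2.2⟩
  have hx25 : 2 / 5 ≤ (p 4).re → ρ < |(p 4).re - lam0| := by
    intro hx
    have : (p 4).re - lam0 ≤ |(p 4).re - lam0| := le_abs_self _
    linarith
  refine ⟨?_, hNN0, ?_, ?_, ?_⟩
  · have a1 : 0 ≤ ((p 4).re - c) ^ 2 := sq_nonneg _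
    have a2 : 0 ≤ (p 4).im ^ 2 := sq_nonneg _
    have a3 : 0 ≤ ‖p 0 * p 1‖ ^ 2 := sq_nonneg _
    nlinarith
  · intro hx
    obtain ⟨l1, l2, l3, l4⟩ := hleft hx
    refine ⟨l1, ?_, ?_⟩
    · have : hh om δ lam0 M p - 1 = I * om * (p 2 / p 0) * FF δ lam0 p / M := by
        unfold hh; ring
      rw [this]
      rw [norm_div, norm_mul, norm_mul, norm_mul, Complex.norm_I, Complex.norm_real, one_mul,
        Real.norm_of_nonneg hom0.le, Complex.norm_natCast]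
      rw [div_lt_one hM0]
      calc om * ‖p 2 / p 0‖ * ‖FF δ lam0 p‖ ≤ om * 2 * 2 := by gcongr
        _ < M := by nlinarith
    · by_cases hn : (ρ < |(p 4).re - lam0| ∨ ρ < |(p 4).im| ∨ ν < ‖p 0 * p 1‖)
      · have := (hq hx hn).1
        linarith
      · push Not at hn
        obtain ⟨n1, n2, n3⟩ := hn
        exact est_near lam0 c d om A ρ r δ ε ν η e B M (p 0) (p 1) (p 2) (p 3) (p 4)
          h0 hc hd h1 hom hM hη hA hρ0 hρ1 hρ2 hν hδ0 hr0 hr3 hε e2 e4' e5' e6' l1 h1' l4 he hB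
          l2 l3 (hB3 n1) n1 n2 n3
  · intro hx
    have hf := hfar (Or.inl (hx25 hx))
    rw [hL, hK] at hf
    have hN : d / 20 ≤ ‖NN c d ε p‖ := by
      rw [hNN, norm_neg]
      exact cr3 (by linarith)
    exact g_right om d M (FF δ lam0 p) (p 0) (p 1) (p 2) (p 3) (NN c d ε p) hom hM hd0 hd8 hG hw hu hs
      hN hy hf
  · intro hx hx'
    have := hq hx' (Or.inl (hx25 hx))
    exact ⟨this.2, this.1⟩

end Pool.Agent.Helper401.ENV.E3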