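import Mathlib
import Pool.Agent.Helper401.ENV.Defs
import Pool.Agent.Helper401.ENV.Ga

set_option autoImplicit false
namespace Pool.Agent.Helper401.ENV.Gb
open Set Metric Filter Topology
open Pool.Agent.Helper401.ENV.Ga (eqOn_zero)

/-- A chart of a local homeomorphism: a continuous section over a ball. -/
theorem j_chart {X V : Type*} [TopologicalSpace X] [NormedAddCommGroup V] {π : X → V}
    (h : IsLocalHomeomorph π) (x : X) :
    ∃ (r : ℝ) (σ : V → X) (W : Set X), 0 < r ∧ IsOpen W ∧ x ∈ W ∧ ContinuousOn σ (ball (π x) r) ∧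
      (∀ w ∈ ball (π x) r, σ w ∈ W ∧ π (σ w) = w) ∧
      (∀ y ∈ W, π y ∈ ball (π x) r ∧ σ (π y) = y) := by
  obtain ⟨e, hx, rfl⟩ := h x
  obtain ⟨r, hr, hb⟩ := Metric.isOpen_iff.1 e.open_target _ (e.map_source hx)
  refine ⟨r, e.symm, e.source ∩ e ⁻¹' ball (e x) r, hr,
    e.isOpen_inter_preimage isOpen_ball, ⟨hx, mem_ball_self hr⟩, e.continuousOn_symm.mono hb, ?_, ?_⟩
  · intro w hw
    refine ⟨⟨e.map_target (hb hw), ?_⟩, e.right_inv (hb hw)⟩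
    show e (e.symm w) ∈ ball (e x) r
    rw [e.right_inv (hb hw)]; exact hw
  · rintro y ⟨hy, hy2⟩
    exact ⟨hy2, e.left_inv hy⟩

/-- Identity theorem on a Riemann domain. -/
theorem hol_eq {n : ℕ} (Y : RDom n) {F₁ F₂ : Y.X → ℂ} (h1 : Hol Y F₁) (h2 : Hol Y F₂) {x : Y.X}
    (hx : ∀ᶠ y in 𝓝 x, F₁ y = F₂ y) : F₁ = F₂ := by
  have hclopen : IsClopen {y : Y.X | ∀ᶠ z in 𝓝 y, F₁ z = F₂ z} := by
    refine ⟨?_, isOpen_setOfPred_eventually_nhds⟩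
    rw [← closure_subset_iff_isClosed]
    intro y hy
    obtain ⟨U1, g1, hU1, hy1, hg1, he1⟩ := h1 y
    obtain ⟨U2, g2, hU2, hy2, hg2, he2⟩ := h2 y
    obtain ⟨N1, hN1, hN1o, hyN1⟩ := eventually_nhds_iff.1 he1
    obtain ⟨N2, hN2, hN2o, hyN2⟩ := eventually_nhds_iff.1 he2
    obtain ⟨r, σ, W, hr, hWo, hyW, hσ, hσW, hWσ⟩ := j_chart Y.lh y
    -- shrink the ball
    have hcont : ContinuousAt σ (Y.π y) := hσ.continuousAt (ball_mem_nhds _ hr)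
    have hσy : σ (Y.π y) = y := (hWσ y hyW).2
    have hpre : ∀ᶠ w in 𝓝 (Y.π y), w ∈ U1 ∧ w ∈ U2 ∧ σ w ∈ N1 ∧ σ w ∈ N2 := by
      have h3 : ∀ᶠ w in 𝓝 (Y.π y), σ w ∈ N1 := by
        apply hcont.eventually_mem; rw [hσy]; exact hN1o.mem_nhds hyN1
      have h4 : ∀ᶠ w in 𝓝 (Y.π y), σ w ∈ N2 := by
        apply hcont.eventually_mem; rw [hσy]; exact hN2o.mem_nhds hyN2
      filter_upwards [hU1.mem_nhds hy1, hU2.mem_nhds hy2, h3, h4] with w a b c d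
      exact ⟨a, b, c, d⟩
    obtain ⟨s, hs, hsb⟩ := Metric.eventually_nhds_iff_ball.1 (hpre.and (ball_mem_nhds (Y.π y) hr))
    have hπc : Continuous Y.π := Y.lh.continuous
    have hWy : W ∩ Y.π ⁻¹' ball (Y.π y) s ∈ 𝓝 y :=
      Filter.inter_mem (hWo.mem_nhds hyW) (hπc.continuousAt.preimage_mem_nhds (ball_mem_nhds _ hs))
    obtain ⟨y', ⟨hy'W, hy's⟩, hy'E⟩ := mem_closure_iff_nhds.1 hy _ hWy
    have hσ' : ContinuousAt σ (Y.π y') :=
      hσ.continuousAt (isOpen_ball.mem_nhds (hWσ y' hy'W).1)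
    have hzero : ∀ w ∈ ball (Y.π y) s, g1 w - g2 w = 0 := by
      apply eqOn_zero (U := ball (Y.π y) s) (f := fun w => g1 w - g2 w) isOpen_ball
        (convex_ball _ _).isPreconnected ?_ hy's ?_
      · exact (hg1.mono fun w hw => (hsb w hw).1.1).sub (hg2.mono fun w hw => (hsb w hw).1.2.1)
      · have h5 : ∀ᶠ w in 𝓝 (Y.π y'), F₁ (σ w) = F₂ (σ w) := by
          have := hσ'.eventually (p := fun z => F₁ z = F₂ z)
            (by rw [(hWσ y' hy'W).2]; exact hy'E)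
          exact this
        filter_upwards [h5, isOpen_ball.mem_nhds hy's] with w hw hwb
        obtain ⟨⟨a, b, c, d⟩, e⟩ := hsb w hwb
        have e1 := hN1 _ c
        have e2 := hN2 _ d
        rw [(hσW w e).2] at e1 e2
        rw [← e1, ← e2, hw, sub_self]
    show ∀ᶠ z in 𝓝 y, F₁ z = F₂ z
    filter_upwards [hWy] with z hz
    obtain ⟨⟨a, b, c, d⟩, e⟩ := hsb _ hz.2
    rw [(hWσ z hz.1).2] at c d
    rw [hN1 _ c, hN2 _ d]
    exact sub_eq_zero.1 (hzero _ hz.2)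
  have huniv := hclopen.eq_univ ⟨x, hx⟩
  funext y
  have : y ∈ {y : Y.X | ∀ᶠ z in 𝓝 y, F₁ z = F₂ z} := by rw [huniv]; trivial
  have h6 : ∀ᶠ z in 𝓝 y, F₁ z = F₂ z := this
  exact h6.self_of_nhds

section germ
variable {n : ℕ} {D : Set (Fin n → ℂ)} (Γ : GermSpace n D)

/-- The canonical map. -/
theorem j_exists (hDo : IsOpen D) : ∃ j : D → Γ.S, Continuous j ∧ ∀ z : D, Γ.π (j z) = z ∧
    ∀ f, DifferentiableOn ℂ f D → Γ.rep (j z) f =ᶠ[𝓝 (z : Fin n → ℂ)] f := by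
  have h1 : ∀ z : D, ∃ (r : ℝ) (σ : (Fin n → ℂ) → Γ.S), 0 < r ∧ ContinuousOn σ (ball (z : Fin n → ℂ) r) ∧
      ∀ w ∈ ball (z : Fin n → ℂ) r, Γ.π (σ w) = w ∧
      ∀ f, DifferentiableOn ℂ f D → Γ.rep (σ w) f =ᶠ[𝓝 w] f := by
    intro z
    obtain ⟨r, hr, hb⟩ := Metric.isOpen_iff.1 hDo z z.2
    obtain ⟨σ, h2, h3⟩ := Γ.sec z (fun f => f) r hr (fun f hf => hf.mono hb)
    exact ⟨r, σ, hr, h2, h3⟩
  choose r σ hr hσ hσ2 using h1
  refine ⟨fun z => σ z z, ?_, fun z => hσ2 z z (mem_ball_self (hr z))⟩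
  rw [continuous_iff_continuousAt]
  intro z0
  have h4 : ContinuousAt (fun z : D => σ z0 z) z0 :=
    ContinuousAt.comp (g := σ z0) (f := fun z : D => (z : Fin n → ℂ))
      ((hσ z0).continuousAt (ball_mem_nhds _ (hr z0))) continuous_subtype_val.continuousAt
  refine h4.congr ?_
  have h5 : ∀ᶠ z : D in 𝓝 z0, (z : Fin n → ℂ) ∈ ball (z0 : Fin n → ℂ) (r z0) :=
    continuous_subtype_val.continuousAt.eventually_mem (ball_mem_nhds _ (hr z0))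
  filter_upwards [h5] with z hz
  obtain ⟨a, b⟩ := hσ2 z0 z hz
  obtain ⟨c, d⟩ := hσ2 z z (mem_ball_self (hr z))
  apply Γ.ext
  · rw [a, c]
  · intro f hf
    rw [a]
    exact (b f hf).trans (d f hf).symm

theorem j_comp_open (s0 : Γ.S) : IsOpen (connectedComponent s0) := by
  rw [isOpen_iff_mem_nhds]
  intro x hx
  obtain ⟨r, σ, W, hr, hWo, hxW, hσ, hσW, hWσ⟩ := j_chart Γ.lh x
  have hsub : W ⊆ connectedComponent x := by
    have h1 : IsPreconnected (σ '' ball (Γ.π x) r) :=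
      (convex_ball _ _).isPreconnected.image _ hσ
    have h2 : W ⊆ σ '' ball (Γ.π x) r := fun y hy => ⟨Γ.π y, (hWσ y hy).1, (hWσ y hy).2⟩
    exact h2.trans (h1.subset_connectedComponent (h2 hxW))
  rw [connectedComponent_eq hx]
  exact Filter.mem_of_superset (hWo.mem_nhds hxW) hsub

/-- connected component of the germ space as a Riemann domain -/
def compDom (s0 : Γ.S) : RDom n where
  X := connectedComponent s0
  conn := isConnected_iff_connectedSpace.1 isConnected_connectedComponent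
  π := fun x => Γ.π x
  lh := Γ.lh.comp (j_comp_open Γ s0).isOpenEmbedding_subtypeVal.isLocalHomeomorph

/-- evaluation -/
def ev (s0 : Γ.S) (f : (Fin n → ℂ) → ℂ) : (compDom Γ s0).X → ℂ :=
  fun x => Γ.rep x.1 f (Γ.π x.1)

theorem ev_hol (s0 : Γ.S) {f : (Fin n → ℂ) → ℂ} (hf : DifferentiableOn ℂ f D) :
    Hol (compDom Γ s0) (ev Γ s0 f) := by
  rintro ⟨x, hx⟩
  obtain ⟨r, hr, h1, h2⟩ := Γ.rep_loc x
  refine ⟨ball (Γ.π x) r, Γ.rep x f, isOpen_ball, mem_ball_self hr, h1 f hf, ?_⟩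
  have h3 : Tendsto (Subtype.val : connectedComponent s0 → Γ.S) (𝓝 ⟨x, hx⟩) (𝓝 x) :=
    continuous_subtype_val.continuousAt
  have h4 := h3.eventually h2
  filter_upwards [h4] with y hy
  exact (hy f hf).self_of_nhds

theorem j_to_germ (Z : RDom n) (κ : D → Z.X) (hDo : IsOpen D) (hZ : IsExtension D Z κ) :
    ∃ φ : Z.X → Γ.S, Continuous φ ∧ (∀ x, Γ.π (φ x) = Z.π x) ∧
      ∀ z : D, ∀ f, DifferentiableOn ℂ f D → Γ.rep (φ (κ z)) f =ᶠ[𝓝 (z : Fin n → ℂ)] f := by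
  have hF0 : ∀ f : (Fin n → ℂ) → ℂ, ∃ F : Z.X → ℂ, DifferentiableOn ℂ f D →
      (Hol Z F ∧ ∀ z : D, F (κ z) = f z) := by
    intro f
    by_cases hf : DifferentiableOn ℂ f D
    · obtain ⟨F, h1, h2⟩ := hZ.ext f hf
      exact ⟨F, fun _ => ⟨h1, h2⟩⟩
    · exact ⟨fun _ => 0, fun h => absurd h hf⟩
  choose F hF using hF0
  choose r σ W hr hWo hyW hσ hσW hWσ using fun y => j_chart Z.lh y
  have hdiff : ∀ y : Z.X, ∀ f, DifferentiableOn ℂ f D →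
      DifferentiableOn ℂ (fun w => F f (σ y w)) (ball (Z.π y) (r y)) := by
    intro y f hf w hw
    obtain ⟨U, g, hU, hyU, hg, he⟩ := (hF f hf).1 (σ y w)
    rw [(hσW y w hw).2] at hyU
    have hc : ContinuousAt (σ y) w := (hσ y).continuousAt (isOpen_ball.mem_nhds hw)
    have h1 : ∀ᶠ w' in 𝓝 w, F f (σ y w') = g (Z.π (σ y w')) := hc.eventually he
    have h2 : (fun w' => F f (σ y w')) =ᶠ[𝓝 w] g := by
      filter_upwards [h1, isOpen_ball.mem_nhds hw] with w' h3 h4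
      rw [h3, (hσW y w' h4).2]
    exact (((hg.differentiableAt (hU.mem_nhds hyU)).congr_of_eventuallyEq h2)).differentiableWithinAt
  choose τ hτ1 hτ2 using fun y => Γ.sec (Z.π y) (fun f w => F f (σ y w)) (r y) (hr y) (hdiff y)
  refine ⟨fun y => τ y (Z.π y), ?_, fun y => (hτ2 y _ (mem_ball_self (hr y))).1, ?_⟩
  · rw [continuous_iff_continuousAt]
    intro y0
    have h4 : ContinuousAt (fun y => τ y0 (Z.π y)) y0 :=
      ContinuousAt.comp (g := τ y0) (f := Z.π)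
        ((hτ1 y0).continuousAt (ball_mem_nhds _ (hr y0))) Z.lh.continuous.continuousAt
    refine h4.congr ?_
    filter_upwards [(hWo y0).mem_nhds (hyW y0)] with y hy
    obtain ⟨hyb, hyσ⟩ := hWσ y0 y hy
    obtain ⟨a, b⟩ := hτ2 y0 (Z.π y) hyb
    obtain ⟨c, d⟩ := hτ2 y (Z.π y) (mem_ball_self (hr y))
    apply Γ.ext
    · rw [a, c]
    · intro f hf
      rw [a]
      refine (b f hf).trans (Filter.EventuallyEq.trans ?_ (d f hf).symm)
      -- σ y0 w = σ y w for w near π y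
      have hc : ContinuousAt (σ y) (Z.π y) := (hσ y).continuousAt (ball_mem_nhds _ (hr y))
      have h5 : ∀ᶠ w in 𝓝 (Z.π y), σ y w ∈ W y0 := by
        apply hc.eventually_mem
        rw [(hWσ y y (hyW y)).2]
        exact (hWo y0).mem_nhds hy
      filter_upwards [h5, ball_mem_nhds (Z.π y) (hr y)] with w h6 h7
      have h8 := (hWσ y0 _ h6).2
      rw [(hσW y w h7).2] at h8
      rw [h8]
  · intro z f hf
    have hz : Z.π (κ z) = z := hZ.sec z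
    obtain ⟨c, d⟩ := hτ2 (κ z) (Z.π (κ z)) (mem_ball_self (hr _))
    have d' := d f hf
    show Γ.rep (τ (κ z) (Z.π (κ z))) f =ᶠ[𝓝 (z : Fin n → ℂ)] f
    rw [hz] at d' ⊢
    refine d'.trans ?_
    -- σ (κ z) w = κ w for w near z
    have hcont := hZ.cont
    have h1 : ∀ᶠ w : D in 𝓝 z, κ w ∈ W (κ z) :=
      hcont.continuousAt.eventually_mem ((hWo _).mem_nhds (hyW _))
    have h2 : ∀ᶠ w in 𝓝 (z : Fin n → ℂ), ∀ hw : w ∈ D, κ ⟨w, hw⟩ ∈ W (κ z) := by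
      have h3 := (hDo.isOpenEmbedding_subtypeVal).map_nhds_eq z
      rw [← h3, Filter.eventually_map]
      filter_upwards [h1] with w hw hw2
      exact hw
    filter_upwards [h2, hDo.mem_nhds z.2] with w hw hwD
    have h4 := (hWσ (κ z) _ (hw hwD)).2
    rw [hZ.sec ⟨w, hwD⟩] at h4
    show F f (σ (κ z) w) = f w
    have h5 : σ (κ z) w = κ ⟨w, hwD⟩ := h4
    rw [h5, (hF f hf).2 ⟨w, hwD⟩]

theorem comp_isEnvelope (hDo : IsOpen D) (hDc : IsConnected D) :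
    ∃ (s0 : Γ.S) (ι : D → (compDom Γ s0).X), IsEnvelope D (compDom Γ s0) ι ∧
      (∀ z : D, Γ.π (ι z).1 = z ∧
        ∀ f, DifferentiableOn ℂ f D → Γ.rep (ι z).1 f =ᶠ[𝓝 (z : Fin n → ℂ)] f) := by
  obtain ⟨j, hj, hj2⟩ := j_exists Γ hDo
  obtain ⟨z00, hz00⟩ := hDc.nonempty
  let z0 : D := ⟨z00, hz00⟩
  have : ConnectedSpace D := isConnected_iff_connectedSpace.1 hDc
  have hC : ∀ z, j z ∈ connectedComponent (j z0) := fun z =>
    (isPreconnected_range hj).subset_connectedComponent (mem_range_self z0) (mem_range_self z)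
  refine ⟨j z0, fun z => ⟨j z, hC z⟩, ⟨⟨hj.subtype_mk _, fun z => (hj2 z).1, ?_⟩, ?_⟩, fun z => hj2 z⟩
  · intro f hf
    refine ⟨ev Γ _ f, ev_hol Γ _ hf, fun z => ?_⟩
    show Γ.rep (j z) f (Γ.π (j z)) = f z
    rw [(hj2 z).1]
    exact ((hj2 z).2 f hf).self_of_nhds
  · intro Z κ hZ
    obtain ⟨φ, hφ, hφ1, hφ2⟩ := j_to_germ Γ Z κ hDo hZ
    have hφκ : ∀ z, φ (κ z) = j z := by
      intro z
      apply Γ.ext
      · rw [hφ1, hZ.sec, (hj2 z).1]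
      · intro f hf
        rw [hφ1, hZ.sec]
        exact (hφ2 z f hf).trans ((hj2 z).2 f hf).symm
    have hmem : ∀ x, φ x ∈ connectedComponent (j z0) := fun x =>
      (isPreconnected_range hφ).subset_connectedComponent ⟨κ z0, hφκ z0⟩ (mem_range_self x)
    exact ⟨fun x => ⟨φ x, hmem x⟩, hφ.subtype_mk _, hφ1, fun z => Subtype.ext (hφκ z)⟩

end germ

/-- The envelope obtained from a germ space. -/
theorem exists_envelope_of {n : ℕ} {D : Set (Fin n → ℂ)} (hDo : IsOpen D) (hDc : IsConnected D)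
    (Γ : GermSpace n D) : ∃ (Y : RDom n) (ι : D → Y.X), IsEnvelope D Y ι := by
  obtain ⟨s0, ι, h, -⟩ := comp_isEnvelope Γ hDo hDc
  exact ⟨_, ι, h⟩

theorem j_hol_comp {n : ℕ} {X Y : RDom n} {φ : X.X → Y.X} (hφ : Continuous φ)
    (hπ : ∀ x, Y.π (φ x) = X.π x) {F : Y.X → ℂ} (hF : Hol Y F) : Hol X (fun x => F (φ x)) := by
  intro x
  obtain ⟨U, g, hU, hx, hg, he⟩ := hF (φ x)
  refine ⟨U, g, hU, by rw [← hπ]; exact hx, hg, ?_⟩
  filter_upwards [hφ.continuousAt.eventually he] with y hy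
  rw [hy, hπ]

/-- Simultaneous analytic continuation along a path gives a point of the envelope. -/
theorem continuation_point {n : ℕ} {D : Set (Fin n → ℂ)} (hDo : IsOpen D) (hDc : IsConnected D)
    (Γ : GermSpace n D)
    (Y : RDom n) (ι : D → Y.X) (hY : IsEnvelope D Y ι)
    (p : ℝ → (Fin n → ℂ)) (hp : ContinuousOn p (Icc 0 1)) (hp0 : p 0 ∈ D)
    (c : ℝ → ((Fin n → ℂ) → ℂ) → (Fin n → ℂ) → ℂ)
    (h0 : ∀ f, DifferentiableOn ℂ f D → c 0 f =ᶠ[𝓝 (p 0)] f)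
    (hstep : ∀ τ ∈ Icc (0 : ℝ) 1, ∃ r : ℝ, 0 < r ∧ ∃ η : ℝ, 0 < η ∧
      (∀ f, DifferentiableOn ℂ f D → DifferentiableOn ℂ (c τ f) (ball (p τ) r)) ∧
      ∀ τ' ∈ Icc (0 : ℝ) 1, |τ' - τ| < η → p τ' ∈ ball (p τ) r ∧
        ∀ f, DifferentiableOn ℂ f D → c τ' f =ᶠ[𝓝 (p τ')] c τ f) :
    ∃ x : Y.X, Y.π x = p 1 ∧ ∀ f F, DifferentiableOn ℂ f D → Hol Y F →
      (∀ z : D, F (ι z) = f z) → F x = c 1 f (p 1) := by
  obtain ⟨s0, ι', hX, hι'⟩ := comp_isEnvelope Γ hDo hDc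
  -- the path in the germ space
  have hstep2 : ∀ τ : ℝ, ∃ (r : ℝ) (η : ℝ) (σ : (Fin n → ℂ) → Γ.S), τ ∈ Icc (0:ℝ) 1 → 0 < r ∧ 0 < η ∧
      ContinuousOn σ (ball (p τ) r) ∧ (∀ w ∈ ball (p τ) r, Γ.π (σ w) = w ∧
        ∀ f, DifferentiableOn ℂ f D → Γ.rep (σ w) f =ᶠ[𝓝 w] c τ f) ∧
      ∀ τ' ∈ Icc (0 : ℝ) 1, |τ' - τ| < η → p τ' ∈ ball (p τ) r ∧
        ∀ f, DifferentiableOn ℂ f D → c τ' f =ᶠ[𝓝 (p τ')] c τ f := by
    intro τ
    by_cases hτ : τ ∈ Icc (0:ℝ) 1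
    · obtain ⟨r, hr, η, hη, h1, h2⟩ := hstep τ hτ
      obtain ⟨σ, h3, h4⟩ := Γ.sec (p τ) (c τ) r hr h1
      exact ⟨r, η, σ, fun _ => ⟨hr, hη, h3, h4, h2⟩⟩
    · exact ⟨0, 0, fun _ => s0, fun h => absurd h hτ⟩
  choose r η σ hσ using hstep2
  have hq1 : ∀ τ ∈ Icc (0:ℝ) 1, Γ.π (σ τ (p τ)) = p τ ∧
      ∀ f, DifferentiableOn ℂ f D → Γ.rep (σ τ (p τ)) f =ᶠ[𝓝 (p τ)] c τ f := by
    intro τ hτ
    obtain ⟨a, b, _, d, _⟩ := hσ τ hτ
    exact d _ (mem_ball_self a)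
  have hqc : ContinuousOn (fun τ => σ τ (p τ)) (Icc 0 1) := by
    intro τ hτ
    obtain ⟨a, b, c', d, e⟩ := hσ τ hτ
    have h4 : ContinuousWithinAt (fun τ' => σ τ (p τ')) (Icc 0 1) τ :=
      ContinuousAt.comp_continuousWithinAt (g := σ τ) (f := p)
        (c'.continuousAt (ball_mem_nhds _ a)) (hp τ hτ)
    refine h4.congr_of_eventuallyEq ?_ rfl
    have h5 : ∀ᶠ τ' in 𝓝[Icc 0 1] τ, τ' ∈ ball τ (η τ) :=
      nhdsWithin_le_nhds (ball_mem_nhds _ b)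
    filter_upwards [h5, self_mem_nhdsWithin] with τ' h6 h7
    rw [mem_ball, Real.dist_eq] at h6
    obtain ⟨h8, h9⟩ := e τ' h7 h6
    obtain ⟨f1, f2⟩ := d _ h8
    obtain ⟨g1, g2⟩ := hq1 τ' h7
    apply Γ.ext
    · rw [f1, g1]
    · intro f hf
      rw [g1]
      exact ((g2 f hf).trans (h9 f hf)).trans (f2 f hf).symm
  have h01 : (0:ℝ) ∈ Icc (0:ℝ) 1 := by simp
  have h11 : (1:ℝ) ∈ Icc (0:ℝ) 1 := by simp
  have hq0 : σ 0 (p 0) = (ι' ⟨p 0, hp0⟩).1 := by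
    obtain ⟨g1, g2⟩ := hq1 0 h01
    obtain ⟨k1, k2⟩ := hι' ⟨p 0, hp0⟩
    apply Γ.ext
    · rw [g1, k1]
    · intro f hf
      rw [g1]
      exact ((g2 f hf).trans (h0 f hf)).trans (k2 f hf).symm
  have hq1mem : σ 1 (p 1) ∈ connectedComponent s0 := by
    have h1 : IsPreconnected ((fun τ => σ τ (p τ)) '' Icc 0 1) := isPreconnected_Icc.image _ hqc
    have h2 : (ι' ⟨p 0, hp0⟩).1 ∈ connectedComponent s0 := (ι' ⟨p 0, hp0⟩).2
    rw [connectedComponent_eq h2]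
    refine h1.subset_connectedComponent ?_ ?_
    · exact ⟨0, h01, hq0⟩
    · exact ⟨1, h11, rfl⟩
  obtain ⟨φ, hφ, hφ1, hφ2⟩ := hY.max (compDom Γ s0) ι' hX.ext
  let q : (compDom Γ s0).X := ⟨σ 1 (p 1), hq1mem⟩
  refine ⟨φ q, ?_, ?_⟩
  · rw [hφ1]; exact (hq1 1 h11).1
  · intro f F hf hF hFf
    have h1 : (fun x => F (φ x)) = ev Γ s0 f := by
      apply hol_eq (compDom Γ s0) (j_hol_comp hφ hφ1 hF) (ev_hol Γ s0 hf) (x := ι' ⟨p 0, hp0⟩)
      obtain ⟨ρ, σ', W, hr, hWo, hxW, hσ', hσW, hWσ⟩ := j_chart (compDom Γ s0).lh (ι' ⟨p 0, hp0⟩)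
      have h2 : ∀ᶠ w : D in 𝓝 ⟨p 0, hp0⟩, ι' w ∈ W :=
        hX.ext.cont.continuousAt.eventually_mem (hWo.mem_nhds hxW)
      have h3 : ∀ᶠ w in 𝓝 (p 0), ∃ hw : w ∈ D, ι' ⟨w, hw⟩ ∈ W := by
        have h3 := (hDo.isOpenEmbedding_subtypeVal).map_nhds_eq ⟨p 0, hp0⟩
        change ∀ᶠ w in 𝓝 ((⟨p 0, hp0⟩ : D) : Fin n → ℂ), _
        rw [← h3, Filter.eventually_map]
        filter_upwards [h2] with w hw
        exact ⟨w.2, hw⟩
      have h4 : ContinuousAt (compDom Γ s0).π (ι' ⟨p 0, hp0⟩) := (compDom Γ s0).lh.continuous.continuousAt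
      have h5 : ∀ᶠ x in 𝓝 (ι' ⟨p 0, hp0⟩), ∃ hw : (compDom Γ s0).π x ∈ D, ι' ⟨_, hw⟩ ∈ W := by
        have h6 : Tendsto (compDom Γ s0).π (𝓝 (ι' ⟨p 0, hp0⟩)) (𝓝 (p 0)) := by
          have := h4.tendsto
          rw [hX.ext.sec] at this
          exact this
        exact h6.eventually h3
      filter_upwards [h5, hWo.mem_nhds hxW] with x hx hxW
      obtain ⟨hw, hw2⟩ := hx
      have h7 : x = ι' ⟨_, hw⟩ := by
        have a := (hWσ x hxW).2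
        have b := (hWσ _ hw2).2
        rw [hX.ext.sec] at b
        exact a.symm.trans b
      show F (φ x) = ev Γ s0 f x
      have h8 : F (φ x) = f ((compDom Γ s0).π x) := by
        have h80 : F (φ x) = F (φ (ι' ⟨_, hw⟩)) := congrArg (fun y => F (φ y)) h7
        rw [h80, hφ2, hFf]
      have h9 : ev Γ s0 f x = f ((compDom Γ s0).π x) := by
        have h90 : ev Γ s0 f x = ev Γ s0 f (ι' ⟨_, hw⟩) := congrArg (fun y => ev Γ s0 f y) h7
        rw [h90]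
        show Γ.rep (ι' ⟨_, hw⟩).1 f (Γ.π (ι' ⟨_, hw⟩).1) = _
        rw [(hι' ⟨_, hw⟩).1]
        exact ((hι' ⟨_, hw⟩).2 f hf).self_of_nhds
      rw [h8, h9]
    have h10 : F (φ q) = ev Γ s0 f q := congrFun h1 q
    rw [h10]
    show Γ.rep (σ 1 (p 1)) f (Γ.π (σ 1 (p 1))) = c 1 f (p 1)
    rw [(hq1 1 h11).1]
    exact ((hq1 1 h11).2 f hf).self_of_nhds

end Pool.Agent.Helper401.ENV.Gb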