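import Mathlib
import Pool.Agent.Helper401.ENV.Defs
set_option autoImplicit false
namespace Pool.Agent.Helper401.ENV.M1
open Complex Set Metric Filter Topology

theorem arctan_ge (om : ℝ) (M : ℕ) (hom : 1 ≤ om) (hM : 1000 * om ^ 2 ≤ M) :
    om - 1 ≤ M * Real.arctan (om / M) := by
  have hM0 : (0 : ℝ) < M := by nlinarith
  have hx0 : 0 ≤ (om - 1) / M := div_nonneg (by linarith) hM0.le
  have hx1 : (om - 1) / M ≤ 1 / (1000 * om) := by
    rw [div_le_div_iff₀ hM0 (by positivity)]
    nlinarith
  have hx2 : (om - 1) / M ≤ 1 / 1000 := hx1.trans (by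
    rw [div_le_div_iff₀ (by positivity) (by norm_num)]; nlinarith)
  set x := (om - 1) / M with hx
  have hcos : 1 - x ^ 2 / 2 ≤ Real.cos x := Real.one_sub_sq_div_two_le_cos
  have hsin : Real.sin x ≤ x := Real.sin_le hx0
  have hc1 : 0 < 1 - x ^ 2 / 2 := by nlinarith
  have htan : Real.tan x ≤ om / M := by
    rw [Real.tan_eq_sin_div_cos]
    rw [div_le_div_iff₀ (by linarith) hM0]
    have h1 : Real.sin x * M ≤ x * M := mul_le_mul_of_nonneg_right hsin hM0.le
    have h2 : x * M = om - 1 := by rw [hx]; field_simp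
    have h3 : om * x ^ 2 ≤ 1 := by
      have : om * x ≤ 1 / 1000 := by
        have := mul_le_mul_of_nonneg_left hx1 (by linarith : 0 ≤ om)
        refine this.trans (le_of_eq ?_)
        field_simp
      nlinarith
    nlinarith
  have h4 : x ≤ Real.arctan (om / M) := by
    have h5 := Real.arctan_le_arctan_iff.2 htan
    rwa [Real.arctan_tan (by linarith [Real.pi_pos]) (by linarith [Real.pi_gt_three])] at h5
  calc om - 1 = M * x := by rw [hx]; field_simp
    _ ≤ _ := mul_le_mul_of_nonneg_left h4 hM0.le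

theorem exists_time (om c : ℝ) (M : ℕ) (hom : 1 ≤ om) (hM : 1000 * om ^ 2 ≤ M) (hc : 0 ≤ c)
    (hc1 : c ≤ om - 1) : ∃ t : ℝ, 0 ≤ t ∧ t ≤ 1 ∧ M * Real.arctan (om * t / M) = c := by
  have hcont : ContinuousOn (fun t : ℝ => M * Real.arctan (om * t / M)) (Icc 0 1) := by
    apply Continuous.continuousOn
    have : Continuous fun t : ℝ => Real.arctan (om * t / M) :=
      Real.continuous_arctan.comp (by fun_prop)
    fun_prop
  have h := intermediate_value_Icc (zero_le_one) hcont
  have hmem : c ∈ Icc ((fun t : ℝ => M * Real.arctan (om * t / M)) 0)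
      ((fun t : ℝ => M * Real.arctan (om * t / M)) 1) := by
    constructor
    · simp [hc]
    · simp only [mul_one]
      exact hc1.trans (arctan_ge om M hom hM)
  obtain ⟨t, ht, hte⟩ := h hmem
  exact ⟨t, ht.1, ht.2, hte⟩

end Pool.Agent.Helper401.ENV.M1
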