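import Mathlib
import Pool.Agent.Helper401.ENV.Defs
import Pool.Agent.Helper401.ENV.Defs2
import Pool.Agent.Helper401.ENV.D1
import Pool.Agent.Helper401.ENV.B6
import Pool.Agent.Helper401.ENV.Q4
import Pool.Agent.Helper401.ENV.E3
set_option autoImplicit false
namespace Pool.Agent.Helper401.ENV.MainA
open Complex Set Metric Filter Topology
open scoped ContDiff

theorem nn_bounds (p : Fin 5 → ℂ) (h : nn p ≤ 21 / 5) :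
    ‖p 1‖ ≤ 21 / 10 ∧ ‖p 2‖ ≤ 21 / 10 ∧ ‖p 3‖ ≤ 21 / 10 := by
  unfold nn at h
  have h0 := sq_nonneg ‖p 0‖
  have h1 := sq_nonneg ‖p 1‖
  have h2 := sq_nonneg ‖p 2‖
  have h3 := sq_nonneg ‖p 3‖
  have h4 := sq_nonneg (p 4).re
  refine ⟨?_, ?_, ?_⟩ <;> refine abs_le_of_sq_le_sq' (b := 21 / 10) ?_ (by norm_num) |>.2 <;>
    nlinarith

theorem mainA (lam0 om : ℝ) (h0 : 0 < lam0) (h1 : lam0 ≤ 1 / 4) (hom : 1 ≤ om) :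
    ∃ (M : ℕ) (A ρ r' : ℝ), 1000 * om ^ 2 ≤ M ∧ 0 < A ∧ 0 < ρ ∧ ρ ≤ lam0 / 16 ∧ 0 < r' ∧
      ∃ ε0 : ℝ, 0 < ε0 ∧ ∀ ε : ℝ, 0 < ε → ε ≤ ε0 → ∀ (eT : ℝ → ℝ) (Bs : ℂ × ℂ × ℝ → ℝ),
        IsOpen {p : Fin 5 → ℂ | rr eT Bs p < 0} →
        (∀ x, 0 ≤ eT x ∧ eT x ≤ 1 / 2000) →
        (∀ x, eT x ≤ (ε + (max (x - 3 / 2 * lam0) 0) ^ 2) / 4) → (∀ q, 0 ≤ Bs q) →
        (∀ v s x, |x - lam0| ≤ ρ → ‖v‖ ≤ 3 → ‖s‖ ≤ 3 → Bs (v, s, x) < (A + 1) * ε →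
          (‖v‖ ≤ 1 / (50 * om) ∧ ‖s - 1‖ ≤ 1 / 10) ∨
          (|x - lam0| ≤ r' ∧ ∃ t : ℝ, |t| ≤ 3 ∧ ‖v - t‖ ≤ 1 / (50 * om) ∧
            ‖s - Complex.exp (I * (M * Real.arctan (om * t / M)))‖ ≤ 1 / 10)) →
        ∃ f : (Fin 5 → ℂ) → ℂ, DifferentiableOn ℂ f {p : Fin 5 → ℂ | rr eT Bs p < 0} ∧
          ∀ (t : ℝ) (ζ : ℂ), ‖ζ‖ = 1 → Complex.exp (I * (M * Real.arctan (om * t / M))) = 1 →
            f ![ζ, 0, t * ζ, 1, (lam0 : ℂ)] = I * (M * Real.arctan (om * t / M)) := by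
  obtain ⟨M, A, ρ, r', δ, hM, hA, hρ, hρ1, hr, ε0, hε0, H⟩ := E3.parA lam0 om h0 h1 hom
  refine ⟨M, A, ρ, r', hM, hA, hρ, hρ1, hr, ε0, hε0, ?_⟩
  intro ε hε hε1 eT Bs hopen e1 e2 hB hB3
  have hMp : 0 < M := by
    have : (0 : ℝ) < M := by nlinarith
    exact_mod_cast this
  have key : ∀ p ∈ {p : Fin 5 → ℂ | rr eT Bs p < 0}, _ := fun p (hp : rr eT Bs p < 0) => by
    obtain ⟨g1, g2, g3, g4, g5⟩ := B6.rr_geom eT Bs e1 hB p hp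
    obtain ⟨n1, n2, n3⟩ := nn_bounds p g2
    refine H ε hε hε1 p (eT (p 4).re) (Bs (p 2 * (starRingEnd ℂ) (p 0), p 3, (p 4).re))
      (hB _) (e2 _) g1 g3 n1 n2 n3 g4 ?_ ?_
    · intro hx
      obtain ⟨a1, a2, a3, a4, a5, a6⟩ := g5 hx
      exact ⟨a2, a3, a4, a6⟩
    · intro hx hBB
      have hx2 : (p 4).re ≤ 1 / 2 := by
        have := (abs_le.1 hx).2
        linarith
      obtain ⟨a1, a2, a3, a4, a5, a6⟩ := g5 hx2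
      exact hB3 _ _ _ hx (a5.trans (by norm_num)) (a4.trans (by norm_num)) hBB
  refine ⟨ff om δ lam0 (3 / 2 * lam0) (lam0 / 2) ε M,
    D1.ff_diff om δ lam0 (3 / 2 * lam0) (lam0 / 2) ε M _ hopen (fun p hp => (key p hp).1)
      (fun p hp => (key p hp).2.1) (fun p hp => (key p hp).2.2.1)
      (fun p hp => (key p hp).2.2.2.1) (fun p hp => (key p hp).2.2.2.2), ?_⟩
  intro t ζ hζ he
  have hζ0 : ζ ≠ 0 := by
    intro h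
    rw [h, norm_zero] at hζ
    exact zero_ne_one hζ
  have hF : FF δ lam0 ![ζ, 0, t * ζ, 1, (lam0 : ℂ)] = 1 := by simp [FF]
  have hh' : hh om δ lam0 M ![ζ, 0, t * ζ, 1, (lam0 : ℂ)] = 1 + I * ((om * t / M : ℝ) : ℂ) := by
    unfold hh
    rw [hF]
    simp
    field_simp
  have hg : gg om δ lam0 (3 / 2 * lam0) (lam0 / 2) ε M ![ζ, 0, t * ζ, 1, (lam0 : ℂ)] = 1 := by
    unfold gg
    rw [hF]
    simp [hMp.ne']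
  have hlt : (![ζ, 0, t * ζ, 1, (lam0 : ℂ)] : Fin 5 → ℂ) 4 = (lam0 : ℂ) := rfl
  unfold ff
  rw [hlt, Complex.ofReal_re, if_pos (by linarith), hg, hh']
  exact Q4.log_value (om * t / M) M hMp he

end Pool.Agent.Helper401.ENV.MainA
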