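import Mathlib
import Pool.Agent.Helper401.ENV.Defs
import Pool.Agent.Helper401.ENV.B1
import Pool.Agent.Helper401.ENV.B2
import Pool.Agent.Helper401.ENV.B4
import Pool.Agent.Helper401.ENV.B5
import Pool.Agent.Helper401.ENV.MainA
import Pool.Agent.Helper401.ENV.B6
set_option autoImplicit false
namespace Pool.Agent.Helper401.ENV.MainB
open Complex Set Metric Filter Topology
open scoped ContDiff

theorem rr_circle (eT : ℝ → ℝ) (Bs : ℂ × ℂ × ℝ → ℝ) (ζ v s : ℂ) (x : ℝ) (hζ : ‖ζ‖ = 1)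
    (hn : ‖v‖ ^ 2 + ‖s‖ ^ 2 + x ^ 2 ≤ 3) :
    rr eT Bs ![ζ, 0, v * ζ, s, (x : ℂ)] = - eT x + Bs (v, s, x) := by
  have hnn : nn ![ζ, 0, v * ζ, s, (x : ℂ)] - 4 ≤ 0 := by
    simp [nn, hζ]
    linarith
  have hc : v * ζ * (starRingEnd ℂ) ζ = v := by
    rw [mul_assoc, Complex.mul_conj, Complex.normSq_eq_norm_sq, hζ]; simp
  unfold rr
  rw [expNegInvGlue.zero_of_nonpos hnn]
  simp [hζ, hc]

theorem rr_disc (eT : ℝ → ℝ) (Bs : ℂ × ℂ × ℝ → ℝ) (ζ : ℂ) (hζ : ‖ζ‖ ≤ 1) :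
    rr eT Bs ![ζ, 0, 0, 1, 1] = - eT 1 + Bs (0, 1, 1) := by
  have hnn : nn ![ζ, 0, 0, 1, 1] - 4 ≤ 0 := by
    simp [nn]
    nlinarith [norm_nonneg ζ]
  have h2 : (3 / 4 - 1 : ℝ) ≤ 0 := by norm_num
  unfold rr
  rw [expNegInvGlue.zero_of_nonpos hnn]
  simp [expNegInvGlue.zero_of_nonpos h2]

theorem comp_sub {X : Type*} [TopologicalSpace X] {F S : Set X} {p q : X}
    (hq : q ∈ connectedComponentIn F p) (hS : IsPreconnected S) (hqS : q ∈ S) (hSF : S ⊆ F) :
    S ⊆ connectedComponentIn F p := by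
  rw [connectedComponentIn_eq hq]
  exact hS.subset_connectedComponentIn hqS hSF

theorem mainB : ∃ D : Set (Fin 5 → ℂ), IsOpen D ∧ IsConnected D ∧ Bornology.IsBounded D ∧
    SmoothBoundary D ∧ (∀ ζ : ℂ, ‖ζ‖ ≤ 1 → (![ζ, 0, 0, 1, 1] : Fin 5 → ℂ) ∈ D) ∧
    ∀ N : ℕ, ∃ (lam om : ℝ) (M : ℕ), 0 < lam ∧ lam ≤ 1 / 4 ∧ om = 2 * Real.pi * N + 1 ∧
      1000 * om ^ 2 ≤ M ∧
      (∀ (t x : ℝ), 0 ≤ t → t ≤ 1 → lam ≤ x → x ≤ 1 → (t = 0 ∨ x = lam) → ∀ ζ : ℂ, ‖ζ‖ = 1 →
        (![ζ, 0, t * ζ, Complex.exp (I * (M * Real.arctan (om * t / M))), (x : ℂ)] : Fin 5 → ℂ)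
          ∈ D) ∧
      ∃ f : (Fin 5 → ℂ) → ℂ, DifferentiableOn ℂ f D ∧
        ∀ (t : ℝ) (ζ : ℂ), ‖ζ‖ = 1 → Complex.exp (I * (M * Real.arctan (om * t / M))) = 1 →
          f ![ζ, 0, t * ζ, 1, (lam : ℂ)] = I * (M * Real.arctan (om * t / M)) := by
  have hpi := Real.pi_pos
  have hl0 : ∀ j : ℕ, (0 : ℝ) < 1 / 4 * (1 / 2) ^ j := fun j => by positivity
  have hl1 : ∀ j : ℕ, (1 / 4 * (1 / 2) ^ j : ℝ) ≤ 1 / 4 := fun j => by
    have : ((1 : ℝ) / 2) ^ j ≤ 1 := pow_le_one₀ (by norm_num) (by norm_num)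
    linarith
  have hom : ∀ j : ℕ, (1 : ℝ) ≤ 2 * Real.pi * j + 1 := fun j => by
    have : (0 : ℝ) ≤ 2 * Real.pi * j := by positivity
    linarith
  choose M A ρ r' hM hA hρ hρ1 hr ε0 hε0 hf using
    fun j : ℕ => MainA.mainA (1 / 4 * (1 / 2) ^ j) (2 * Real.pi * j + 1) (hl0 j) (hl1 j) (hom j)
  have hM0 : ∀ j, 0 < M j := fun j => by
    have h1 := hM j
    have h2 := hom j
    have : (0 : ℝ) < M j := by nlinarith
    exact_mod_cast this
  choose b hb1 hb2 hb3 hb4 hb5 hb6 hb7 using fun j : ℕ =>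
    B1.exists_bump (1 / 4 * (1 / 2) ^ j) (ρ j) (r' j) (2 * Real.pi * j + 1) (A j) (M j)
      (hl0 j) (hρ j) (hr j) (hom j) (hA j) (hM0 j)
  obtain ⟨ε, hε, hsum, hsm, hfd, hle⟩ := B2.exists_sum b hb1 hb2 hb3 ε0 hε0 (1 / 10 ^ 8)
    (by norm_num)
  obtain ⟨eT, e1, e2, e3, e4, e5, e6, e7, e8⟩ := B2.exists_trunk ε (fun j => (hε j).1)
  set Bs : ℂ × ℂ × ℝ → ℝ := fun q => ∑' j, ε j * b j q with hBs
  have hBs0 : ∀ q, 0 ≤ Bs q := fun q =>
    tsum_nonneg fun j => mul_nonneg (hε j).1.le (hb3 j q)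
  have hBsr : ∀ v s x, 9 / 20 ≤ x → Bs (v, s, x) = 0 := by
    intro v s x hx
    have : ∀ j, ε j * b j (v, s, x) = 0 := by
      intro j
      rw [hb4 j v s x, mul_zero]
      have h1 := hρ1 j
      have h2 := hl1 j
      rw [le_abs]; left
      linarith
    simp only [hBs, this, tsum_zero]
  have hBst : ∀ x, Bs (0, 1, x) = 0 := by
    intro x
    have : ∀ j, ε j * b j (0, 1, x) = 0 := by
      intro j
      rw [hb5 j, mul_zero]
    simp only [hBs, this, tsum_zero]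
  have hBsh : ∀ (j : ℕ) (t : ℝ), Bs ((t : ℂ), Complex.exp (I * (M j * Real.arctan
      ((2 * Real.pi * j + 1) * t / M j))), 1 / 4 * (1 / 2) ^ j) = 0 := by
    intro j t
    have : ∀ i, ε i * b i ((t : ℂ), Complex.exp (I * (M j * Real.arctan
      ((2 * Real.pi * j + 1) * t / M j))), 1 / 4 * (1 / 2) ^ j) = 0 := by
      intro i
      by_cases hij : i = j
      · subst hij; rw [hb6 i t, mul_zero]
      · rw [hb4 i, mul_zero]
        have h1 := hρ1 i
        have hi : (0 : ℝ) < (1 / 2) ^ i := by positivity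
        have hj : (0 : ℝ) < (1 / 2) ^ j := by positivity
        rcases lt_or_gt_of_ne hij with h | h
        · have h2 : ((1 : ℝ) / 2) ^ j ≤ (1 / 2) ^ (i + 1) :=
            pow_le_pow_of_le_one (by norm_num) (by norm_num) h
          rw [pow_succ] at h2
          rw [le_abs]; right
          linarith
        · have h2 : ((1 : ℝ) / 2) ^ i ≤ (1 / 2) ^ (j + 1) :=
            pow_le_pow_of_le_one (by norm_num) (by norm_num) h
          rw [pow_succ] at h2
          rw [le_abs]; left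
          linarith
    simp only [hBs, this, tsum_zero]
  have hsmr : ContDiff ℝ ∞ (rr eT Bs) := B6.rr_contDiff eT Bs e1 hsm
  have hp0 : rr eT Bs ![0, 0, 0, 1, 1] < 0 := by
    rw [rr_disc eT Bs 0 (by simp), hBst]
    have := e3 1 one_pos
    linarith
  have hreg : ∀ p, rr eT Bs p = 0 → fderiv ℝ (rr eT Bs) p ≠ 0 := by
    intro p hp
    refine B4.rr_regular eT Bs e1 hsm e4 e6 e7 e8 (fun q => ⟨hBs0 q, (hle q).trans ?_⟩) hfd hBsr p hp
    norm_num
  obtain ⟨c1, c2, c3⟩ := B5.component_smooth (rr eT Bs) hsmr hreg ![0, 0, 0, 1, 1] hp0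
  have hopen : IsOpen {p : Fin 5 → ℂ | rr eT Bs p < 0} :=
    isOpen_lt hsmr.continuous continuous_const
  have hsub : connectedComponentIn {p : Fin 5 → ℂ | rr eT Bs p < 0} ![0, 0, 0, 1, 1]
      ⊆ {p : Fin 5 → ℂ | rr eT Bs p < 0} := connectedComponentIn_subset _ _
  have hdisc : ∀ ζ : ℂ, ‖ζ‖ ≤ 1 → (![ζ, 0, 0, 1, 1] : Fin 5 → ℂ) ∈
      connectedComponentIn {p : Fin 5 → ℂ | rr eT Bs p < 0} ![0, 0, 0, 1, 1] := by
    intro ζ hζ
    have hS : IsPreconnected ((fun ζ : ℂ => (![ζ, 0, 0, 1, 1] : Fin 5 → ℂ)) '' closedBall 0 1) := by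
      refine (convex_closedBall (0 : ℂ) 1).isPreconnected.image _ ?_
      apply Continuous.continuousOn
      refine continuous_pi fun i => ?_
      fin_cases i <;> simp <;> fun_prop
    refine hS.subset_connectedComponentIn ⟨0, by simp, rfl⟩ ?_ ⟨ζ, by simpa using hζ, rfl⟩
    rintro _ ⟨ξ, hξ, rfl⟩
    show rr eT Bs ![ξ, 0, 0, 1, 1] < 0
    rw [rr_disc eT Bs ξ (by simpa using hξ), hBst]
    have := e3 1 one_pos
    linarith
  refine ⟨connectedComponentIn {p : Fin 5 → ℂ | rr eT Bs p < 0} ![0, 0, 0, 1, 1], c1, c2,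
    (B6.rr_bounded eT Bs e4 hBs0).subset hsub, c3, hdisc, ?_⟩
  intro N
  refine ⟨1 / 4 * (1 / 2) ^ N, 2 * Real.pi * N + 1, M N, hl0 N, hl1 N, rfl, hM N, ?_, ?_⟩
  · intro t x ht0 ht1 hx0 hx1 htx ζ hζ
    have hen : ∀ t : ℝ, ‖Complex.exp (I * (M N * Real.arctan
      ((2 * Real.pi * N + 1) * t / M N)))‖ = 1 := by
      intro t
      rw [show (I * (M N * Real.arctan ((2 * Real.pi * N + 1) * t / M N)) : ℂ)
        = ((M N * Real.arctan ((2 * Real.pi * N + 1) * t / M N) : ℝ) : ℂ) * I by push_cast; ring]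
      exact Complex.norm_exp_ofReal_mul_I _
    have claim1 : ∀ x : ℝ, 1 / 4 * (1 / 2) ^ N ≤ x → x ≤ 1 →
        (![ζ, 0, 0, 1, (x : ℂ)] : Fin 5 → ℂ) ∈
        connectedComponentIn {p : Fin 5 → ℂ | rr eT Bs p < 0} ![0, 0, 0, 1, 1] := by
      intro x hx0 hx1
      have hS : IsPreconnected ((fun x : ℝ => (![ζ, 0, 0, 1, (x : ℂ)] : Fin 5 → ℂ)) ''
          Icc (1 / 4 * (1 / 2) ^ N) 1) := by
        refine isPreconnected_Icc.image _ ?_
        apply Continuous.continuousOn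
        refine continuous_pi fun i => ?_
        fin_cases i <;> simp <;> fun_prop
      refine comp_sub (hdisc ζ hζ.le) hS ⟨1, ⟨(hl1 N).trans (by norm_num), le_rfl⟩, by simp⟩ ?_
        ⟨x, ⟨hx0, hx1⟩, rfl⟩
      rintro _ ⟨y, hy, rfl⟩
      show rr eT Bs ![ζ, 0, 0, 1, (y : ℂ)] < 0
      have h1 := rr_circle eT Bs ζ 0 1 y hζ (by
        have := hy.1; have := hy.2; have := hl0 N
        simp; nlinarith)
      rw [zero_mul] at h1
      rw [h1, hBst]
      have := e3 y ((hl0 N).trans_le hy.1)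
      linarith
    rcases htx with h | h
    · subst h
      simpa using claim1 x hx0 hx1
    · subst h
      have hS : IsPreconnected ((fun t : ℝ => (![ζ, 0, (t : ℂ) * ζ, Complex.exp (I * (M N *
          Real.arctan ((2 * Real.pi * N + 1) * t / M N))), ((1 / 4 * (1 / 2) ^ N : ℝ) : ℂ)] :
          Fin 5 → ℂ)) '' Icc 0 1) := by
        refine isPreconnected_Icc.image _ ?_
        apply Continuous.continuousOn
        have hat : Continuous fun t : ℝ => Real.arctan ((2 * Real.pi * N + 1) * t / M N) :=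
          Real.continuous_arctan.comp (by fun_prop)
        have hex : Continuous fun t : ℝ => Complex.exp (I * (M N *
            Real.arctan ((2 * Real.pi * N + 1) * t / M N))) := by
          have h1 := Complex.continuous_ofReal.comp hat
          exact Complex.continuous_exp.comp (continuous_const.mul (continuous_const.mul h1))
        refine continuous_pi fun i => ?_
        fin_cases i
        · exact continuous_const
        · exact continuous_const
        · exact Complex.continuous_ofReal.mul continuous_const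
        · exact hex
        · exact continuous_const
      refine comp_sub (claim1 _ le_rfl ((hl1 N).trans (by norm_num))) hS
        ⟨0, ⟨le_rfl, zero_le_one⟩, by simp⟩ ?_ ⟨t, ⟨ht0, ht1⟩, rfl⟩
      rintro _ ⟨y, hy, rfl⟩
      show rr eT Bs ![ζ, 0, (y : ℂ) * ζ, _, _] < 0
      rw [rr_circle eT Bs ζ y _ _ hζ (by
        rw [hen, Complex.norm_real, Real.norm_eq_abs, sq_abs]
        have := hy.1; have := hy.2; have := hl0 N; have := hl1 N
        nlinarith), hBsh]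
      have := e3 _ (hl0 N)
      linarith
  · obtain ⟨f, hf1, hf2⟩ := hf N (ε N) (hε N).1 (hε N).2 eT Bs hopen e4
      (fun x => by
        have := e5 N x
        refine this.trans (le_of_eq ?_)
        congr 4
        ring) hBs0
      (fun v s x hx hv hs hB => by
        refine hb7 N v s x hx hv hs ?_
        have h1 : ε N * b N (v, s, x) ≤ Bs (v, s, x) :=
          (hsum (v, s, x)).le_tsum N fun j _ => mul_nonneg (hε j).1.le (hb3 j _)
        have h2 := h1.trans_lt hB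
        rw [mul_comm] at h2
        exact lt_of_mul_lt_mul_right h2 (hε N).1.le)
    exact ⟨f, hf1.mono hsub, hf2⟩

end Pool.Agent.Helper401.ENV.MainB
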