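import Mathlib
import Pool.Agent.Helper401.ENV.Defs
import Pool.Agent.Helper401.ENV.Ga
import Pool.Agent.Helper401.ENV.Gb
import Pool.Agent.Helper401.ENV.C1
import Pool.Agent.Helper401.ENV.C4
import Pool.Agent.Helper401.ENV.M1
import Pool.Agent.Helper401.ENV.MainB
set_option autoImplicit false
namespace Pool.Agent.Helper401.ENV.Final
open Complex Set Metric Filter Topology
open scoped ContDiff

/-- the point of the envelope reached along the helix at the time `t` -/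
theorem sheet {D : Set (Fin 5 → ℂ)} (hD : IsOpen D) (hDc : IsConnected D)
    (Γ : GermSpace 5 D) (Y : RDom 5) (ι : D → Y.X) (hY : IsEnvelope D Y ι)
    (hdisc : ∀ ζ : ℂ, ‖ζ‖ ≤ 1 → (![ζ, 0, 0, 1, 1] : Fin 5 → ℂ) ∈ D)
    (lam om : ℝ) (M : ℕ) (hl0 : 0 < lam) (hl : lam ≤ 1 / 4)
    (hc : ∀ (t x : ℝ), 0 ≤ t → t ≤ 1 → lam ≤ x → x ≤ 1 → (t = 0 ∨ x = lam) → ∀ ζ : ℂ, ‖ζ‖ = 1 →
        (![ζ, 0, t * ζ, Complex.exp (I * (M * Real.arctan (om * t / M))), (x : ℂ)] : Fin 5 → ℂ)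
          ∈ D)
    (f : (Fin 5 → ℂ) → ℂ) (hf : DifferentiableOn ℂ f D) (F : Y.X → ℂ) (hF : Hol Y F)
    (hFf : ∀ z : D, F (ι z) = f z) (t0 : ℝ) (ht0 : 0 ≤ t0) (ht1 : t0 ≤ 1)
    (he : Complex.exp (I * (M * Real.arctan (om * t0 / M))) = 1) (w : ℂ)
    (hfw : ∀ ζ : ℂ, ‖ζ‖ = 1 → f ![ζ, 0, t0 * ζ, 1, (lam : ℂ)] = w) :
    ∃ x : Y.X, Y.π x = ![0, 0, 0, 1, (lam : ℂ)] ∧ F x = w := by
  set a : ℝ → ℝ := fun τ => min (2 * τ) 1 with ha
  set b : ℝ → ℝ := fun τ => max (2 * τ - 1) 0 with hb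
  set γ : ℝ → ℂ × (Fin 5 → ℂ) := fun τ => (((b τ * t0 : ℝ) : ℂ),
    ![0, 0, 0, Complex.exp (I * (M * Real.arctan (om * (b τ * t0) / M))),
      ((1 + a τ * (lam - 1) : ℝ) : ℂ)]) with hγ
  have hac : Continuous a := by fun_prop
  have hbc : Continuous b := by fun_prop
  have hγc : Continuous γ := by
    have hat : Continuous fun τ : ℝ => Real.arctan (om * (b τ * t0) / M) :=
      Real.continuous_arctan.comp (by fun_prop)
    have hex : Continuous fun τ : ℝ => Complex.exp (I * (M *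
        Real.arctan (om * (b τ * t0) / M))) := by
      have h1 := Complex.continuous_ofReal.comp hat
      exact Complex.continuous_exp.comp (continuous_const.mul (continuous_const.mul h1))
    refine Continuous.prodMk (Complex.continuous_ofReal.comp (by fun_prop)) ?_
    refine continuous_pi fun i => ?_
    fin_cases i
    · exact continuous_const
    · exact continuous_const
    · exact continuous_const
    · exact hex
    · exact Complex.continuous_ofReal.comp (by fun_prop)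
  have hb0 : ∀ τ, 0 ≤ b τ := fun τ => le_max_right _ _
  have hb1 : ∀ τ ∈ Icc (0 : ℝ) 1, b τ ≤ 1 := fun τ hτ => max_le (by linarith [hτ.2]) zero_le_one
  have ha0 : ∀ τ ∈ Icc (0 : ℝ) 1, 0 ≤ a τ := fun τ hτ => le_min (by linarith [hτ.1]) zero_le_one
  have ha1 : ∀ τ, a τ ≤ 1 := fun τ => min_le_right _ _
  have hab : ∀ τ, b τ = 0 ∨ a τ = 1 := by
    intro τ
    rcases le_total (2 * τ) 1 with h | h
    · left; exact max_eq_right (by linarith)
    · right; exact min_eq_right h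
  have hΩ : ∀ τ ∈ Icc (0 : ℝ) 1, γ τ ∈ Om D := by
    intro τ hτ
    refine ⟨by simp [hγ], fun ζ hζ => ?_⟩
    have h1 := hc (b τ * t0) (1 + a τ * (lam - 1)) (mul_nonneg (hb0 τ) ht0)
      (mul_le_one₀ (hb1 τ hτ) ht0 ht1) (by nlinarith [ha1 τ, ha0 τ hτ])
      (by nlinarith [ha1 τ, ha0 τ hτ]) (by
        rcases hab τ with h | h
        · left; rw [h, zero_mul]
        · right; rw [h]; ring) ζ hζ
    simpa [hγ] using h1
  have hγ0 : γ 0 = (0, ![0, 0, 0, 1, 1]) := by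
    have h1 : b 0 = 0 := by simp only [hb]; norm_num
    have h2 : a 0 = 0 := by simp only [ha]; norm_num
    simp only [hγ, h1, h2, zero_mul, mul_zero, zero_div, Real.arctan_zero, Complex.ofReal_zero,
      Complex.exp_zero]
    norm_num
  have h0 : ∀ ζ : ℂ, ‖ζ‖ ≤ 1 → (![ζ, (γ 0).2 1, (γ 0).2 2 + (γ 0).1 * (ζ - (γ 0).2 0), (γ 0).2 3,
      (γ 0).2 4] : Fin 5 → ℂ) ∈ D := by
    intro ζ hζ
    rw [hγ0]
    simpa using hdisc ζ hζ
  obtain ⟨c1, c2⟩ := C4.path_cont hD γ hγc.continuousOn hΩ h0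
  have hp0 : (γ 0).2 ∈ D := by
    rw [hγ0]
    exact hdisc 0 (by simp)
  obtain ⟨x, hx1, hx2⟩ := Gb.continuation_point hD hDc Γ Y ι hY (fun τ => (γ τ).2)
    (continuous_snd.comp hγc).continuousOn hp0 (fun τ f => EE f (γ τ).1) c1 c2
  have hγ1 : γ 1 = ((t0 : ℂ), ![0, 0, 0, 1, (lam : ℂ)]) := by
    have h1 : b 1 = 1 := by simp only [hb]; norm_num
    have h2 : a 1 = 1 := by simp only [ha]; norm_num
    simp only [hγ, h1, h2, one_mul, he]
    norm_num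
  refine ⟨x, by rw [hx1, hγ1], ?_⟩
  rw [hx2 f F hf hF hFf, hγ1]
  unfold EE
  have : ∮ ζ in C(0, 1), f ![ζ, (![0, 0, 0, 1, (lam : ℂ)] : Fin 5 → ℂ) 1,
      (![0, 0, 0, 1, (lam : ℂ)] : Fin 5 → ℂ) 2 + (t0 : ℂ) *
        (ζ - (![0, 0, 0, 1, (lam : ℂ)] : Fin 5 → ℂ) 0),
      (![0, 0, 0, 1, (lam : ℂ)] : Fin 5 → ℂ) 3, (![0, 0, 0, 1, (lam : ℂ)] : Fin 5 → ℂ) 4]
        / (ζ - (![0, 0, 0, 1, (lam : ℂ)] : Fin 5 → ℂ) 0)
      = ∮ ζ in C(0, 1), w * (ζ - 0)⁻¹ := by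
    refine circleIntegral.integral_congr zero_le_one fun ζ hζ => ?_
    have hζ1 : ‖ζ‖ = 1 := by simpa using hζ
    have h1 := hfw ζ hζ1
    simp only [Matrix.cons_val, zero_add, sub_zero]
    rw [h1]
    rfl
  show (2 * Real.pi * I)⁻¹ * _ = w
  rw [this, circleIntegral.integral_const_mul,
    circleIntegral.integral_sub_inv_of_mem_ball (by simp)]
  have hpi : (2 * Real.pi * I : ℂ) ≠ 0 := Complex.two_pi_I_ne_zero
  field_simp

theorem final : ∃ D : Set (Fin 5 → ℂ), IsOpen D ∧ IsConnected D ∧ Bornology.IsBounded D ∧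
    SmoothBoundary D ∧ (∃ (Y : RDom 5) (ι : D → Y.X), IsEnvelope D Y ι) ∧
    ∀ (Y : RDom 5) (ι : D → Y.X), IsEnvelope D Y ι →
      ∀ N : ℕ, ∃ p : Fin 5 → ℂ, (N : ℕ∞) < (Y.π ⁻¹' {p}).encard := by
  obtain ⟨D, hD, hDc, hDb, hDs, hdisc, H⟩ := MainB.mainB
  obtain ⟨Γ⟩ := Ga.exists_germSpace 5 D
  refine ⟨D, hD, hDc, hDb, hDs, Gb.exists_envelope_of hD hDc Γ, ?_⟩
  intro Y ι hY N
  obtain ⟨lam, om, M, hl0, hl1, hom, hM, hc, f, hf, hfv⟩ := H N
  obtain ⟨F, hF, hFf⟩ := hY.ext.ext f hf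
  refine ⟨![0, 0, 0, 1, (lam : ℂ)], ?_⟩
  have hpi := Real.pi_pos
  have hom1 : 1 ≤ om := by
    rw [hom]
    have : (0 : ℝ) ≤ 2 * Real.pi * N := by positivity
    linarith
  have hx : ∀ k : Fin (N + 1), ∃ x : Y.X, Y.π x = ![0, 0, 0, 1, (lam : ℂ)] ∧
      F x = I * (2 * Real.pi * (k : ℕ)) := by
    intro k
    have hk : ((k : ℕ) : ℝ) ≤ N := by exact_mod_cast Nat.lt_succ_iff.1 k.2
    obtain ⟨t, ht0, ht1, ht⟩ := M1.exists_time om (2 * Real.pi * (k : ℕ)) M hom1 hM (by positivity)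
      (by rw [hom]; have := mul_le_mul_of_nonneg_left hk (by positivity : 0 ≤ 2 * Real.pi); linarith)
    have htc : (M * Real.arctan (om * t / M) : ℂ) = 2 * Real.pi * (k : ℕ) := by
      exact_mod_cast ht
    have he : Complex.exp (I * (M * Real.arctan (om * t / M))) = 1 := by
      rw [htc, Complex.exp_eq_one_iff]
      exact ⟨k, by push_cast; ring⟩
    refine sheet hD hDc Γ Y ι hY hdisc lam om M hl0 hl1 hc f hf F hF hFf t ht0 ht1 he _ ?_
    intro ζ hζ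
    rw [hfv t ζ hζ he, htc]
  choose x hx1 hx2 using hx
  have hinj : Function.Injective x := by
    intro i j hij
    have h1 := hx2 i
    rw [hij, hx2 j] at h1
    have h2 : ((j : ℕ) : ℂ) = ((i : ℕ) : ℂ) := by
      have hpi' : (Real.pi : ℂ) ≠ 0 := by exact_mod_cast hpi.ne'
      have h3 := mul_left_cancel₀ Complex.I_ne_zero h1
      exact mul_left_cancel₀ (mul_ne_zero two_ne_zero hpi') h3
    have h3 : (j : ℕ) = i := by exact_mod_cast h2
    exact Fin.ext h3.symm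
  have hsub : range x ⊆ Y.π ⁻¹' {![0, 0, 0, 1, (lam : ℂ)]} := by
    rintro _ ⟨i, rfl⟩
    exact hx1 i
  have hcard : (range x).encard = (N + 1 : ℕ) := by
    rw [← image_univ, hinj.encard_image, encard_univ]
    simp
  refine lt_of_lt_of_le ?_ (encard_le_encard hsub)
  rw [hcard]
  exact_mod_cast Nat.lt_succ_self N

end Pool.Agent.Helper401.ENV.Final
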